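import Pool.Agent.Helper73.HODC.Rank

namespace Pool.Agent.Helper73.HODC

open Ordinal Cardinal ZFSet Order

/-! ## Module FS (file Scale.lean) : increasing sequence of functions (uses CL, RK) -/

theorem Setting.aleph0_lt {lam m : Cardinal.{0}} {δ : Ordinal.{0} → Cardinal.{0}}
    (hs : Setting lam m δ) {i : Ordinal.{0}} (hi : i < m.ord) : ℵ₀ < δ i := by
  refine hs.unc.trans (hs.big.trans_le ?_)
  rcases eq_or_ne i 0 with rfl | h
  · exact le_rfl
  · exact (hs.mono 0 i (pos_iff_ne_zero.mpr h) hi).le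

theorem Setting.ord_pos {lam m : Cardinal.{0}} {δ : Ordinal.{0} → Cardinal.{0}}
    (hs : Setting lam m δ) : (0 : Ordinal.{0}) < m.ord := by
  rw [Cardinal.lt_ord, card_zero]
  exact aleph0_pos.trans hs.unc

theorem Setting.aleph0_lt_lam {lam m : Cardinal.{0}} {δ : Ordinal.{0} → Cardinal.{0}}
    (hs : Setting lam m δ) : ℵ₀ < lam :=
  (hs.aleph0_lt hs.ord_pos).trans (hs.lt 0 hs.ord_pos)

theorem Setting.limit {lam m : Cardinal.{0}} {δ : Ordinal.{0} → Cardinal.{0}}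
    (hs : Setting lam m δ) : IsSuccLimit m.ord :=
  isSuccLimit_ord hs.unc.le

/-- a supremum of at most `c` ordinals below `c⁺` is below `c⁺` -/
theorem iSup_add_one_lt_succ {c : Cardinal.{0}} (hc : ℵ₀ ≤ c) {ι : Type 1}
    (f g : ι → Ordinal.{0}) (hg : Function.Injective g) (hgc : ∀ i, g i < c.ord)
    (hf : ∀ i, f i < (succ c).ord) : ⨆ i, f i + 1 < (succ c).ord := by
  apply lift_iSup_add_one_lt_of_lt_cof _ hf
  rw [← lift_cof, (isRegular_succ hc).cof_ord, Cardinal.lift_id'.{0, 1}]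
  have h1 : #ι ≤ #(Set.Iio c.ord) :=
    Cardinal.mk_le_of_injective (f := fun i => (⟨g i, hgc i⟩ : Set.Iio c.ord))
      (fun i j h => hg (congrArg Subtype.val h))
  refine h1.trans_lt ?_
  rw [Cardinal.mk_Iio_ordinal, card_ord, Cardinal.lift_lt]
  exact lt_succ c

/-- the sequence of functions -/
noncomputable def FF (δ : Ordinal.{0} → Cardinal.{0}) (j : Ordinal.{0} → Ordinal.{0} → Ordinal.{0})
    (β i : Ordinal.{0}) : Ordinal.{0} :=
  ⨆ γ : {γ : Set.Iio β // j β γ.1 < (δ i).ord}, FF δ j γ.1.1 i + 1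
termination_by β
decreasing_by exact γ.1.2

theorem exists_inj {lam : Cardinal.{0}} (β : Ordinal.{0}) (hβ : β < (succ lam).ord) :
    ∃ j : Ordinal.{0} → Ordinal.{0}, (∀ γ < β, j γ < lam.ord) ∧
      ∀ γ < β, ∀ γ' < β, j γ = j γ' → γ = γ' := by
  have h1 : β.card ≤ lam := by
    rw [Cardinal.lt_ord] at hβ
    exact lt_succ_iff.mp hβ
  have h2 : #(Set.Iio β) ≤ #(Set.Iio lam.ord) := by
    rw [Cardinal.mk_Iio_ordinal, Cardinal.mk_Iio_ordinal, card_ord, Cardinal.lift_le]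
    exact h1
  obtain ⟨e⟩ := h2
  classical
  refine ⟨fun γ => if h : γ < β then (e ⟨γ, h⟩).1 else 0, fun γ hγ => ?_, fun γ hγ γ' hγ' h => ?_⟩
  · simp only [hγ, dif_pos]
    exact (e ⟨γ, hγ⟩).2
  · simp only [hγ, hγ', dif_pos] at h
    have h3 := e.injective (Subtype.ext h)
    exact congrArg Subtype.val h3

theorem exists_F {lam m : Cardinal.{0}} {δ : Ordinal.{0} → Cardinal.{0}}
    (hs : Setting lam m δ) : ∃ F : Ordinal.{0} → Ordinal.{0} → Ordinal.{0},
      (∀ β < (succ lam).ord, ∀ i < m.ord, F β i < (succ (δ i)).ord) ∧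
      ∀ β < (succ lam).ord, ∀ γ < β, LtOn m.ord Set.univ (F γ) (F β) := by
  classical
  have hj : ∀ β : Ordinal.{0}, ∃ j : Ordinal.{0} → Ordinal.{0}, β < (succ lam).ord →
      (∀ γ < β, j γ < lam.ord) ∧ ∀ γ < β, ∀ γ' < β, j γ = j γ' → γ = γ' := by
    intro β
    by_cases h : β < (succ lam).ord
    · obtain ⟨j, h1⟩ := exists_inj β h
      exact ⟨j, fun _ => h1⟩
    · exact ⟨fun _ => 0, fun h' => absurd h' h⟩
  choose j hj using hj
  refine ⟨FF δ j, ?_, ?_⟩
  · intro β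
    induction β using WellFoundedLT.induction with
    | _ β ih =>
      intro hβ i hi
      rw [FF]
      refine iSup_add_one_lt_succ (hs.aleph0_lt hi).le _ (fun γ => j β γ.1.1) ?_ (fun γ => γ.2)
        (fun γ => ih γ.1.1 γ.1.2 (lt_trans γ.1.2 hβ) i hi)
      intro γ γ' h
      exact Subtype.ext (Subtype.ext ((hj β hβ).2 γ.1.1 γ.1.2 γ'.1.1 γ'.1.2 h))
  · intro β hβ γ hγ
    have h1 : (j β γ).card < lam := by
      rw [← Cardinal.lt_ord]
      exact (hj β hβ).1 γ hγ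
    obtain ⟨i₀, hi₀, h2⟩ := hs.cofinal _ h1
    refine ⟨{a | i₀ < a}, club_Ioi hs.limit hi₀, fun i hi him _ => ?_⟩
    have h3 : j β γ < (δ i).ord := by
      rw [Cardinal.lt_ord]
      exact h2.trans (hs.mono i₀ i hi him)
    rw [FF.eq_def δ j β i]
    have h4 := Ordinal.le_iSup
      (fun γ' : {γ' : Set.Iio β // j β γ'.1 < (δ i).ord} => FF δ j γ'.1.1 i + 1)
      ⟨⟨γ, hγ⟩, h3⟩
    exact lt_of_lt_of_le (lt_add_one _) h4

theorem R_F {lam m : Cardinal.{0}} {F : Ordinal.{0} → Ordinal.{0} → Ordinal.{0}}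
    (hF : ∀ β < (succ lam).ord, ∀ γ < β, LtOn m.ord Set.univ (F γ) (F β)) (β : Ordinal.{0})
    (hβ : β < (succ lam).ord) (T : Set Ordinal.{0}) : R m.ord T β (F β) := by
  induction β using WellFoundedLT.induction with
  | _ β ih =>
    rw [R_iff]
    intro γ hγ
    refine ⟨F γ, ?_, ih γ hγ (hγ.trans hβ)⟩
    obtain ⟨C, hC, h⟩ := hF β hβ γ hγ
    exact ⟨C, hC, fun i hi him _ => h i hi him (Set.mem_univ i)⟩

end Pool.Agent.Helper73.HODC
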