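import Pool.Agent.Helper73.HODC.GH
import Pool.Agent.Helper73.HODC.Scale

namespace Pool.Agent.Helper73.HODC

open Ordinal Cardinal ZFSet Order

/-! ## Module AP (file Appr.lean) : cofinality of the sequence and approximations
(uses CL, RK, GH, FS) -/

theorem F_cofinal {lam m : Cardinal.{0}} {δ : Ordinal.{0} → Cardinal.{0}}
    (hs : Setting lam m δ) {F : Ordinal.{0} → Ordinal.{0} → Ordinal.{0}}
    (hF : ∀ β < (succ lam).ord, ∀ γ < β, LtOn m.ord Set.univ (F γ) (F β))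
    (g : Ordinal.{0} → Ordinal.{0}) (hg : ∀ i < m.ord, g i < (succ (δ i)).ord) :
    ∃ β < (succ lam).ord, LeOn m.ord Set.univ g (F β) := by
  obtain ⟨η, hη, hb⟩ := rank_bound hs g hg
  refine ⟨η, hη, ?_⟩
  by_contra hn
  have hT : Stat {i | F η i < g i} m.ord := by
    intro C hC
    by_contra hno
    refine hn ⟨C, hC, fun i hi him _ => ?_⟩
    by_contra hlt
    exact hno ⟨i, not_le.mp hlt, hi, him⟩
  refine hb _ hT (R_mono hs.reg hs.unc (R_F hF η hη _) ?_)
  exact ⟨Set.univ, club_univ hs.limit, fun i _ _ hi => le_of_lt hi⟩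

theorem R_univ {μ : Ordinal.{0}} {T : Set Ordinal.{0}} {η : Ordinal.{0}}
    {x : Ordinal.{0} → Ordinal.{0}} (h : R μ Set.univ η x) : R μ T η x :=
  R_mono_set h fun i _ _ => Set.mem_univ i

/-- an increasing sequence of ordinals cofinal in an ordinal of cofinality omega which is closed
under a function -/
theorem exists_seq_cofinal {α : Ordinal.{0}} (hα : α.cof = ℵ₀) {n : Ordinal.{0} → Ordinal.{0}}
    (hn : ∀ β < α, n β < α) : ∃ b : ℕ → Ordinal.{0}, (∀ k, b k < α) ∧ (∀ k, b k < b (k + 1)) ∧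
      (∀ k, n (b k) ≤ b (k + 1)) ∧ ∀ β < α, ∃ k, β ≤ b k := by
  have hlim : IsSuccLimit α := by
    rw [← one_lt_cof_iff, hα]
    exact one_lt_aleph0
  have hcof : α.cof.ord = ω := by rw [hα, ord_aleph0]
  obtain ⟨c, hc⟩ := exists_isFundamentalSeq hcof
  let c' : ℕ → Ordinal.{0} := fun k => (c ⟨k, natCast_lt_omega0 k⟩).1
  have hc'lt : ∀ k, c' k < α := fun k => (c ⟨k, natCast_lt_omega0 k⟩).2
  have hc'cof : ∀ β < α, ∃ k, β ≤ c' k := by
    intro β hβ
    obtain ⟨_, ⟨d, rfl⟩, hd⟩ := hc.isCofinal_range ⟨β, hβ⟩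
    obtain ⟨k, hk⟩ := lt_omega0.mp d.2
    refine ⟨k, ?_⟩
    have : d = ⟨k, natCast_lt_omega0 k⟩ := Subtype.ext hk
    rw [this] at hd
    exact hd
  let b : ℕ → Ordinal.{0} := fun k =>
    Nat.rec (c' 0) (fun k x => max (n x) (max (c' (k + 1)) (x + 1))) k
  have hb0 : b 0 = c' 0 := rfl
  have hbs : ∀ k, b (k + 1) = max (n (b k)) (max (c' (k + 1)) (b k + 1)) := fun k => rfl
  have hlt : ∀ k, b k < α := by
    intro k
    induction k with
    | zero => exact hc'lt 0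
    | succ k ih =>
      rw [hbs]
      exact max_lt (hn _ ih) (max_lt (hc'lt _) (hlim.add_one_lt ih))
  refine ⟨b, hlt, fun k => ?_, fun k => ?_, fun β hβ => ?_⟩
  · rw [hbs]
    exact (lt_add_one (b k)).trans_le ((le_max_right _ _).trans (le_max_right _ _))
  · rw [hbs]
    exact le_max_left _ _
  · obtain ⟨k, hk⟩ := hc'cof β hβ
    refine ⟨k, hk.trans ?_⟩
    cases k with
    | zero => exact le_rfl
    | succ k =>
      rw [hbs]
      exact (le_max_left _ _).trans (le_max_right _ _)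

/-- the supremum of a strictly increasing sequence has cofinality omega -/
theorem cof_iSup_nat {h : ℕ → Ordinal.{0}} (hh : ∀ k, h k < h (k + 1)) :
    (⨆ k, h k).cof = ℵ₀ := by
  rw [cof_iSup (strictMono_nat_of_lt_succ hh), Order.cof_nat]

theorem exists_appr {lam m : Cardinal.{0}} {δ : Ordinal.{0} → Cardinal.{0}}
    (hs : Setting lam m δ) (S : Set Ordinal.{0}) (Ci : Ordinal.{0} → Set Ordinal.{0})
    (hC : ∀ i ∈ S, i < m.ord → Club (Ci i) (succ (δ i)).ord) :
    ∃ D, Club D (succ lam).ord ∧ ∀ α ∈ D, α < (succ lam).ord → α.cof = ℵ₀ → lam.ord < α ∧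
      ∃ f G r, Appr m.ord α f G r ∧ ∃ C, Club C m.ord ∧ ∀ i ∈ C, i < m.ord → i ∈ S →
        f i ∈ Ci i ∧ (f i).cof = ℵ₀ ∧ f i < (succ (δ i)).ord := by
  classical
  obtain ⟨F, hFlt, hF⟩ := exists_F hs
  -- the next element of the club
  have hg : ∀ β i : Ordinal.{0}, ∃ y : Ordinal.{0}, β < (succ lam).ord → i < m.ord →
      F β i < y ∧ y < (succ (δ i)).ord ∧ (i ∈ S → y ∈ Ci i) := by
    intro β i
    by_cases hβ : β < (succ lam).ord
    · by_cases him : i < m.ord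
      · by_cases hi : i ∈ S
        · obtain ⟨y, hy, h1, h2⟩ := (hC i hi him).1 (F β i) (hFlt β hβ i him)
          exact ⟨y, fun _ _ => ⟨h1, h2, fun _ => hy⟩⟩
        · refine ⟨F β i + 1, fun _ _ => ⟨lt_add_one _, ?_, fun h => absurd h hi⟩⟩
          exact (isSuccLimit_ord ((hs.aleph0_lt him).le.trans (le_succ _))).add_one_lt
            (hFlt β hβ i him)
      · exact ⟨0, fun _ h => absurd h him⟩
    · exact ⟨0, fun h => absurd h hβ⟩
  choose g hg using hg
  -- the functions n and rh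
  have hn : ∀ β : Ordinal.{0}, ∃ n : Ordinal.{0}, β < (succ lam).ord →
      n < (succ lam).ord ∧ LeOn m.ord Set.univ (g β) (F n) := by
    intro β
    by_cases hβ : β < (succ lam).ord
    · obtain ⟨n, h1, h2⟩ := F_cofinal hs hF (g β) fun i hi => (hg β i hβ hi).2.1
      exact ⟨n, fun _ => ⟨h1, h2⟩⟩
    · exact ⟨0, fun h => absurd h hβ⟩
  choose n hn using hn
  have hr : ∀ β : Ordinal.{0}, ∃ η : Ordinal.{0}, β < (succ lam).ord →
      η < (succ lam).ord ∧ ∀ T, Stat T m.ord → ¬ R m.ord T η (F β) := by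
    intro β
    by_cases hβ : β < (succ lam).ord
    · obtain ⟨η, h1, h2⟩ := rank_bound hs (F β) (hFlt β hβ)
      exact ⟨η, fun _ => ⟨h1, h2⟩⟩
    · exact ⟨0, fun h => absurd h hβ⟩
  choose rh hr using hr
  have hreg : (succ lam).IsRegular := isRegular_succ hs.aleph0_lt_lam.le
  have hunc : ℵ₀ < succ lam := hs.aleph0_lt_lam.trans (lt_succ lam)
  have hcofS : ℵ₀ < (succ lam).ord.cof := by rw [hreg.cof_ord]; exact hunc
  have hcofm : ℵ₀ < m.ord.cof := by rw [hs.reg.cof_ord]; exact hs.unc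
  refine ⟨({a | ∀ b < a, n b < a} ∩ {a | ∀ b < a, rh b < a}) ∩ {a | lam.ord < a},
    Club.inter hcofS (Club.inter hcofS (Club.closure hreg hunc n fun a ha => (hn a ha).1)
      (Club.closure hreg hunc rh fun a ha => (hr a ha).1))
      (club_Ioi (isSuccLimit_ord hunc.le) (ord_lt_ord.mpr (lt_succ lam))), ?_⟩
  rintro α ⟨⟨hαn, hαr⟩, hαl⟩ hαs hαc
  refine ⟨hαl, ?_⟩
  obtain ⟨b, hb1, hb2, hb3, hb4⟩ := exists_seq_cofinal hαc hαn
  have hbs : ∀ k, b k < (succ lam).ord := fun k => (hb1 k).trans hαs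
  -- the clubs on which everything holds
  have hstep : ∀ k, ∃ C, Club C m.ord ∧ ∀ i ∈ C, i < m.ord → g (b k) i ≤ F (b (k + 1)) i := by
    intro k
    obtain ⟨C, hC1, hC2⟩ := (hn (b k) (hbs k)).2
    rcases (hb3 k).eq_or_lt with h | h
    · exact ⟨C, hC1, fun i hi him => by rw [← h]; exact hC2 i hi him (Set.mem_univ i)⟩
    · obtain ⟨C', hC'1, hC'2⟩ := hF (b (k + 1)) (hbs _) _ h
      exact ⟨C ∩ C', Club.inter hcofm hC1 hC'1, fun i hi him =>
        (hC2 i hi.1 him (Set.mem_univ i)).trans (hC'2 i hi.2 him (Set.mem_univ i)).le⟩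
  choose E hE1 hE2 using hstep
  have hE : Club (⋂ k, E k) m.ord := Club.iInter hcofm hE1
  have hincr : ∀ i ∈ ⋂ k, E k, i < m.ord → ∀ k, F (b k) i < F (b (k + 1)) i := by
    intro i hi him k
    exact (hg (b k) i (hbs k) him).1.trans_le (hE2 k i (Set.mem_iInter.mp hi k) him)
  have hsup : ∀ i ∈ ⋂ k, E k, i < m.ord → ∀ k, F (b k) i < ⨆ k, F (b k) i := by
    intro i hi him k
    exact (hincr i hi him k).trans_le (Ordinal.le_iSup (fun k => F (b k) i) (k + 1))
  refine ⟨fun i => ⨆ k, F (b k) i, fun k => F (b k), fun k => rh (b k), ?_,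
    ⋂ k, E k, hE, ?_⟩
  · refine ⟨fun k => hαr _ (hb1 k), fun k T hT => (hr (b k) (hbs k)).2 T hT, fun β hβ => ?_,
      ⋂ k, E k, hE, fun i hi him => ⟨hsup i hi him, fun y hy => ?_⟩⟩
    · obtain ⟨k, hk⟩ := hb4 β hβ
      exact ⟨k, R_anti (R_F hF (b k) (hbs k) Set.univ) hk⟩
    · exact Ordinal.lt_iSup_iff.mp hy
  · intro i hi him hiS
    have hlt : (⨆ k, F (b k) i) < (succ (δ i)).ord := by
      have hcof : (succ (δ i)).ord.cof = succ (δ i) :=
        (isRegular_succ (hs.aleph0_lt him).le).cof_ord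
      refine iSup_lt_of_lt_cof ?_ fun k => hFlt (b k) (hbs k) i him
      rw [hcof, mk_nat]
      exact (hs.aleph0_lt him).trans (lt_succ _)
    refine ⟨?_, cof_iSup_nat (hincr i hi him), hlt⟩
    refine (hC i hiS him).2 _ hlt ?_ ?_
    · exact (pos_of_gt (hsup i hi him 0)).ne'
    · intro a ha
      obtain ⟨k, hk⟩ := Ordinal.lt_iSup_iff.mp ha
      have h1 := hg (b k) i (hbs k) him
      exact ⟨g (b k) i, h1.2.2 hiS, hk.trans h1.1,
        (hE2 k i (Set.mem_iInter.mp hi k) him).trans_lt (hsup i hi him (k + 1))⟩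

end Pool.Agent.Helper73.HODC
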