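import Pool.Agent.Helper73.HODC.Defs2

namespace Pool.Agent.Helper73.HODC

open Ordinal Cardinal ZFSet Order

/-! ## Module DF (file Dfn.lean) : calculus of definable predicates -/

/-- lift a renaming under a quantifier -/
def liftR (s : ℕ → ℕ) : ℕ → ℕ
  | 0 => 0
  | n + 1 => s n + 1

/-- renaming of variables in a formula -/
def ren : (ℕ → ℕ) → Fm → Fm
  | s, .mem i j => .mem (s i) (s j)
  | s, .eq i j => .eq (s i) (s j)
  | s, .neg φ => .neg (ren s φ)
  | s, .and φ ψ => .and (ren s φ) (ren s ψ)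
  | s, .all φ => .all (ren (liftR s) φ)

theorem cons_liftR (x : ZFSet.{0}) (v : ℕ → ZFSet.{0}) (s : ℕ → ℕ) :
    (fun n => cons x v (liftR s n)) = cons x (fun n => v (s n)) := by
  funext n
  cases n <;> rfl

theorem app_liftR (v : ℕ → ZFSet.{0}) (s : ℕ → ℕ) :
    (fun n => v (liftR s n)) = cons (v 0) (fun n => v (s n + 1)) := by
  funext n
  cases n <;> rfl

theorem sat_ren (M : Set ZFSet.{0}) (φ : Fm) : ∀ (s : ℕ → ℕ) (v : ℕ → ZFSet.{0}),
    Sat M (ren s φ) v ↔ Sat M φ (fun n => v (s n)) := by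
  induction φ with
  | mem i j => intro s v; exact Iff.rfl
  | eq i j => intro s v; exact Iff.rfl
  | neg φ ih => intro s v; exact not_congr (ih s v)
  | and φ ψ ih1 ih2 => intro s v; exact and_congr (ih1 s v) (ih2 s v)
  | all φ ih =>
    intro s v
    refine forall_congr' fun x => forall_congr' fun _ => ?_
    rw [ih (liftR s) (cons x v), cons_liftR]

theorem Dfn.congr {P Q : (ℕ → ZFSet.{0}) → Prop} (h : Dfn P) (e : ∀ v, P v ↔ Q v) : Dfn Q := by
  obtain ⟨φ, hφ⟩ := h
  exact ⟨φ, fun v => (hφ v).trans (e v)⟩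

theorem dfn_mem (i j : ℕ) : Dfn (fun v => v i ∈ v j) := ⟨.mem i j, fun _ => Iff.rfl⟩

theorem dfn_eq (i j : ℕ) : Dfn (fun v => v i = v j) := ⟨.eq i j, fun _ => Iff.rfl⟩

theorem Dfn.not {P : (ℕ → ZFSet.{0}) → Prop} (h : Dfn P) : Dfn (fun v => ¬ P v) := by
  obtain ⟨φ, hφ⟩ := h
  exact ⟨.neg φ, fun v => not_congr (hφ v)⟩

theorem Dfn.and {P Q : (ℕ → ZFSet.{0}) → Prop} (h : Dfn P) (h' : Dfn Q) :
    Dfn (fun v => P v ∧ Q v) := by
  obtain ⟨φ, hφ⟩ := h
  obtain ⟨ψ, hψ⟩ := h'
  exact ⟨.and φ ψ, fun v => and_congr (hφ v) (hψ v)⟩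

theorem Dfn.or {P Q : (ℕ → ZFSet.{0}) → Prop} (h : Dfn P) (h' : Dfn Q) :
    Dfn (fun v => P v ∨ Q v) :=
  ((h.not.and h'.not).not).congr fun v => by tauto

theorem Dfn.imp {P Q : (ℕ → ZFSet.{0}) → Prop} (h : Dfn P) (h' : Dfn Q) :
    Dfn (fun v => P v → Q v) :=
  ((h.and h'.not).not).congr fun v => by tauto

theorem Dfn.iff {P Q : (ℕ → ZFSet.{0}) → Prop} (h : Dfn P) (h' : Dfn Q) :
    Dfn (fun v => P v ↔ Q v) :=
  ((h.imp h').and (h'.imp h)).congr fun v => by tauto

theorem Dfn.const (p : Prop) : Dfn (fun _ => p) := by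
  by_cases hp : p
  · exact (dfn_eq 0 0).congr fun v => by simp [hp]
  · exact (dfn_eq 0 0).not.congr fun v => by simp [hp]

theorem Dfn.all {Q : ZFSet.{0} → (ℕ → ZFSet.{0}) → Prop}
    (h : Dfn (fun v => Q (v 0) (fun n => v (n + 1)))) : Dfn (fun v => ∀ x, Q x v) := by
  obtain ⟨φ, hφ⟩ := h
  refine ⟨.all φ, fun v => ?_⟩
  constructor
  · intro H x
    exact (hφ (cons x v)).1 (H x (Set.mem_univ x))
  · intro H x _
    exact (hφ (cons x v)).2 (H x)

theorem Dfn.ex {Q : ZFSet.{0} → (ℕ → ZFSet.{0}) → Prop}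
    (h : Dfn (fun v => Q (v 0) (fun n => v (n + 1)))) : Dfn (fun v => ∃ x, Q x v) :=
  (Dfn.all (Q := fun x v => ¬ Q x v) h.not).not.congr fun v => by
    simp only [not_forall, not_not]

theorem Dfn.rename {P : (ℕ → ZFSet.{0}) → Prop} (h : Dfn P) (s : ℕ → ℕ) :
    Dfn (fun v => P (fun n => v (s n))) := by
  obtain ⟨φ, hφ⟩ := h
  exact ⟨ren s φ, fun v => (sat_ren _ φ s v).trans (hφ _)⟩

theorem dfn_singleton (i j : ℕ) : Dfn (fun v => v i = {v j}) :=
  (Dfn.all (Q := fun u v => (u ∈ v i ↔ u = v j)) ((dfn_mem 0 (i + 1)).iff (dfn_eq 0 (j + 1)))).congr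
    fun v => by
      constructor
      · intro H
        ext u
        rw [H u, mem_singleton]
      · intro H u
        rw [H, mem_singleton]

theorem dfn_upair (i j k : ℕ) : Dfn (fun v => v i = {v j, v k}) :=
  (Dfn.all (Q := fun u v => (u ∈ v i ↔ (u = v j ∨ u = v k)))
    ((dfn_mem 0 (i + 1)).iff ((dfn_eq 0 (j + 1)).or (dfn_eq 0 (k + 1))))).congr
    fun v => by
      constructor
      · intro H
        ext u
        rw [H u, ZFSet.mem_pair]
      · intro H u
        rw [H, ZFSet.mem_pair]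

theorem dfn_pair (i j k : ℕ) : Dfn (fun v => v i = ZFSet.pair (v j) (v k)) :=
  (Dfn.all (Q := fun u v => (u ∈ v i ↔ (u = {v j} ∨ u = {v j, v k})))
    ((dfn_mem 0 (i + 1)).iff ((dfn_singleton 0 (j + 1)).or (dfn_upair 0 (j + 1) (k + 1))))).congr
    fun v => by
      constructor
      · intro H
        ext u
        rw [H u, ZFSet.pair, ZFSet.mem_pair]
      · intro H u
        rw [H, ZFSet.pair, ZFSet.mem_pair]

theorem dfn_pair_mem (i j k : ℕ) : Dfn (fun v => ZFSet.pair (v i) (v j) ∈ v k) :=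
  (Dfn.ex (Q := fun p v => p = ZFSet.pair (v i) (v j) ∧ p ∈ v k)
    ((dfn_pair 0 (i + 1) (j + 1)).and (dfn_mem 0 (k + 1)))).congr fun v => by simp

/-- `W` is a simulation of the rank comparison -/
def Simu (W : ZFSet.{0}) : Prop :=
  ∀ a b, ZFSet.pair a b ∈ W → ∀ w, w ∈ a → ∃ z, z ∈ b ∧ ZFSet.pair w z ∈ W

theorem Simu.rank_le {W : ZFSet.{0}} (h : Simu W) :
    ∀ a b : ZFSet.{0}, ZFSet.pair a b ∈ W → a.rank ≤ b.rank := by
  intro a
  induction a using ZFSet.inductionOn with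
  | _ a ih =>
    intro b hab
    rw [rank_le_iff]
    intro w hw
    obtain ⟨z, hz, hwz⟩ := h a b hab w hw
    exact (ih w hw z hwz).trans_lt (rank_lt_of_mem hz)

theorem exists_simu {x y : ZFSet.{0}} (h : x.rank ≤ y.rank) :
    ∃ W, ZFSet.pair x y ∈ W ∧ Simu W := by
  have hx : x ∈ V_ (succ y.rank) := mem_vonNeumann.2 (h.trans_lt (lt_succ _))
  have hy : y ∈ V_ (succ y.rank) := mem_vonNeumann.2 (lt_succ _)
  refine ⟨pairSep (fun a b => a.rank ≤ b.rank) (V_ (succ y.rank)) (V_ (succ y.rank)), ?_, ?_⟩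
  · rw [mem_pairSep]
    exact ⟨x, hx, y, hy, rfl, h⟩
  · intro a b hab w hw
    rw [mem_pairSep] at hab
    obtain ⟨a', ha', b', hb', e, hr⟩ := hab
    obtain ⟨rfl, rfl⟩ := pair_inj.1 e
    obtain ⟨z, hz, hwz⟩ := lt_rank_iff.1 ((rank_lt_of_mem hw).trans_le hr)
    refine ⟨z, hz, ?_⟩
    rw [mem_pairSep]
    exact ⟨w, (isTransitive_vonNeumann _).mem_trans hw ha', z,
      (isTransitive_vonNeumann _).mem_trans hz hb', rfl, hwz⟩

theorem dfn_simu (i : ℕ) : Dfn (fun v => Simu (v i)) := by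
  have h1 : Dfn (fun v => ∃ z, z ∈ v 2 ∧ ZFSet.pair (v 0) z ∈ v (i + 3)) :=
    Dfn.ex (Q := fun z v => z ∈ v 2 ∧ ZFSet.pair (v 0) z ∈ v (i + 3))
      ((dfn_mem 0 3).and (dfn_pair_mem 1 0 (i + 4)))
  have h1' : Dfn (fun v => ∃ z, z ∈ v 1 ∧ ZFSet.pair (v 0) z ∈ v (i + 3)) :=
    Dfn.ex (Q := fun z v => z ∈ v 1 ∧ ZFSet.pair (v 0) z ∈ v (i + 3))
      ((dfn_mem 0 2).and (dfn_pair_mem 1 0 (i + 4)))
  have h2 : Dfn (fun v => ∀ w, w ∈ v 1 → ∃ z, z ∈ v 0 ∧ ZFSet.pair w z ∈ v (i + 2)) :=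
    Dfn.all (Q := fun w v => w ∈ v 1 → ∃ z, z ∈ v 0 ∧ ZFSet.pair w z ∈ v (i + 2))
      ((dfn_mem 0 2).imp h1')
  have h3 : Dfn (fun v => ∀ b, ZFSet.pair (v 0) b ∈ v (i + 1) →
      ∀ w, w ∈ v 0 → ∃ z, z ∈ b ∧ ZFSet.pair w z ∈ v (i + 1)) :=
    Dfn.all (Q := fun b v => ZFSet.pair (v 0) b ∈ v (i + 1) →
      ∀ w, w ∈ v 0 → ∃ z, z ∈ b ∧ ZFSet.pair w z ∈ v (i + 1))
      ((dfn_pair_mem 1 0 (i + 2)).imp h2)
  exact Dfn.all (Q := fun a v => ∀ b, ZFSet.pair a b ∈ v i →
      ∀ w, w ∈ a → ∃ z, z ∈ b ∧ ZFSet.pair w z ∈ v i) h3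

theorem dfn_rank_le (i j : ℕ) : Dfn (fun v => (v i).rank ≤ (v j).rank) :=
  (Dfn.ex (Q := fun W v => ZFSet.pair (v i) (v j) ∈ W ∧ Simu W)
    ((dfn_pair_mem (i + 1) (j + 1) 0).and (dfn_simu 0))).congr fun _ => by
      constructor
      · rintro ⟨W, h1, h2⟩
        exact h2.rank_le _ _ h1
      · intro h
        exact exists_simu h

theorem dfn_rank_lt (i j : ℕ) : Dfn (fun v => (v i).rank < (v j).rank) :=
  (dfn_rank_le j i).not.congr fun v => by rw [not_le]

theorem dfn_rank_eq (i j : ℕ) : Dfn (fun v => (v i).rank = (v j).rank) :=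
  ((dfn_rank_le i j).and (dfn_rank_le j i)).congr fun _ =>
    ⟨fun h => le_antisymm h.1 h.2, fun h => ⟨h.le, h.ge⟩⟩

theorem Dfn.allO {Q : Ordinal.{0} → (ℕ → ZFSet.{0}) → Prop}
    (h : Dfn (fun v => Q (v 0).rank (fun n => v (n + 1)))) : Dfn (fun v => ∀ a, Q a v) :=
  (Dfn.all (Q := fun x v => Q x.rank v) h).congr fun v => by
    constructor
    · intro H a
      have := H a.toZFSet
      rwa [rank_toZFSet] at this
    · intro H x
      exact H _

theorem Dfn.exO {Q : Ordinal.{0} → (ℕ → ZFSet.{0}) → Prop}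
    (h : Dfn (fun v => Q (v 0).rank (fun n => v (n + 1)))) : Dfn (fun v => ∃ a, Q a v) :=
  (Dfn.ex (Q := fun x v => Q x.rank v) h).congr fun v => by
    constructor
    · rintro ⟨x, hx⟩
      exact ⟨_, hx⟩
    · rintro ⟨a, ha⟩
      refine ⟨a.toZFSet, ?_⟩
      rwa [rank_toZFSet]

theorem dfn_st (i j : ℕ) : Dfn (fun v => (v i).rank ∈ st (v j)) :=
  (Dfn.ex (Q := fun z v => z ∈ v j ∧ z.rank = (v i).rank)
    ((dfn_mem 0 (j + 1)).and (dfn_rank_eq 0 (i + 1)))).congr fun _ => Iff.rfl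

/-- the set whose infimum is the value of the coded function -/
def fnSet (x : ZFSet.{0}) (a : Ordinal.{0}) : Set Ordinal.{0} :=
  {b | ∃ u w : ZFSet.{0}, ZFSet.pair u w ∈ x ∧ u.rank = a ∧ w.rank = b}

theorem dfn_fnSet (i j k : ℕ) : Dfn (fun v => (v k).rank ∈ fnSet (v i) (v j).rank) := by
  have h1 : Dfn (fun v => ∃ w, ZFSet.pair (v 0) w ∈ v (i + 1) ∧
      (v 0).rank = (v (j + 1)).rank ∧ w.rank = (v (k + 1)).rank) :=
    Dfn.ex (Q := fun w v => ZFSet.pair (v 0) w ∈ v (i + 1) ∧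
      (v 0).rank = (v (j + 1)).rank ∧ w.rank = (v (k + 1)).rank)
      ((dfn_pair_mem 1 0 (i + 2)).and ((dfn_rank_eq 1 (j + 2)).and (dfn_rank_eq 0 (k + 2))))
  exact Dfn.ex (Q := fun u v => ∃ w, ZFSet.pair u w ∈ v i ∧
      u.rank = (v j).rank ∧ w.rank = (v k).rank) h1

theorem dfn_rank_zero (k : ℕ) : Dfn (fun v => (v k).rank = 0) :=
  (Dfn.all (Q := fun z v => ¬ z ∈ v k) (dfn_mem 0 (k + 1)).not).congr fun v => by
    constructor
    · intro H
      have : v k = ∅ := (eq_empty _).2 H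
      rw [this, rank_empty]
    · intro H z hz
      have := rank_lt_of_mem hz
      rw [H] at this
      exact not_lt_zero this

theorem fn_eq_iff (x : ZFSet.{0}) (a c : Ordinal.{0}) :
    fn x a = c ↔ (c ∈ fnSet x a ∧ ∀ d, d ∈ fnSet x a → c ≤ d) ∨
      ((∀ d, ¬ d ∈ fnSet x a) ∧ c = 0) := by
  have hfn : fn x a = sInf (fnSet x a) := rfl
  rw [hfn]
  by_cases hne : (fnSet x a).Nonempty
  · constructor
    · rintro rfl
      exact Or.inl ⟨csInf_mem hne, fun d hd => csInf_le' hd⟩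
    · rintro (⟨h1, h2⟩ | ⟨h1, h2⟩)
      · exact le_antisymm (csInf_le' h1) (h2 _ (csInf_mem hne))
      · obtain ⟨d, hd⟩ := hne
        exact absurd hd (h1 d)
  · rw [Set.not_nonempty_iff_eq_empty] at hne
    rw [hne]
    constructor
    · rintro rfl
      exact Or.inr ⟨fun d hd => hd, Ordinal.sInf_empty⟩
    · rintro (⟨h1, h2⟩ | ⟨h1, h2⟩)
      · exact absurd h1 (Set.notMem_empty _)
      · rw [h2]; exact Ordinal.sInf_empty

theorem dfn_fn (i j k : ℕ) : Dfn (fun v => fn (v i) (v j).rank = (v k).rank) := by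
  have h1 : Dfn (fun v => ∀ d, d ∈ fnSet (v i) (v j).rank → (v k).rank ≤ d) :=
    Dfn.allO (Q := fun d v => d ∈ fnSet (v i) (v j).rank → (v k).rank ≤ d)
      ((dfn_fnSet (i + 1) (j + 1) 0).imp (dfn_rank_le (k + 1) 0))
  have h2 : Dfn (fun v => ∀ d, ¬ d ∈ fnSet (v i) (v j).rank) :=
    Dfn.allO (Q := fun d v => ¬ d ∈ fnSet (v i) (v j).rank)
      (dfn_fnSet (i + 1) (j + 1) 0).not
  exact (((dfn_fnSet i j k).and h1).or (h2.and (dfn_rank_zero k))).congr fun v =>
    (fn_eq_iff _ _ _).symm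

theorem dfn_trans (i : ℕ) : Dfn (fun v => (v i).IsTransitive) := by
  have h1 : Dfn (fun v => ∀ y, y ∈ v 0 → y ∈ v (i + 1)) :=
    Dfn.all (Q := fun y v => y ∈ v 0 → y ∈ v (i + 1)) ((dfn_mem 0 1).imp (dfn_mem 0 (i + 2)))
  exact (Dfn.all (Q := fun x v => x ∈ v i → ∀ y, y ∈ x → y ∈ v i)
    ((dfn_mem 0 (i + 1)).imp h1)).congr fun v => by
      constructor
      · intro H x hx y hy
        exact H x hx y hy
      · intro H x hx y hy
        exact H x hx hy

theorem eq_rank_toZFSet_iff (x : ZFSet.{0}) :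
    x = x.rank.toZFSet ↔ x.IsTransitive ∧ ∀ y, y ∈ x → y.IsTransitive := by
  rw [← isOrdinal_iff_forall_mem_isTransitive]
  constructor
  · intro h
    rw [h]
    exact isOrdinal_toZFSet _
  · intro h
    exact h.toZFSet_rank_eq.symm

/-- `v i` is the von Neumann ordinal of its rank -/
theorem dfn_isOrd (i : ℕ) : Dfn (fun v => v i = (v i).rank.toZFSet) :=
  ((dfn_trans i).and (Dfn.all (Q := fun y v => y ∈ v i → y.IsTransitive)
    ((dfn_mem 0 (i + 1)).imp (dfn_trans 0)))).congr fun v => (eq_rank_toZFSet_iff (v i)).symm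

/-- every set of ordinals below `μ` has a code -/
theorem exists_st (T : Set Ordinal.{0}) (μ : Ordinal.{0}) :
    ∃ z : ZFSet.{0}, st z = {a | a ∈ T ∧ a < μ} := by
  refine ⟨ZFSet.sep (fun z => z.rank ∈ T) μ.toZFSet, ?_⟩
  ext a
  constructor
  · rintro ⟨z, hz, rfl⟩
    rw [mem_sep, mem_toZFSet_iff] at hz
    obtain ⟨⟨b, hb, rfl⟩, hT⟩ := hz
    rw [rank_toZFSet] at hT ⊢
    exact ⟨hT, hb⟩
  · rintro ⟨hT, ha⟩
    refine ⟨a.toZFSet, ?_, rank_toZFSet a⟩
    rw [mem_sep, mem_toZFSet_iff, rank_toZFSet]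
    exact ⟨⟨a, ha, rfl⟩, hT⟩

/-- every function on `μ` has a code, of controlled rank -/
theorem exists_fn (x : Ordinal.{0} → Ordinal.{0}) (μ : Ordinal.{0}) :
    ∃ z : ZFSet.{0}, (∀ a < μ, fn z a = x a) ∧
      ∀ β, μ ≤ β → (∀ a < μ, x a < β) → z.rank ≤ β + 2 := by
  refine ⟨graph μ x, ?_, ?_⟩
  · intro a ha
    rw [fn_eq_iff]
    left
    have key : ∀ d, d ∈ fnSet (graph μ x) a ↔ d = x a := by
      intro d
      constructor
      · rintro ⟨u, w, h, hu, hw⟩
        rw [graph, mem_range] at h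
        obtain ⟨⟨b, hb⟩, hbe⟩ := h
        obtain ⟨h1, h2⟩ := pair_inj.1 hbe
        rw [← hw, ← h2, rank_toZFSet]
        rw [← h1, rank_toZFSet] at hu
        rw [hu]
      · rintro rfl
        refine ⟨a.toZFSet, (x a).toZFSet, ?_, rank_toZFSet _, rank_toZFSet _⟩
        rw [graph, mem_range]
        exact ⟨⟨a, ha⟩, rfl⟩
    refine ⟨(key _).2 rfl, fun d hd => ?_⟩
    rw [(key d).1 hd]
  · intro β hμ hx
    rw [rank_le_iff]
    intro y hy
    rw [graph, mem_range] at hy
    obtain ⟨⟨a, ha⟩, rfl⟩ := hy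
    have h1 : a < β := lt_of_lt_of_le ha hμ
    have h2 : x a < β := hx a ha
    have e : (β + 2 : Ordinal.{0}) = succ (succ β) := by
      rw [Order.succ_eq_add_one, Order.succ_eq_add_one, add_assoc, one_add_one_eq_two]
    rw [e]
    simp only [ZFSet.pair, rank_insert, rank_singleton, rank_toZFSet, max_lt_iff, succ_lt_succ_iff]
    exact ⟨h1, h1, h2⟩

/-- satisfaction of a fixed formula in `V_θ` is definable -/
theorem dfn_satV (φ : Fm) (c : ℕ) (s : ℕ → ℕ) :
    Dfn (fun v => Sat {z | z ∈ V_ (v c).rank} φ (fun n => v (s n))) := by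
  induction φ generalizing c s with
  | mem i j => exact dfn_mem (s i) (s j)
  | eq i j => exact dfn_eq (s i) (s j)
  | neg φ ih => exact (ih c s).not
  | and φ ψ ih1 ih2 => exact (ih1 c s).and (ih2 c s)
  | all φ ih =>
    refine (Dfn.all (Q := fun x v => x.rank < (v c).rank →
      Sat {z | z ∈ V_ (v c).rank} φ (cons x (fun n => v (s n)))) ?_).congr ?_
    · refine (dfn_rank_lt 0 (c + 1)).imp ((ih (c + 1) (liftR s)).congr fun v => ?_)
      rw [app_liftR]
    · intro v
      refine forall_congr' fun x => ?_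
      rw [← mem_vonNeumann]
      exact Iff.rfl

/-- a block of `m` existential quantifiers -/
theorem Dfn.exBlock (m : ℕ) {P : (ℕ → ZFSet.{0}) → Prop} (h : Dfn P) :
    Dfn (fun v => ∃ w : ℕ → ZFSet.{0}, P (fun n => if n < m then w n else v (n - m))) := by
  induction m generalizing P with
  | zero =>
    refine h.congr fun v => ?_
    simp
  | succ m ih =>
    have h1 : Dfn (fun v => ∃ x, P (fun n => if n < m then v n else if n = m then x
        else v (n - 1))) := by
      refine Dfn.ex (Q := fun x v => P (fun n => if n < m then v n else if n = m then x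
        else v (n - 1))) ((h.rename (fun n => if n < m then n + 1 else if n = m then 0
        else n - 1 + 1)).congr fun v => ?_)
      have : (fun n => v (if n < m then n + 1 else if n = m then 0 else n - 1 + 1)) =
          (fun n => if n < m then (fun n => v (n + 1)) n else if n = m then v 0
            else (fun n => v (n + 1)) (n - 1)) := by
        funext n
        split_ifs <;> rfl
      rw [this]
    refine (ih h1).congr fun v => ?_
    constructor
    · rintro ⟨w, x, hw⟩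
      refine ⟨fun n => if n = m then x else w n, ?_⟩
      have : (fun n => if n < m then (fun n => if n < m then w n else v (n - m)) n
          else if n = m then x else (fun n => if n < m then w n else v (n - m)) (n - 1)) =
          (fun n => if n < m + 1 then (fun n => if n = m then x else w n) n
            else v (n - (m + 1))) := by
        funext n
        by_cases h1 : n < m
        · have h2 : n < m + 1 := by omega
          have h3 : ¬ n = m := by omega
          simp [h1, h2, h3]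
        · by_cases h2 : n = m
          · subst h2
            simp
          · have h3 : ¬ n < m + 1 := by omega
            have h4 : ¬ n - 1 < m := by omega
            have h5 : n - 1 - m = n - (m + 1) := by omega
            simp [h1, h2, h3, h4, h5]
      rw [this] at hw
      exact hw
    · rintro ⟨w, hw⟩
      refine ⟨w, w m, ?_⟩
      have : (fun n => if n < m then (fun n => if n < m then w n else v (n - m)) n
          else if n = m then w m else (fun n => if n < m then w n else v (n - m)) (n - 1)) =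
          (fun n => if n < m + 1 then w n else v (n - (m + 1))) := by
        funext n
        by_cases h1 : n < m
        · have h2 : n < m + 1 := by omega
          simp [h1, h2]
        · by_cases h2 : n = m
          · subst h2
            simp
          · have h3 : ¬ n < m + 1 := by omega
            have h4 : ¬ n - 1 < m := by omega
            have h5 : n - 1 - m = n - (m + 1) := by omega
            simp [h1, h2, h3, h4, h5]
      rw [this]
      exact hw

/-- finite conjunctions -/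
theorem Dfn.ball (m : ℕ) {P : ℕ → (ℕ → ZFSet.{0}) → Prop} (h : ∀ j < m, Dfn (P j)) :
    Dfn (fun v => ∀ j < m, P j v) := by
  induction m with
  | zero => exact (Dfn.const True).congr fun v => by simp
  | succ m ih =>
    refine ((ih fun j hj => h j (by omega)).and (h m (by omega))).congr fun v => ?_
    constructor
    · rintro ⟨h1, h2⟩ j hj
      rcases Nat.lt_succ_iff_lt_or_eq.1 hj with h3 | h3
      · exact h1 j h3
      · rw [h3]; exact h2
    · intro H
      exact ⟨fun j hj => H j (by omega), H m (by omega)⟩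

end Pool.Agent.Helper73.HODC
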