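import Pool.Agent.Helper73.HODC.Logic
import Pool.Agent.Helper73.HODC.Dfn

namespace Pool.Agent.Helper73.HODC

open Ordinal Cardinal ZFSet Order

/-! ## Module BF (file Best.lean) : the canonical cofinal functions (uses LG, DF) -/

/-! ### graphs -/

theorem bf_best_mem_graph {ρ : Ordinal.{0}} {f : Ordinal.{0} → Ordinal.{0}} {z : ZFSet.{0}} :
    z ∈ graph ρ f ↔ ∃ a < ρ, z = ZFSet.pair a.toZFSet (f a).toZFSet := by
  unfold graph
  rw [ZFSet.mem_range]
  constructor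
  · rintro ⟨⟨a, ha⟩, rfl⟩
    exact ⟨a, ha, rfl⟩
  · rintro ⟨a, ha, rfl⟩
    exact ⟨⟨a, ha⟩, rfl⟩

theorem bf_best_graph_congr {ρ : Ordinal.{0}} {f f' : Ordinal.{0} → Ordinal.{0}}
    (h : ∀ a < ρ, f a = f' a) : graph ρ f = graph ρ f' := by
  ext z
  rw [bf_best_mem_graph, bf_best_mem_graph]
  constructor
  · rintro ⟨a, ha, rfl⟩
    exact ⟨a, ha, by rw [h a ha]⟩
  · rintro ⟨a, ha, rfl⟩
    exact ⟨a, ha, by rw [h a ha]⟩

theorem bf_best_graph_le {ρ ρ' : Ordinal.{0}} {f f' : Ordinal.{0} → Ordinal.{0}}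
    (h : graph ρ f = graph ρ' f') : ρ ≤ ρ' := by
  by_contra hlt
  push Not at hlt
  have h1 : ZFSet.pair ρ'.toZFSet (f ρ').toZFSet ∈ graph ρ f := bf_best_mem_graph.2 ⟨ρ', hlt, rfl⟩
  rw [h] at h1
  obtain ⟨a, ha, hp⟩ := bf_best_mem_graph.1 h1
  have h2 := (ZFSet.pair_injective hp).1
  have h3 := toZFSet_injective h2
  rw [← h3] at ha
  exact lt_irrefl _ ha

theorem bf_best_graph_inj {ρ ρ' : Ordinal.{0}} {f f' : Ordinal.{0} → Ordinal.{0}}
    (h : graph ρ f = graph ρ' f') : ρ = ρ' ∧ ∀ a < ρ, f a = f' a := by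
  refine ⟨le_antisymm (bf_best_graph_le h) (bf_best_graph_le h.symm), ?_⟩
  intro a ha
  have h1 : ZFSet.pair a.toZFSet (f a).toZFSet ∈ graph ρ f := bf_best_mem_graph.2 ⟨a, ha, rfl⟩
  rw [h] at h1
  obtain ⟨b, hb, hp⟩ := bf_best_mem_graph.1 h1
  obtain ⟨h2, h3⟩ := ZFSet.pair_injective hp
  have h4 := toZFSet_injective h2
  have h5 := toZFSet_injective h3
  rw [h5, h4]

/-! ### lexicographic order -/

theorem bf_lexLe_antisymm {m : ℕ} {q q' : ℕ → Ordinal.{0}} (h : LexLe m q q') (h' : LexLe m q' q) :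
    ∀ j < m, q j = q' j := by
  intro j
  induction j using Nat.strong_induction_on with
  | _ j ih =>
    intro hj
    have h1 : ∀ i < j, q i = q' i := fun i hi => ih i hi (hi.trans hj)
    exact le_antisymm (h j hj h1) (h' j hj fun i hi => (h1 i hi).symm)

theorem bf_lexLe_congr {m : ℕ} {q q' r r' : ℕ → Ordinal.{0}} (h : ∀ i < m, q i = r i)
    (h' : ∀ i < m, q' i = r' i) (hl : LexLe m q q') : LexLe m r r' := by
  intro j hj hi
  rw [← h j hj, ← h' j hj]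
  apply hl j hj
  intro i hij
  rw [h i (hij.trans hj), h' i (hij.trans hj)]
  exact hi i hij

theorem bf_exists_lexLe (m : ℕ) (A : Set (ℕ → Ordinal.{0})) (hA : A.Nonempty) :
    ∃ q ∈ A, ∀ q' ∈ A, LexLe m q q' := by
  induction m with
  | zero =>
    obtain ⟨q, hq⟩ := hA
    exact ⟨q, hq, fun q' _ j hj => absurd hj (Nat.not_lt_zero j)⟩
  | succ m ih =>
    obtain ⟨q₀, hq₀, hmin⟩ := ih
    let B : Set (ℕ → Ordinal.{0}) := {q | q ∈ A ∧ ∀ i < m, q i = q₀ i}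
    have hB : ((fun q : ℕ → Ordinal.{0} => q m) '' B).Nonempty := ⟨_, q₀, ⟨hq₀, fun _ _ => rfl⟩, rfl⟩
    obtain ⟨q, hq, hqm⟩ := csInf_mem hB
    refine ⟨q, hq.1, ?_⟩
    intro q' hq' j hj hi
    rcases Nat.lt_succ_iff_lt_or_eq.1 hj with hjm | rfl
    · rw [hq.2 j hjm]
      exact hmin q' hq' j hjm fun i hij => by rw [← hq.2 i (hij.trans hjm)]; exact hi i hij
    · have h1 : q' ∈ B := ⟨hq', fun i hij => by rw [← hi i hij]; exact hq.2 i hij⟩
      have h2 : sInf ((fun q : ℕ → Ordinal.{0} => q j) '' B) ≤ q' j :=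
        csInf_le' ⟨q', h1, rfl⟩
      exact le_trans (le_of_eq hqm) h2

/-! ### congruence and uniqueness -/

theorem bf_par_congr {m : ℕ} {q q' : ℕ → Ordinal.{0}} (h : ∀ i < m + 1, q i = q' i) (k : ℕ) :
    par m q k = par m q' k := by
  unfold par
  split_ifs with hk
  · exact h (k + 1) (by omega)
  · rfl

theorem bf_singBy_congr {c : Fm × ℕ} {γ ρ : Ordinal.{0}} {f f' : Ordinal.{0} → Ordinal.{0}}
    {q q' : ℕ → Ordinal.{0}} (hf : ∀ a < ρ, f a = f' a) (hq : ∀ i < c.2 + 1, q i = q' i)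
    (h : SingBy c γ ρ f q) : SingBy c γ ρ f' q' := by
  obtain ⟨h1, h2, h3, h4, h5, h6⟩ := h
  have hp : ∀ k, par c.2 q k = par c.2 q' k := bf_par_congr hq
  have h0 : q 0 = q' 0 := hq 0 (by omega)
  have hg : graph ρ f = graph ρ f' := bf_best_graph_congr hf
  have hfun : (fun k => (par c.2 q k).toZFSet) = fun k => (par c.2 q' k).toZFSet := by
    funext k
    rw [hp]
  refine ⟨h1, fun ξ hξ => by rw [← hf ξ hξ]; exact h2 ξ hξ, ?_, ?_, ?_, ?_⟩
  · intro β hβ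
    obtain ⟨ξ, hξ, hb⟩ := h3 β hβ
    exact ⟨ξ, hξ, by rw [← hf ξ hξ]; exact hb⟩
  · intro k
    rw [← hp, ← h0]
    exact h4 k
  · rw [← hg, ← h0]
    exact h5
  · intro y hy
    rw [← h0] at hy ⊢
    rw [← hfun, ← hg]
    exact h6 y hy

theorem bf_singBy_unique {c : Fm × ℕ} {γ ρ ρ' : Ordinal.{0}} {f f' : Ordinal.{0} → Ordinal.{0}}
    {q q' : ℕ → Ordinal.{0}} (hq : ∀ i < c.2 + 1, q i = q' i)
    (h : SingBy c γ ρ f q) (h' : SingBy c γ ρ' f' q') : ρ = ρ' ∧ ∀ a < ρ, f a = f' a := by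
  have h1 := bf_singBy_congr (fun _ _ => rfl) hq h
  apply bf_best_graph_inj
  have h2 := (h1.2.2.2.2.2 (graph ρ f) h1.2.2.2.2.1).2 rfl
  exact (h'.2.2.2.2.2 (graph ρ f) h1.2.2.2.2.1).1 h2

theorem bf_best_congr {c : Fm × ℕ} {γ ρ : Ordinal.{0}} {f f' : Ordinal.{0} → Ordinal.{0}}
    (hf : ∀ a < ρ, f a = f' a) (h : Best c γ ρ f) : Best c γ ρ f' := by
  obtain ⟨q, h1, h2⟩ := h
  exact ⟨q, bf_singBy_congr hf (fun _ _ => rfl) h1, h2⟩

theorem bf_best_unique {c : Fm × ℕ} {γ ρ ρ' : Ordinal.{0}} {f f' : Ordinal.{0} → Ordinal.{0}}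
    (h : Best c γ ρ f) (h' : Best c γ ρ' f') : ρ = ρ' ∧ ∀ a < ρ, f a = f' a := by
  obtain ⟨q, h1, h2⟩ := h
  obtain ⟨q', h1', h2'⟩ := h'
  exact bf_singBy_unique (bf_lexLe_antisymm (h2 _ _ _ h1') (h2' _ _ _ h1)) h1 h1'

theorem bf_exists_best {c : Fm × ℕ} {γ ρ : Ordinal.{0}} {f : Ordinal.{0} → Ordinal.{0}}
    {q : ℕ → Ordinal.{0}} (h : SingBy c γ ρ f q) : HasB c γ := by
  obtain ⟨q₀, ⟨ρ₀, f₀, h₀⟩, hmin⟩ := bf_exists_lexLe (c.2 + 1)
    {q | ∃ ρ f, SingBy c γ ρ f q} ⟨q, ρ, f, h⟩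
  exact ⟨ρ₀, f₀, q₀, h₀, fun ρ' f' q' h' => hmin q' ⟨ρ', f', h'⟩⟩

theorem exists_hasB {γ : Ordinal.{0}} (h : HODSing γ) : ∃ c, HasB c γ := by
  obtain ⟨-, ρ, hρ, f, hf, hcof, hHOD⟩ := h
  obtain ⟨_, ⟨θ, φ, p, hp, hgθ, hdef⟩, -⟩ := hHOD
  obtain ⟨m, hm⟩ := exists_bd φ
  have h0 : 0 < θ := lt_of_le_of_lt zero_le (hp 0)
  refine ⟨(φ, m), bf_exists_best (ρ := ρ) (f := f)
    (q := fun n => Nat.casesOn n θ p) ⟨hρ, hf, hcof, ?_, hgθ, ?_⟩⟩
  · intro k
    unfold par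
    split_ifs
    · exact hp k
    · exact h0
  · intro y hy
    rw [← hdef y hy]
    apply hm
    intro n hn
    rcases n with _ | k
    · rfl
    · have hk : k < m := by omega
      show (par m (fun n => Nat.casesOn n θ p) k).toZFSet = (p k).toZFSet
      unfold par
      rw [if_pos hk]

/-! ### the chosen function -/

theorem bf_rho_best {c : Fm × ℕ} {γ : Ordinal.{0}} (h : HasB c γ) : ∃ f, Best c γ (rho c γ) f ∧
    ∀ ξ < rho c γ, kk c γ ξ = f ξ := by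
  have h1 : rho c γ = h.choose := by
    unfold rho
    rw [dif_pos h]
  refine ⟨h.choose_spec.choose, ?_, ?_⟩
  · rw [h1]
    exact h.choose_spec.choose_spec
  · intro ξ hξ
    unfold kk
    rw [dif_pos h, if_pos hξ]

theorem rho_lt {c : Fm × ℕ} {γ : Ordinal.{0}} (h : HasB c γ) : rho c γ < γ := by
  obtain ⟨f, ⟨q, hq, -⟩, -⟩ := bf_rho_best h
  exact hq.1

theorem kk_lt {c : Fm × ℕ} {γ ξ : Ordinal.{0}} (h : HasB c γ) (hξ : ξ < rho c γ) :
    kk c γ ξ < γ := by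
  obtain ⟨f, ⟨q, hq, -⟩, hk⟩ := bf_rho_best h
  rw [hk ξ hξ]
  exact hq.2.1 ξ hξ

theorem kk_cof {c : Fm × ℕ} {γ β : Ordinal.{0}} (h : HasB c γ) (hβ : β < γ) :
    ∃ ξ < rho c γ, β ≤ kk c γ ξ := by
  obtain ⟨f, ⟨q, hq, -⟩, hk⟩ := bf_rho_best h
  obtain ⟨ξ, hξ, hb⟩ := hq.2.2.1 β hβ
  exact ⟨ξ, hξ, by rw [hk ξ hξ]; exact hb⟩

/-! ### definability -/

theorem Dfn.bf_congr {P Q : (ℕ → ZFSet.{0}) → Prop} (h : Dfn P) (hPQ : ∀ v, P v ↔ Q v) : Dfn Q := by
  obtain ⟨φ, hφ⟩ := h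
  exact ⟨φ, fun v => (hφ v).trans (hPQ v)⟩

theorem bf_dfn_rank_zero (i : ℕ) : Dfn (fun v => (v i).rank = 0) := by
  refine Dfn.bf_congr (P := fun v => ∀ a, ¬ a < (v i).rank) ?_ ?_
  · exact Dfn.allO (Q := fun a v => ¬ a < (v i).rank) (dfn_rank_lt 0 (i + 1)).not
  · intro v
    constructor
    · intro h
      by_contra h0
      exact h 0 (pos_iff_ne_zero.2 h0)
    · intro h a
      rw [h]
      exact not_lt_zero

theorem bf_dfn_fn_lt (i j k : ℕ) : Dfn (fun v => fn (v i) (v j).rank < (v k).rank) := by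
  refine Dfn.bf_congr (P := fun v => ∃ b, fn (v i) (v j).rank = b ∧ b < (v k).rank) ?_ ?_
  · exact Dfn.exO (Q := fun b v => fn (v i) (v j).rank = b ∧ b < (v k).rank)
      ((dfn_fn (i + 1) (j + 1) 0).and (dfn_rank_lt 0 (k + 1)))
  · intro v
    constructor
    · rintro ⟨b, rfl, h⟩
      exact h
    · intro h
      exact ⟨_, rfl, h⟩

theorem bf_dfn_le_fn (i j k : ℕ) : Dfn (fun v => (v k).rank ≤ fn (v i) (v j).rank) :=
  (bf_dfn_fn_lt i j k).not.bf_congr fun _ => not_lt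

theorem bf_dfn_graph (i j y : ℕ) : Dfn (fun v => v y = graph (v i).rank (fn (v j))) := by
  refine Dfn.bf_congr (P := fun v => ∀ z, z ∈ v y ↔ ∃ u, ∃ w, z = ZFSet.pair u w ∧
    u = u.rank.toZFSet ∧ w = w.rank.toZFSet ∧ u.rank < (v i).rank ∧
      fn (v j) u.rank = w.rank) ?_ ?_
  · refine Dfn.all (Q := fun z v => z ∈ v y ↔ ∃ u, ∃ w, z = ZFSet.pair u w ∧
      u = u.rank.toZFSet ∧ w = w.rank.toZFSet ∧ u.rank < (v i).rank ∧
        fn (v j) u.rank = w.rank) ?_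
    refine (dfn_mem 0 (y + 1)).iff ?_
    refine Dfn.ex (Q := fun u v => ∃ w, v 0 = ZFSet.pair u w ∧
      u = u.rank.toZFSet ∧ w = w.rank.toZFSet ∧ u.rank < (v (i + 1)).rank ∧
        fn (v (j + 1)) u.rank = w.rank) ?_
    refine Dfn.ex (Q := fun w v => v 1 = ZFSet.pair (v 0) w ∧
      v 0 = (v 0).rank.toZFSet ∧ w = w.rank.toZFSet ∧ (v 0).rank < (v (i + 2)).rank ∧
        fn (v (j + 2)) (v 0).rank = w.rank) ?_
    exact (dfn_pair 2 1 0).and ((dfn_isOrd 1).and ((dfn_isOrd 0).and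
      ((dfn_rank_lt 1 (i + 3)).and (dfn_fn (j + 3) 1 0))))
  · intro v
    rw [ZFSet.ext_iff]
    apply forall_congr'
    intro z
    apply iff_congr Iff.rfl
    rw [bf_best_mem_graph]
    constructor
    · rintro ⟨u, w, rfl, hu, hw, hlt, hf⟩
      refine ⟨u.rank, hlt, ?_⟩
      rw [hf, ← hu, ← hw]
    · rintro ⟨a, ha, rfl⟩
      refine ⟨_, _, rfl, ?_⟩
      rw [rank_toZFSet, rank_toZFSet]
      exact ⟨rfl, rfl, ha, rfl⟩

/-- a block of new variables followed by an assignment -/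
def bfApp (m : ℕ) (w v : ℕ → ZFSet.{0}) (n : ℕ) : ZFSet.{0} := if n < m then w n else v (n - m)

theorem bf_app_lt {m : ℕ} (w v : ℕ → ZFSet.{0}) {n : ℕ} (h : n < m) : bfApp m w v n = w n := if_pos h

theorem bf_app_ge (m : ℕ) (w v : ℕ → ZFSet.{0}) (n : ℕ) : bfApp m w v (n + m) = v n := by
  unfold bfApp
  rw [if_neg (by omega)]
  congr 1
  omega

theorem bf_dfn_exApp (m : ℕ) {P : (ℕ → ZFSet.{0}) → Prop} (h : Dfn P) :
    Dfn (fun v => ∃ w : ℕ → ZFSet.{0}, P (bfApp m w v)) := Dfn.exBlock m h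

/-- satisfaction with the parameters given by ordinals -/
theorem bf_dfn_satPar (φ : Fm) (m : ℕ) (y : ℕ) (s : ℕ → ℕ) :
    Dfn (fun v => Sat {z | z ∈ V_ (v (s 0)).rank} φ
      (cons (v y) (fun k => (par m (fun n => (v (s n)).rank) k).toZFSet))) := by
  let t : ℕ → ℕ := fun n => Nat.casesOn n (y + (m + 1)) (fun k => if k < m then k else m)
  let P : (ℕ → ZFSet.{0}) → Prop := fun v =>
    (∀ k < m, v k = (v k).rank.toZFSet ∧ (v k).rank = (v (s (k + 1) + (m + 1))).rank) ∧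
      (v m = (v m).rank.toZFSet ∧ (v m).rank = 0) ∧
      Sat {z | z ∈ V_ (v (s 0 + (m + 1))).rank} φ (fun n => v (t n))
  have hP : Dfn P := by
    refine Dfn.and (Dfn.ball m fun k _ => (dfn_isOrd k).and (dfn_rank_eq _ _))
      (Dfn.and ((dfn_isOrd m).and (bf_dfn_rank_zero m)) (dfn_satV φ _ t))
  refine (bf_dfn_exApp (m + 1) hP).bf_congr ?_
  intro v
  constructor
  · rintro ⟨w, h1, h2, h3⟩
    have hw : ∀ k, bfApp (m + 1) w v (if k < m then k else m) =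
        (par m (fun n => (v (s n)).rank) k).toZFSet := by
      intro k
      unfold par
      by_cases hk : k < m
      · rw [if_pos hk, if_pos hk]
        obtain ⟨h4, h5⟩ := h1 k hk
        rw [bf_app_ge] at h5
        rw [h4, h5]
      · rw [if_neg hk, if_neg hk]
        obtain ⟨h4, h5⟩ := h2
        rw [h4, h5]
    have h6 : (fun n => bfApp (m + 1) w v (t n)) =
        cons (v y) (fun k => (par m (fun n => (v (s n)).rank) k).toZFSet) := by
      funext n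
      rcases n with _ | k
      · exact bf_app_ge (m + 1) w v y
      · exact hw k
    rw [h6, bf_app_ge] at h3
    exact h3
  · intro h
    refine ⟨fun k => (par m (fun n => (v (s n)).rank) k).toZFSet, ?_, ?_, ?_⟩
    · intro k hk
      rw [bf_app_lt _ _ (by omega : k < m + 1), bf_app_ge, rank_toZFSet]
      refine ⟨rfl, ?_⟩
      unfold par
      rw [if_pos hk]
    · rw [bf_app_lt _ _ (by omega : m < m + 1), rank_toZFSet]
      refine ⟨rfl, ?_⟩
      unfold par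
      rw [if_neg (lt_irrefl m)]
    · have h6 : (fun n => bfApp (m + 1)
          (fun k => (par m (fun n => (v (s n)).rank) k).toZFSet) v (t n)) =
          cons (v y) (fun k => (par m (fun n => (v (s n)).rank) k).toZFSet) := by
        funext n
        rcases n with _ | k
        · exact bf_app_ge (m + 1) _ v y
        · by_cases hk : k < m
          · have h7 : t (k + 1) = k := if_pos hk
            rw [h7, bf_app_lt _ _ (by omega : k < m + 1)]
            rfl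
          · have h7 : t (k + 1) = m := if_neg hk
            rw [h7, bf_app_lt _ _ (by omega : m < m + 1)]
            show (par m (fun n => (v (s n)).rank) m).toZFSet =
              (par m (fun n => (v (s n)).rank) k).toZFSet
            unfold par
            rw [if_neg hk, if_neg (lt_irrefl m)]
      rw [h6, bf_app_ge]
      exact h

theorem bf_dfn_singBy (c : Fm × ℕ) (i j k : ℕ) (s : ℕ → ℕ) :
    Dfn (fun v => SingBy c (v i).rank (v j).rank (fn (v k)) (fun n => (v (s n)).rank)) := by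
  refine Dfn.and (dfn_rank_lt j i) (Dfn.and ?_ (Dfn.and ?_ (Dfn.and ?_ ?_)))
  · refine Dfn.allO (Q := fun ξ v => ξ < (v j).rank → fn (v k) ξ < (v i).rank) ?_
    exact (dfn_rank_lt 0 (j + 1)).imp (bf_dfn_fn_lt (k + 1) 0 (i + 1))
  · refine (Dfn.allO (Q := fun β v => β < (v i).rank → ∃ ξ, ξ < (v j).rank ∧ β ≤ fn (v k) ξ)
      ?_).bf_congr ?_
    · refine (dfn_rank_lt 0 (i + 1)).imp ?_
      refine Dfn.exO (Q := fun ξ v => ξ < (v (j + 1)).rank ∧ (v 0).rank ≤ fn (v (k + 1)) ξ) ?_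
      exact (dfn_rank_lt 0 (j + 2)).and (bf_dfn_le_fn (k + 2) 0 1)
    · intro v
      exact Iff.rfl
  · refine Dfn.bf_congr (P := fun v => (∀ k < c.2, (v (s (k + 1))).rank < (v (s 0)).rank) ∧
      ¬ (v (s 0)).rank = 0) ?_ ?_
    · exact Dfn.and (Dfn.ball c.2 fun k _ => dfn_rank_lt _ _) (bf_dfn_rank_zero (s 0)).not
    · intro v
      constructor
      · rintro ⟨h1, h2⟩ k
        unfold par
        split_ifs with hk
        · exact h1 k hk
        · exact pos_iff_ne_zero.2 h2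
      · intro h
        constructor
        · intro k hk
          have h1 := h k
          unfold par at h1
          rw [if_pos hk] at h1
          exact h1
        · have h1 := h c.2
          unfold par at h1
          rw [if_neg (lt_irrefl _)] at h1
          exact h1.ne'
  · refine Dfn.bf_congr (P := fun v => ∃ g, g = graph (v j).rank (fn (v k)) ∧
      g.rank < (v (s 0)).rank ∧ ∀ y, y.rank < (v (s 0)).rank →
        (Sat {z | z ∈ V_ (v (s 0)).rank} c.1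
          (cons y (fun k => (par c.2 (fun n => (v (s n)).rank) k).toZFSet)) ↔ y = g)) ?_ ?_
    · refine Dfn.ex (Q := fun g v => g = graph (v j).rank (fn (v k)) ∧
        g.rank < (v (s 0)).rank ∧ ∀ y, y.rank < (v (s 0)).rank →
          (Sat {z | z ∈ V_ (v (s 0)).rank} c.1
            (cons y (fun k => (par c.2 (fun n => (v (s n)).rank) k).toZFSet)) ↔ y = g)) ?_
      refine Dfn.and (bf_dfn_graph (j + 1) (k + 1) 0) (Dfn.and (dfn_rank_lt 0 (s 0 + 1)) ?_)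
      refine Dfn.all (Q := fun y v => y.rank < (v (s 0 + 1)).rank →
          (Sat {z | z ∈ V_ (v (s 0 + 1)).rank} c.1
            (cons y (fun k => (par c.2 (fun n => (v (s n + 1)).rank) k).toZFSet)) ↔ y = v 0)) ?_
      refine Dfn.imp (dfn_rank_lt 0 (s 0 + 2)) (Dfn.iff ?_ (dfn_eq 0 1))
      exact bf_dfn_satPar c.1 c.2 0 (fun n => s n + 2)
    · intro v
      constructor
      · rintro ⟨g, rfl, h1, h2⟩
        exact ⟨mem_vonNeumann.2 h1, fun y hy => h2 y (mem_vonNeumann.1 hy)⟩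
      · rintro ⟨h1, h2⟩
        exact ⟨_, rfl, mem_vonNeumann.1 h1, fun y hy => h2 y (mem_vonNeumann.2 hy)⟩

theorem bf_dfn_lexLe (m : ℕ) (s t : ℕ → ℕ) :
    Dfn (fun v => LexLe m (fun n => (v (s n)).rank) (fun n => (v (t n)).rank)) := by
  refine Dfn.ball m fun j _ => Dfn.imp (Dfn.ball j fun i _ => dfn_rank_eq _ _) (dfn_rank_le _ _)

theorem bf_dfn_bad (c : Fm × ℕ) (a b d : ℕ) (s : ℕ → ℕ) :
    Dfn (fun v => ∃ q' : ℕ → Ordinal.{0}, SingBy c (v a).rank (v b).rank (fn (v d)) q' ∧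
      ¬ LexLe (c.2 + 1) (fun n => (v (s n)).rank) q') := by
  refine (bf_dfn_exApp (c.2 + 1) (P := fun u => SingBy c (u (a + (c.2 + 1))).rank
    (u (b + (c.2 + 1))).rank (fn (u (d + (c.2 + 1)))) (fun n => (u n).rank) ∧
      ¬ LexLe (c.2 + 1) (fun n => (u (s n + (c.2 + 1))).rank) (fun n => (u n).rank))
    ((bf_dfn_singBy c _ _ _ (fun n => n)).and
      (bf_dfn_lexLe (c.2 + 1) (fun n => s n + (c.2 + 1)) (fun n => n)).not)).bf_congr ?_
  intro v
  constructor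
  · rintro ⟨w, h1, h2⟩
    simp only [bf_app_ge] at h1 h2
    exact ⟨_, h1, h2⟩
  · rintro ⟨q', h1, h2⟩
    refine ⟨fun n => (q' n).toZFSet, ?_⟩
    simp only [bf_app_ge]
    have h3 : ∀ n < c.2 + 1, q' n = (bfApp (c.2 + 1) (fun n => (q' n).toZFSet) v n).rank := by
      intro n hn
      rw [bf_app_lt _ _ hn, rank_toZFSet]
    refine ⟨bf_singBy_congr (fun _ _ => rfl) h3 h1, fun h4 => h2 ?_⟩
    exact bf_lexLe_congr (fun _ _ => rfl) (fun n hn => (h3 n hn).symm) h4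

theorem bf_dfn_min (c : Fm × ℕ) (a : ℕ) (s : ℕ → ℕ) :
    Dfn (fun v => ∀ (ρ' : Ordinal.{0}) (f' : Ordinal.{0} → Ordinal.{0}) (q' : ℕ → Ordinal.{0}),
      SingBy c (v a).rank ρ' f' q' → LexLe (c.2 + 1) (fun n => (v (s n)).rank) q') := by
  refine (Dfn.allO (Q := fun ρ v => ∀ F, ¬ ∃ q' : ℕ → Ordinal.{0},
    SingBy c (v a).rank ρ (fn F) q' ∧ ¬ LexLe (c.2 + 1) (fun n => (v (s n)).rank) q') ?_).bf_congr ?_
  · refine Dfn.all (Q := fun F v => ¬ ∃ q' : ℕ → Ordinal.{0},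
      SingBy c (v (a + 1)).rank (v 0).rank (fn F) q' ∧
        ¬ LexLe (c.2 + 1) (fun n => (v (s n + 1)).rank) q') ?_
    exact (bf_dfn_bad c (a + 2) 1 0 (fun n => s n + 2)).not
  · intro v
    constructor
    · intro h ρ' f' q' h1
      by_contra h2
      obtain ⟨F, hF, -⟩ := exists_fn f' ρ'
      exact h ρ' F ⟨q', bf_singBy_congr (fun a ha => (hF a ha).symm) (fun _ _ => rfl) h1, h2⟩
    · rintro h ρ F ⟨q', h1, h2⟩
      exact h2 (h _ _ _ h1)

theorem bf_dfn_best (c : Fm × ℕ) (i j k : ℕ) :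
    Dfn (fun v => Best c (v i).rank (v j).rank (fn (v k))) := by
  refine (bf_dfn_exApp (c.2 + 1) (P := fun u => SingBy c (u (i + (c.2 + 1))).rank
    (u (j + (c.2 + 1))).rank (fn (u (k + (c.2 + 1)))) (fun n => (u n).rank) ∧
      ∀ (ρ' : Ordinal.{0}) (f' : Ordinal.{0} → Ordinal.{0}) (q' : ℕ → Ordinal.{0}),
      SingBy c (u (i + (c.2 + 1))).rank ρ' f' q' →
        LexLe (c.2 + 1) (fun n => (u n).rank) q')
    ((bf_dfn_singBy c _ _ _ (fun n => n)).and (bf_dfn_min c _ (fun n => n)))).bf_congr ?_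
  intro v
  constructor
  · rintro ⟨w, h1, h2⟩
    simp only [bf_app_ge] at h1 h2
    exact ⟨_, h1, h2⟩
  · rintro ⟨q, h1, h2⟩
    refine ⟨fun n => (q n).toZFSet, ?_⟩
    simp only [bf_app_ge]
    have h3 : ∀ n < c.2 + 1, q n = (bfApp (c.2 + 1) (fun n => (q n).toZFSet) v n).rank := by
      intro n hn
      rw [bf_app_lt _ _ hn, rank_toZFSet]
    refine ⟨bf_singBy_congr (fun _ _ => rfl) h3 h1, fun ρ' f' q' h4 => ?_⟩
    exact bf_lexLe_congr h3 (fun _ _ => rfl) (h2 ρ' f' q' h4)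

theorem bf_hasB_iff (c : Fm × ℕ) (γ : Ordinal.{0}) : HasB c γ ↔ ∃ ρ, ∃ F, Best c γ ρ (fn F) := by
  constructor
  · rintro ⟨ρ, f, h⟩
    obtain ⟨F, hF, -⟩ := exists_fn f ρ
    exact ⟨ρ, F, bf_best_congr (fun a ha => (hF a ha).symm) h⟩
  · rintro ⟨ρ, F, h⟩
    exact ⟨ρ, _, h⟩

theorem dfn_hasB (c : Fm × ℕ) (i : ℕ) : Dfn (fun v => HasB c (v i).rank) := by
  refine (Dfn.exO (Q := fun ρ v => ∃ F, Best c (v i).rank ρ (fn F)) ?_).bf_congr
    fun v => (bf_hasB_iff c _).symm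
  exact Dfn.ex (Q := fun F v => Best c (v (i + 1)).rank (v 0).rank (fn F)) (bf_dfn_best c (i + 2) 1 0)

theorem dfn_rho (c : Fm × ℕ) (i j : ℕ) : Dfn (fun v => rho c (v i).rank = (v j).rank) := by
  refine (((dfn_hasB c i).and (Dfn.ex (Q := fun F v => Best c (v i).rank (v j).rank (fn F))
    (bf_dfn_best c (i + 1) (j + 1) 0))).or ((dfn_hasB c i).not.and (bf_dfn_rank_zero j))).bf_congr ?_
  intro v
  by_cases h : HasB c (v i).rank
  · obtain ⟨f, hf, -⟩ := bf_rho_best h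
    constructor
    · rintro (⟨-, F, hF⟩ | ⟨h', -⟩)
      · exact (bf_best_unique hf hF).1
      · exact absurd h h'
    · intro he
      left
      refine ⟨h, ?_⟩
      obtain ⟨F, hF, -⟩ := exists_fn f (rho c (v i).rank)
      refine ⟨F, ?_⟩
      rw [← he]
      exact bf_best_congr (fun a ha => (hF a ha).symm) hf
  · have h0 : rho c (v i).rank = 0 := by
      unfold rho
      rw [dif_neg h]
    rw [h0]
    constructor
    · rintro (⟨h', -⟩ | ⟨-, h'⟩)
      · exact absurd h' h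
      · exact h'.symm
    · intro he
      exact Or.inr ⟨h, he.symm⟩

theorem dfn_kk (c : Fm × ℕ) (i j k : ℕ) :
    Dfn (fun v => kk c (v i).rank (v j).rank = (v k).rank) := by
  have h1 : Dfn (fun v => ∃ ρ, ∃ F, Best c (v i).rank ρ (fn F) ∧ (v j).rank < ρ ∧
      fn F (v j).rank = (v k).rank) := by
    refine Dfn.exO (Q := fun ρ v => ∃ F, Best c (v i).rank ρ (fn F) ∧ (v j).rank < ρ ∧
      fn F (v j).rank = (v k).rank) ?_
    refine Dfn.ex (Q := fun F v => Best c (v (i + 1)).rank (v 0).rank (fn F) ∧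
      (v (j + 1)).rank < (v 0).rank ∧ fn F (v (j + 1)).rank = (v (k + 1)).rank) ?_
    exact (bf_dfn_best c (i + 2) 1 0).and ((dfn_rank_lt (j + 2) 1).and (dfn_fn 0 (j + 2) (k + 2)))
  have h2 : Dfn (fun v => ∃ ρ, ∃ F, Best c (v i).rank ρ (fn F) ∧ (v j).rank < ρ) := by
    refine Dfn.exO (Q := fun ρ v => ∃ F, Best c (v i).rank ρ (fn F) ∧ (v j).rank < ρ) ?_
    refine Dfn.ex (Q := fun F v => Best c (v (i + 1)).rank (v 0).rank (fn F) ∧
      (v (j + 1)).rank < (v 0).rank) ?_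
    exact (bf_dfn_best c (i + 2) 1 0).and (dfn_rank_lt (j + 2) 1)
  refine (h1.or (h2.not.and (bf_dfn_rank_zero k))).bf_congr ?_
  intro v
  by_cases h : HasB c (v i).rank ∧ (v j).rank < rho c (v i).rank
  · obtain ⟨h, hlt⟩ := h
    obtain ⟨f, hf, hk⟩ := bf_rho_best h
    constructor
    · rintro (⟨ρ, F, hF, hlt', he⟩ | ⟨h', -⟩)
      · rw [hk _ hlt, ← he]
        exact (bf_best_unique hf hF).2 _ hlt
      · exfalso
        apply h'
        obtain ⟨F, hF, -⟩ := exists_fn f (rho c (v i).rank)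
        exact ⟨_, F, bf_best_congr (fun a ha => (hF a ha).symm) hf, hlt⟩
    · intro he
      left
      obtain ⟨F, hF, -⟩ := exists_fn f (rho c (v i).rank)
      refine ⟨_, F, bf_best_congr (fun a ha => (hF a ha).symm) hf, hlt, ?_⟩
      rw [hF _ hlt, ← hk _ hlt, he]
  · have h0 : kk c (v i).rank (v j).rank = 0 := by
      unfold kk
      by_cases hB : HasB c (v i).rank
      · rw [dif_pos hB, if_neg fun hlt => h ⟨hB, hlt⟩]
      · rw [dif_neg hB]
    have h3 : ¬ ∃ ρ, ∃ F, Best c (v i).rank ρ (fn F) ∧ (v j).rank < ρ := by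
      rintro ⟨ρ, F, hF, hlt⟩
      have hB : HasB c (v i).rank := ⟨_, _, hF⟩
      obtain ⟨f, hf, -⟩ := bf_rho_best hB
      refine h ⟨hB, ?_⟩
      rw [(bf_best_unique hf hF).1]
      exact hlt
    rw [h0]
    constructor
    · rintro (⟨ρ, F, hF, hlt', -⟩ | ⟨-, h'⟩)
      · exact absurd ⟨ρ, F, hF, hlt'⟩ h3
      · exact h'.symm
    · intro he
      exact Or.inr ⟨h3, he.symm⟩

end Pool.Agent.Helper73.HODC
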