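import Pool.Agent.Helper73.HODC.Defs2

namespace Pool.Agent.Helper73.HODC

open Ordinal Cardinal ZFSet Order

/-! ## Module CL (file Clubs.lean) : club and stationary sets of ordinals -/

theorem UnbIn.isSuccLimit {C : Set Ordinal.{0}} {a : Ordinal.{0}} (h : UnbIn C a) (ha : a ≠ 0) :
    IsSuccLimit a := by
  rw [Ordinal.isSuccLimit_iff]
  refine ⟨ha, ?_⟩
  rw [isSuccPrelimit_iff_succ_lt]
  intro b hb
  obtain ⟨x, _, hx, hxa⟩ := h b hb
  exact (Order.succ_le_of_lt hx).trans_lt hxa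

/-- Limits of iterations. -/
theorem exists_lim {κ : Ordinal.{0}} (hκ : ℵ₀ < κ.cof) (F : Ordinal.{0} → Ordinal.{0})
    (hF : ∀ x < κ, x < F x ∧ F x < κ) (a : Ordinal.{0}) (ha : a < κ) :
    ∃ s, a < s ∧ s < κ ∧ s.cof = ℵ₀ ∧ ∀ b < s, ∃ x, b < x ∧ x < κ ∧ F x < s := by
  let u : ℕ → Ordinal.{0} := fun n => F^[n] a
  have hu : ∀ n, u n < κ := by
    intro n
    induction n with
    | zero => exact ha
    | succ n ih =>
      have : u (n + 1) = F (u n) := Function.iterate_succ_apply' F n a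
      rw [this]
      exact (hF _ ih).2
  have hsucc : ∀ n, u (n + 1) = F (u n) := fun n => Function.iterate_succ_apply' F n a
  have hmono : StrictMono u := by
    apply strictMono_nat_of_lt_succ
    intro n
    rw [hsucc]
    exact (hF _ (hu n)).1
  have hle : ∀ n, u n ≤ ⨆ n, u n := fun n => Ordinal.le_iSup u n
  have hlt : ∀ n, u n < ⨆ n, u n := fun n => (hmono (Nat.lt_succ_self n)).trans_le (hle _)
  refine ⟨⨆ n, u n, hlt 0, ?_, ?_, ?_⟩
  · apply iSup_lt_of_lt_cof _ hu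
    rw [Cardinal.mk_nat]
    exact hκ
  · rw [cof_iSup hmono, Order.cof_nat]
  · intro b hb
    obtain ⟨n, hn⟩ := Ordinal.lt_iSup_iff.mp hb
    refine ⟨u n, hn, hu n, ?_⟩
    rw [← hsucc]
    exact hlt _

theorem isSuccLimit_of_cof {κ : Ordinal.{0}} (hκ : ℵ₀ < κ.cof) : IsSuccLimit κ :=
  one_lt_cof_iff.mp (one_lt_aleph0.trans hκ)

theorem pos_of_cof {κ : Ordinal.{0}} (hκ : ℵ₀ < κ.cof) : 0 < κ :=
  cof_pos.mp (lt_of_le_of_lt zero_le hκ)

theorem Club.iInter' {ι : Type} {κ : Ordinal.{0}} (hκ : ℵ₀ < κ.cof) (hι : #ι < κ.cof)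
    {C : ι → Set Ordinal.{0}} (h : ∀ i, Club (C i) κ) : Club (⋂ i, C i) κ := by
  refine ⟨?_, ?_⟩
  · intro a ha
    have hch : ∀ i, ∀ x : Ordinal.{0}, ∃ y, x < κ → y ∈ C i ∧ x < y ∧ y < κ := by
      intro i x
      by_cases hx : x < κ
      · obtain ⟨y, hy1, hy2, hy3⟩ := (h i).1 x hx
        exact ⟨y, fun _ => ⟨hy1, hy2, hy3⟩⟩
      · exact ⟨0, fun h' => absurd h' hx⟩
    choose f hf using hch
    have hlim := isSuccLimit_of_cof hκ
    obtain ⟨s, has, hsκ, hcof, hs⟩ := exists_lim hκ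
      (fun x => max (⨆ i, f i x) (Order.succ x)) (by
        intro x hx
        refine ⟨lt_of_lt_of_le (Order.lt_succ x) (le_max_right _ _), ?_⟩
        apply max_lt
        · exact iSup_lt_of_lt_cof hι (fun i => (hf i x hx).2.2)
        · exact hlim.succ_lt hx) a ha
    refine ⟨s, ?_, has, hsκ⟩
    rw [Set.mem_iInter]
    intro i
    apply (h i).2 s hsκ (ne_of_gt (lt_of_le_of_lt zero_le has))
    intro b hb
    obtain ⟨x, hbx, hxκ, hxs⟩ := hs b hb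
    obtain ⟨h1, h2, h3⟩ := hf i x hxκ
    refine ⟨f i x, h1, hbx.trans h2, ?_⟩
    exact lt_of_le_of_lt ((Ordinal.le_iSup (fun i => f i x) i).trans (le_max_left _ _)) hxs
  · intro a ha ha0 hu
    rw [Set.mem_iInter]
    intro i
    apply (h i).2 a ha ha0
    intro b hb
    obtain ⟨x, hx, h1, h2⟩ := hu b hb
    exact ⟨x, Set.mem_iInter.mp hx i, h1, h2⟩

theorem Club.iInter {ι : Type} [Countable ι] {κ : Ordinal.{0}} (hκ : ℵ₀ < κ.cof)
    {C : ι → Set Ordinal.{0}} (h : ∀ i, Club (C i) κ) : Club (⋂ i, C i) κ :=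
  Club.iInter' hκ (lt_of_le_of_lt (Cardinal.mk_le_aleph0) hκ) h

theorem Club.inter {κ : Ordinal.{0}} (hκ : ℵ₀ < κ.cof) {C D : Set Ordinal.{0}} (h : Club C κ)
    (h' : Club D κ) : Club (C ∩ D) κ := by
  have := Club.iInter hκ (C := fun b : Bool => cond b C D) (by
    intro b
    cases b
    · exact h'
    · exact h)
  rw [Set.inter_eq_iInter]
  exact this

theorem Club.biInter {c : Cardinal.{0}} (hc : c.IsRegular) (hc' : ℵ₀ < c) {ρ : Ordinal.{0}}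
    (hρ : ρ < c.ord) {C : Ordinal.{0} → Set Ordinal.{0}} (h : ∀ ξ < ρ, Club (C ξ) c.ord) :
    Club {a | ∀ ξ < ρ, a ∈ C ξ} c.ord := by
  have hcof : c.ord.cof = c := hc.cof_ord
  have h1 := Club.iInter' (ι := ρ.ToType) (κ := c.ord) (by rw [hcof]; exact hc')
    (by rw [hcof, Cardinal.mk_toType]; exact Cardinal.lt_ord.mp hρ)
    (C := fun i => C (Ordinal.ToType.mk.symm i).1) (fun i => h _ (Ordinal.ToType.mk.symm i).2)
  convert h1 using 1
  ext a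
  rw [Set.mem_iInter]
  constructor
  · intro ha i
    exact ha _ (Ordinal.ToType.mk.symm i).2
  · intro ha ξ hξ
    have := ha (Ordinal.ToType.mk ⟨ξ, hξ⟩)
    rw [OrderIso.symm_apply_apply] at this
    exact this

theorem Club.diag {c : Cardinal.{0}} (hc : c.IsRegular) (hc' : ℵ₀ < c)
    {C : Ordinal.{0} → Set Ordinal.{0}} (h : ∀ ξ < c.ord, Club (C ξ) c.ord) :
    Club {a | ∀ ξ < a, a ∈ C ξ} c.ord := by
  have hcof : c.ord.cof = c := hc.cof_ord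
  have hκ : ℵ₀ < c.ord.cof := by rw [hcof]; exact hc'
  refine ⟨?_, ?_⟩
  · intro a ha
    have hch : ∀ x : Ordinal.{0}, ∃ y, x < c.ord → (∀ ξ < x, y ∈ C ξ) ∧ x < y ∧ y < c.ord := by
      intro x
      by_cases hx : x < c.ord
      · obtain ⟨y, hy1, hy2, hy3⟩ :=
          (Club.biInter hc hc' hx (C := C) (fun ξ hξ => h ξ (hξ.trans hx))).1 x hx
        exact ⟨y, fun _ => ⟨hy1, hy2, hy3⟩⟩
      · exact ⟨0, fun h' => absurd h' hx⟩
    choose f hf using hch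
    obtain ⟨s, has, hsκ, -, hs⟩ := exists_lim hκ f (fun x hx => (hf x hx).2) a ha
    refine ⟨s, ?_, has, hsκ⟩
    intro ξ hξ
    apply (h ξ (hξ.trans hsκ)).2 s hsκ (ne_of_gt (lt_of_le_of_lt zero_le has))
    intro b hb
    obtain ⟨x, hbx, hxc, hxs⟩ := hs (max b ξ) (max_lt hb hξ)
    obtain ⟨h1, h2, h3⟩ := hf x hxc
    exact ⟨f x, h1 ξ (lt_of_le_of_lt (le_max_right _ _) hbx),
      lt_trans (lt_of_le_of_lt (le_max_left _ _) hbx) h2, hxs⟩
  · intro a ha ha0 hu ξ hξ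
    apply (h ξ (hξ.trans ha)).2 a ha ha0
    intro b hb
    obtain ⟨x, hx, h1, h2⟩ := hu (max b ξ) (max_lt hb hξ)
    exact ⟨x, hx ξ (lt_of_le_of_lt (le_max_right _ _) h1), lt_of_le_of_lt (le_max_left _ _) h1, h2⟩

theorem club_univ {κ : Ordinal.{0}} (hκ : IsSuccLimit κ) : Club Set.univ κ :=
  ⟨fun a ha => ⟨Order.succ a, trivial, Order.lt_succ a, hκ.succ_lt ha⟩, fun _ _ _ _ => trivial⟩

theorem club_Ioi {κ b : Ordinal.{0}} (hκ : IsSuccLimit κ) (hb : b < κ) :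
    Club {a | b < a} κ := by
  refine ⟨fun a ha => ⟨Order.succ (max a b), ?_, ?_, hκ.succ_lt (max_lt ha hb)⟩, ?_⟩
  · exact lt_of_le_of_lt (le_max_right a b) (Order.lt_succ (max a b))
  · exact lt_of_le_of_lt (le_max_left a b) (Order.lt_succ (max a b))
  · intro a _ ha0 hu
    obtain ⟨x, hx, _, hxa⟩ := hu 0 (pos_iff_ne_zero.mpr ha0)
    exact lt_trans hx hxa

theorem Club.closure {c : Cardinal.{0}} (hc : c.IsRegular) (hc' : ℵ₀ < c)
    (g : Ordinal.{0} → Ordinal.{0}) (hg : ∀ a < c.ord, g a < c.ord) :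
    Club {a | ∀ b < a, g b < a} c.ord := by
  have hκ : ℵ₀ < c.ord.cof := by rw [hc.cof_ord]; exact hc'
  exact Club.diag hc hc' (C := fun ξ => {a | g ξ < a})
    (fun ξ hξ => club_Ioi (isSuccLimit_of_cof hκ) (hg ξ hξ))

theorem club_limit {κ : Ordinal.{0}} (hκ : ℵ₀ < κ.cof) : Club {a | IsSuccLimit a} κ := by
  refine ⟨?_, ?_⟩
  · intro a ha
    obtain ⟨s, has, hsκ, hcof, -⟩ := exists_lim hκ Order.succ
      (fun x hx => ⟨Order.lt_succ x, (isSuccLimit_of_cof hκ).succ_lt hx⟩) a ha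
    exact ⟨s, one_lt_cof_iff.mp (by rw [hcof]; exact one_lt_aleph0), has, hsκ⟩
  · intro a _ ha0 hu
    exact hu.isSuccLimit ha0

theorem Stat.mono {S T : Set Ordinal.{0}} {κ : Ordinal.{0}} (h : Stat S κ)
    (hST : ∀ a ∈ S, a < κ → a ∈ T) : Stat T κ := by
  intro C hC
  obtain ⟨a, h1, h2, h3⟩ := h C hC
  exact ⟨a, hST a h1 h3, h2, h3⟩

theorem Stat.inter_club {S C : Set Ordinal.{0}} {κ : Ordinal.{0}} (hκ : ℵ₀ < κ.cof)
    (h : Stat S κ) (hC : Club C κ) : Stat (S ∩ C) κ := by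
  intro D hD
  obtain ⟨a, h1, h2, h3⟩ := h (C ∩ D) (hC.inter hκ hD)
  exact ⟨a, ⟨h1, h2.1⟩, h2.2, h3⟩

theorem stat_of_iUnion {ι : Type} [Countable ι] {κ : Ordinal.{0}} (hκ : ℵ₀ < κ.cof)
    {S : Set Ordinal.{0}} (h : Stat S κ) {A : ι → Set Ordinal.{0}}
    (hA : ∀ a ∈ S, a < κ → ∃ i, a ∈ A i) : ∃ i, Stat (S ∩ A i) κ := by
  by_contra hcon
  push Not at hcon
  have hch : ∀ i, ∃ D, Club D κ ∧ ∀ a ∈ S ∩ A i, a ∈ D → ¬ a < κ := by
    intro i
    have := hcon i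
    simp only [Stat] at this
    push Not at this
    obtain ⟨D, hD, hD'⟩ := this
    exact ⟨D, hD, fun a ha haD => not_lt.mpr (hD' a ha haD)⟩
  choose D hD hD' using hch
  obtain ⟨a, h1, h2, h3⟩ := h _ (Club.iInter hκ hD)
  obtain ⟨i, hi⟩ := hA a h1 h3
  exact hD' i a ⟨h1, hi⟩ (Set.mem_iInter.mp h2 i) h3

theorem fodor {c : Cardinal.{0}} (hc : c.IsRegular) (hc' : ℵ₀ < c) {S : Set Ordinal.{0}}
    (h : Stat S c.ord) {r : Ordinal.{0} → Ordinal.{0}} (hr : ∀ a ∈ S, a < c.ord → a ≠ 0 → r a < a) :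
    ∃ b < c.ord, Stat {a | a ∈ S ∧ r a = b} c.ord := by
  have hκ : ℵ₀ < c.ord.cof := by rw [hc.cof_ord]; exact hc'
  by_contra hcon
  push Not at hcon
  have hch : ∀ b, ∃ D, b < c.ord → Club D c.ord ∧ ∀ a, a ∈ S → r a = b → a ∈ D → ¬ a < c.ord := by
    intro b
    by_cases hb : b < c.ord
    · have := hcon b hb
      simp only [Stat] at this
      push Not at this
      obtain ⟨D, hD, hD'⟩ := this
      exact ⟨D, fun _ => ⟨hD, fun a ha hra haD => not_lt.mpr (hD' a ⟨ha, hra⟩ haD)⟩⟩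
    · exact ⟨∅, fun h' => absurd h' hb⟩
  choose D hD using hch
  have h1 := Club.diag hc hc' (C := D) (fun ξ hξ => (hD ξ hξ).1)
  have h2 := h1.inter hκ (club_Ioi (isSuccLimit_of_cof hκ) (pos_of_cof hκ))
  obtain ⟨a, ha1, ⟨ha2, ha3⟩, ha4⟩ := h _ h2
  have h0 : (0 : Ordinal.{0}) < a := ha3
  have hra := hr a ha1 ha4 h0.ne'
  exact (hD (r a) (hra.trans ha4)).2 a ha1 rfl (ha2 _ hra) ha4

theorem stat_cof_omega {κ : Ordinal.{0}} (hκ : ℵ₀ < κ.cof) :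
    Stat {a : Ordinal.{0} | a.cof = ℵ₀} κ := by
  intro C hC
  have hch : ∀ x : Ordinal.{0}, ∃ y, x < κ → y ∈ C ∧ x < y ∧ y < κ := by
    intro x
    by_cases hx : x < κ
    · obtain ⟨y, hy1, hy2, hy3⟩ := hC.1 x hx
      exact ⟨y, fun _ => ⟨hy1, hy2, hy3⟩⟩
    · exact ⟨0, fun h' => absurd h' hx⟩
  choose f hf using hch
  obtain ⟨s, has, hsκ, hcof, hs⟩ := exists_lim hκ f (fun x hx => (hf x hx).2) 0 (pos_of_cof hκ)
  refine ⟨s, hcof, ?_, hsκ⟩
  apply hC.2 s hsκ has.ne'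
  intro b hb
  obtain ⟨x, hbx, hxκ, hxs⟩ := hs b hb
  exact ⟨f x, (hf x hxκ).1, hbx.trans (hf x hxκ).2.1, hxs⟩

end Pool.Agent.Helper73.HODC
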