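import Pool.Agent.Helper73.HODC.Clubs

namespace Pool.Agent.Helper73.HODC

open Ordinal Cardinal ZFSet Order

/-! ## Module RK (file Rank.lean) : the rank relation (uses CL) -/

theorem LtOn.leOn {μ : Ordinal.{0}} {T : Set Ordinal.{0}} {x y : Ordinal.{0} → Ordinal.{0}}
    (h : LtOn μ T x y) : LeOn μ T x y := by
  obtain ⟨C, hC, h⟩ := h
  exact ⟨C, hC, fun i h1 h2 h3 => (h i h1 h2 h3).le⟩

theorem R_iff {μ : Ordinal.{0}} {T : Set Ordinal.{0}} {η : Ordinal.{0}}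
    {x : Ordinal.{0} → Ordinal.{0}} :
    R μ T η x ↔ ∀ η' < η, ∃ z, LtOn μ T z x ∧ R μ T η' z := by
  rw [R]
  exact ⟨fun h η' hη' => h ⟨η', hη'⟩, fun h η' => h η'.1 η'.2⟩

theorem R_anti {μ : Ordinal.{0}} {T : Set Ordinal.{0}} {η η' : Ordinal.{0}}
    {x : Ordinal.{0} → Ordinal.{0}} (h : R μ T η x) (h' : η' ≤ η) : R μ T η' x := by
  rw [R_iff] at h ⊢
  exact fun ζ hζ => h ζ (hζ.trans_le h')

theorem R_mono_set {μ : Ordinal.{0}} {T T' : Set Ordinal.{0}} {η : Ordinal.{0}}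
    {x : Ordinal.{0} → Ordinal.{0}} (h : R μ T η x) (h' : ∀ i ∈ T', i < μ → i ∈ T) :
    R μ T' η x := by
  induction η using WellFoundedLT.induction generalizing x with
  | ind η ih =>
    rw [R_iff] at h ⊢
    intro ζ hζ
    obtain ⟨z, ⟨C, hC, h1⟩, h2⟩ := h ζ hζ
    exact ⟨z, ⟨C, hC, fun i a b c => h1 i a b (h' i c b)⟩, ih ζ hζ h2⟩

theorem cof_ord_lt {m : Cardinal.{0}} (hm : m.IsRegular) (hm' : ℵ₀ < m) : ℵ₀ < m.ord.cof := by
  rw [hm.cof_ord]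
  exact hm'

theorem R_mono {m : Cardinal.{0}} (hm : m.IsRegular) (hm' : ℵ₀ < m) {T : Set Ordinal.{0}}
    {η : Ordinal.{0}} {x y : Ordinal.{0} → Ordinal.{0}} (h : R m.ord T η x)
    (h' : LeOn m.ord T x y) : R m.ord T η y := by
  rw [R_iff] at h ⊢
  intro ζ hζ
  obtain ⟨z, ⟨C, hC, h1⟩, h2⟩ := h ζ hζ
  obtain ⟨D, hD, h3⟩ := h'
  exact ⟨z, ⟨C ∩ D, hC.inter (cof_ord_lt hm hm') hD,
    fun i a b c => (h1 i a.1 b c).trans_le (h3 i a.2 b c)⟩, h2⟩

theorem R_succ {μ : Ordinal.{0}} {T : Set Ordinal.{0}} {η : Ordinal.{0}}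
    {x y : Ordinal.{0} → Ordinal.{0}} (h : R μ T η x) (h' : LtOn μ T x y) :
    R μ T (η + 1) y := by
  rw [R_iff]
  intro ζ hζ
  exact ⟨x, h', R_anti h (Order.lt_add_one_iff.mp hζ)⟩

theorem R_of_not_stat {μ : Ordinal.{0}} {T : Set Ordinal.{0}} (h : ¬ Stat T μ)
    (η : Ordinal.{0}) (x : Ordinal.{0} → Ordinal.{0}) : R μ T η x := by
  unfold Stat at h
  push Not at h
  obtain ⟨C, hC, h⟩ := h
  induction η using WellFoundedLT.induction with
  | ind η ih =>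
    rw [R_iff]
    intro ζ hζ
    exact ⟨x, ⟨C, hC, fun i a b c => absurd b (not_lt.mpr (h i c a))⟩, ih ζ hζ⟩

/-- sets which agree on a club -/
theorem R_of_inter_club {m : Cardinal.{0}} (hm : m.IsRegular) (hm' : ℵ₀ < m)
    {T D : Set Ordinal.{0}} (hD : Club D m.ord) {η : Ordinal.{0}}
    {x : Ordinal.{0} → Ordinal.{0}} (h : R m.ord (T ∩ D) η x) : R m.ord T η x := by
  induction η using WellFoundedLT.induction generalizing x with
  | ind η ih =>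
    rw [R_iff] at h ⊢
    intro ζ hζ
    obtain ⟨z, ⟨C, hC, h1⟩, h2⟩ := h ζ hζ
    exact ⟨z, ⟨C ∩ D, hC.inter (cof_ord_lt hm hm') hD,
      fun i a b c => h1 i a.1 b ⟨c, a.2⟩⟩, ih ζ hζ h2⟩

theorem R_diag {m : Cardinal.{0}} (hm : m.IsRegular) (hm' : ℵ₀ < m) {T : Set Ordinal.{0}}
    {A : Ordinal.{0} → Set Ordinal.{0}} {η : Ordinal.{0}} {x : Ordinal.{0} → Ordinal.{0}}
    (h : ∀ a < m.ord, R m.ord (A a) η x) (hT : ∀ i ∈ T, i < m.ord → i ≠ 0 → ∃ a < i, i ∈ A a) :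
    R m.ord T η x := by
  induction η using WellFoundedLT.induction generalizing x A with
  | ind η ih =>
    rw [R_iff]
    intro ζ hζ
    -- disjointed sets
    let A' : Ordinal.{0} → Set Ordinal.{0} := fun a => {i | i ∈ A a ∧ ∀ b < a, i ∉ A b}
    have h1 : ∀ a < m.ord, ∃ z, LtOn m.ord (A' a) z x ∧ R m.ord (A' a) ζ z := fun a ha =>
      R_iff.mp (R_mono_set (T' := A' a) (h a ha) fun i hi _ => hi.1) ζ hζ
    choose! z h2 h3 using h1
    choose! C hC h4 using h2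
    let a : Ordinal.{0} → Ordinal.{0} := fun i => sInf {a | i ∈ A a}
    have ha : ∀ b i, i ∈ A' b → a i = b := by
      intro b i hi
      refine le_antisymm (csInf_le' hi.1) ?_
      by_contra hlt
      rw [not_le] at hlt
      exact hi.2 _ hlt (csInf_mem (s := {a | i ∈ A a}) ⟨b, hi.1⟩)
    have ha' : ∀ i ∈ T, i < m.ord → i ≠ 0 → a i < i ∧ i ∈ A' (a i) := by
      intro i hi him hi0
      obtain ⟨b, hb, hib⟩ := hT i hi him hi0
      refine ⟨(csInf_le' (s := {a | i ∈ A a}) hib).trans_lt hb,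
        csInf_mem (s := {a | i ∈ A a}) ⟨b, hib⟩, fun c hc hic => ?_⟩
      exact absurd (csInf_le' (s := {a | i ∈ A a}) hic) (not_le.mpr hc)
    refine ⟨fun i => z (a i) i, ?_, ?_⟩
    · have hlim : IsSuccLimit m.ord := Cardinal.isSuccLimit_ord hm.aleph0_le
      have hpos : (0 : Ordinal.{0}) < m.ord := hlim.bot_lt
      refine ⟨{i | ∀ ξ < i, i ∈ C ξ} ∩ {i | 0 < i},
        (Club.diag hm hm' hC).inter (cof_ord_lt hm hm') (club_Ioi hlim hpos), ?_⟩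
      intro i hi him hiT
      obtain ⟨h5, h6⟩ := ha' i hiT him hi.2.ne'
      exact h4 (a i) (h5.trans him) i (hi.1 _ h5) him h6
    · refine ih ζ hζ (A := A') (fun b hb => R_mono hm hm' (h3 b hb) ?_) fun i hi him hi0 =>
        ⟨a i, (ha' i hi him hi0).1, (ha' i hi him hi0).2⟩
      obtain ⟨D, hD⟩ : ∃ D, Club D m.ord := ⟨C b, hC b hb⟩
      refine ⟨D, hD, fun i _ _ hi => ?_⟩
      change z b i ≤ z (a i) i
      rw [ha b i hi]

theorem R_iUnion {m : Cardinal.{0}} (hm : m.IsRegular) (hm' : ℵ₀ < m) {T : Set Ordinal.{0}}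
    {A : ℕ → Set Ordinal.{0}} {η : Ordinal.{0}} {x : Ordinal.{0} → Ordinal.{0}}
    (h : ∀ n, R m.ord (A n) η x) (hT : ∃ C, Club C m.ord ∧ ∀ i ∈ C, i < m.ord → i ∈ T →
      ∃ n, i ∈ A n) : R m.ord T η x := by
  obtain ⟨C, hC, hT⟩ := hT
  have hlim : IsSuccLimit m.ord := Cardinal.isSuccLimit_ord hm.aleph0_le
  have hω : (ω : Ordinal.{0}) < m.ord := by
    rw [← Cardinal.ord_aleph0]
    exact Cardinal.ord_lt_ord.mpr hm'
  have hD : Club (C ∩ {i | ω < i}) m.ord := hC.inter (cof_ord_lt hm hm') (club_Ioi hlim hω)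
  refine R_of_inter_club hm hm' hD (R_diag hm hm'
    (A := fun a => {i | ∃ n : ℕ, (n : Ordinal.{0}) = a ∧ i ∈ A n}) (fun a _ => ?_) ?_)
  · by_cases ha : ∃ n : ℕ, (n : Ordinal.{0}) = a
    · obtain ⟨n, hn⟩ := ha
      refine R_mono_set (h n) fun i hi _ => ?_
      obtain ⟨k, hk, hi⟩ := hi
      rw [← hn] at hk
      rwa [← Nat.cast_inj.mp hk]
    · refine R_mono_set (h 0) fun i hi _ => ?_
      obtain ⟨k, hk, hi⟩ := hi
      exact absurd ⟨k, hk⟩ ha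
  · intro i hi him _
    obtain ⟨n, hn⟩ := hT i hi.2.1 him hi.1
    exact ⟨n, (Ordinal.natCast_lt_omega0 n).trans hi.2.2, n, rfl, hn⟩

theorem R_fodor {m : Cardinal.{0}} (hm : m.IsRegular) (hm' : ℵ₀ < m) {T : Set Ordinal.{0}}
    {η : Ordinal.{0}} {x : Ordinal.{0} → Ordinal.{0}} (h : ¬ R m.ord T η x)
    {r : Ordinal.{0} → Ordinal.{0}} (hr : ∀ i ∈ T, i < m.ord → i ≠ 0 → r i < i) :
    ∃ a < m.ord, ¬ R m.ord {i | i ∈ T ∧ r i = a} η x := by
  by_contra hcon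
  push Not at hcon
  exact h (R_diag hm hm' hcon fun i hi him hi0 => ⟨r i, hr i hi him hi0, hi, rfl⟩)

theorem R_least {μ : Ordinal.{0}} {T : Set Ordinal.{0}} {η : Ordinal.{0}}
    {x : Ordinal.{0} → Ordinal.{0}} (h : ¬ R μ T η x) :
    ∃ ξ < η, R μ T ξ x ∧ ¬ R μ T (ξ + 1) x := by
  by_contra hcon
  push Not at hcon
  have key : ∀ ζ, ζ ≤ η → R μ T ζ x := by
    intro ζ
    induction ζ using WellFoundedLT.induction with
    | ind ζ ih =>
      intro hζ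
      rw [R_iff]
      intro ξ hξ
      have h1 := hcon ξ (hξ.trans_le hζ) (ih ξ hξ (hξ.le.trans hζ))
      exact R_iff.mp h1 ξ (lt_add_one ξ)
  exact h (key η le_rfl)

theorem LtOn_wf {m : Cardinal.{0}} (hm : m.IsRegular) (hm' : ℵ₀ < m) {T : Set Ordinal.{0}}
    (hT : Stat T m.ord) : WellFounded (LtOn m.ord T) := by
  rw [wellFounded_iff_isEmpty_descending_chain]
  refine ⟨fun ⟨f, hf⟩ => ?_⟩
  choose C hC h using hf
  obtain ⟨i, hi, hiC, him⟩ := hT (⋂ n, C n) (Club.iInter (cof_ord_lt hm hm') hC)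
  rw [Set.mem_iInter] at hiC
  have h1 : ∀ n, f (n + 1) i < f n i := fun n => h n i (hiC n) him hi
  have h2 : WellFounded ((· < ·) : Ordinal.{0} → Ordinal.{0} → Prop) := wellFounded_lt
  rw [wellFounded_iff_isEmpty_descending_chain] at h2
  exact h2.false ⟨fun n => f n i, h1⟩

end Pool.Agent.Helper73.HODC
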