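import Pool.Agent.Helper73.HODC.Dfn
import Pool.Agent.Helper73.HODC.Rank

/-!
# Definability of clubs, stationary sets, the rank relation and cofinality `ω`
-/

namespace Pool.Agent.Helper73.HODC

open Ordinal Cardinal ZFSet Order

/-! ## Module DN (file DefNotions.lean) : definability of the notions (uses DF, CL, RK) -/

theorem Dfn.dncongr {P Q : (ℕ → ZFSet.{0}) → Prop} (h : Dfn P) (h' : ∀ v, P v ↔ Q v) : Dfn Q := by
  obtain ⟨φ, hφ⟩ := h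
  exact ⟨φ, fun v => (hφ v).trans (h' v)⟩

theorem dn_unbIn_congr {C D : Set Ordinal.{0}} {κ : Ordinal.{0}} (h : ∀ a < κ, a ∈ C ↔ a ∈ D)
    (hC : UnbIn C κ) : UnbIn D κ := by
  intro a ha
  obtain ⟨b, hb, hab, hbκ⟩ := hC a ha
  exact ⟨b, (h b hbκ).1 hb, hab, hbκ⟩

theorem dn_club_congr {C D : Set Ordinal.{0}} {κ : Ordinal.{0}} (h : ∀ a < κ, a ∈ C ↔ a ∈ D)
    (hC : Club C κ) : Club D κ := by
  refine ⟨dn_unbIn_congr h hC.1, fun a ha ha0 hu => (h a ha).1 (hC.2 a ha ha0 ?_)⟩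
  exact dn_unbIn_congr (fun b hb => (h b (hb.trans ha)).symm) hu

/-- every club has a code -/
theorem dn_exists_code_club {C : Set Ordinal.{0}} {κ : Ordinal.{0}} (hC : Club C κ) :
    ∃ z : ZFSet.{0}, Club (st z) κ ∧ ∀ a, a ∈ st z ↔ (a ∈ C ∧ a < κ) := by
  obtain ⟨z, hz⟩ := exists_st C κ
  have h : ∀ a, a ∈ st z ↔ (a ∈ C ∧ a < κ) := fun a => by rw [hz]; rfl
  exact ⟨z, dn_club_congr (fun a ha => by rw [h a]; exact ⟨fun h => ⟨h, ha⟩, fun h => h.1⟩) hC, h⟩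

theorem dn_rank_ne_zero (i : ℕ) : Dfn (fun v => (v i).rank ≠ 0) := by
  refine Dfn.dncongr (P := fun v => ∃ a : Ordinal.{0}, a < (v i).rank) ?_ fun v => ?_
  · exact Dfn.exO (Q := fun a v => a < (v i).rank) (dfn_rank_lt 0 (i + 1))
  · constructor
    · rintro ⟨a, ha⟩ h
      rw [h] at ha
      exact absurd ha (not_lt.2 (zero_le))
    · intro h
      exact ⟨0, pos_iff_ne_zero.2 h⟩

theorem dn_dfn_unbIn (i j : ℕ) : Dfn (fun v => UnbIn (st (v i)) (v j).rank) := by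
  refine Dfn.allO (Q := fun a v => a < (v j).rank → ∃ b ∈ st (v i), a < b ∧ b < (v j).rank) ?_
  refine Dfn.imp (dfn_rank_lt 0 (j + 1)) ?_
  refine Dfn.exO (Q := fun b v => b ∈ st (v (i + 1)) ∧ (v 0).rank < b ∧ b < (v (j + 1)).rank) ?_
  exact (dfn_st 0 (i + 2)).and ((dfn_rank_lt 1 0).and (dfn_rank_lt 0 (j + 2)))

theorem dfn_club (i j : ℕ) : Dfn (fun v => Club (st (v i)) (v j).rank) := by
  refine Dfn.and (dn_dfn_unbIn i j) ?_
  refine Dfn.allO (Q := fun a v => a < (v j).rank → a ≠ 0 → UnbIn (st (v i)) a → a ∈ st (v i)) ?_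
  exact (dfn_rank_lt 0 (j + 1)).imp ((dn_rank_ne_zero 0).imp
    ((dn_dfn_unbIn (i + 1) 0).imp (dfn_st 0 (i + 1))))

theorem dn_stat_iff_code {S : Set Ordinal.{0}} {κ : Ordinal.{0}} :
    Stat S κ ↔ ∀ z : ZFSet.{0}, Club (st z) κ → ∃ a, a ∈ S ∧ a ∈ st z ∧ a < κ := by
  constructor
  · intro h z hz
    obtain ⟨a, ha, ha', ha''⟩ := h _ hz
    exact ⟨a, ha, ha', ha''⟩
  · intro h C hC
    obtain ⟨z, hz, hz'⟩ := dn_exists_code_club hC
    obtain ⟨a, ha, ha', ha''⟩ := h z hz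
    exact ⟨a, ha, ((hz' a).1 ha').1, ha''⟩

theorem Dfn.stat {Q : Ordinal.{0} → (ℕ → ZFSet.{0}) → Prop}
    (h : Dfn (fun v => Q (v 0).rank (fun n => v (n + 1)))) (j : ℕ) :
    Dfn (fun v => Stat {a | Q a v} (v j).rank) := by
  refine Dfn.dncongr (P := fun v => ∀ z : ZFSet.{0}, Club (st z) (v j).rank →
    ∃ a, Q a v ∧ a ∈ st z ∧ a < (v j).rank) ?_ fun v => dn_stat_iff_code.symm
  refine Dfn.all (Q := fun z v => Club (st z) (v j).rank →
    ∃ a, Q a v ∧ a ∈ st z ∧ a < (v j).rank) ?_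
  refine Dfn.imp (dfn_club 0 (j + 1)) ?_
  refine Dfn.exO (Q := fun a v => Q a (fun n => v (n + 1)) ∧ a ∈ st (v 0) ∧ a < (v (j + 1)).rank) ?_
  refine Dfn.and ?_ ((dfn_st 0 1).and (dfn_rank_lt 0 (j + 2)))
  exact h.rename (fun n => if n = 0 then 0 else n + 1)

theorem dn_ltOn_iff_code {μ : Ordinal.{0}} {T : Set Ordinal.{0}} {x y : Ordinal.{0} → Ordinal.{0}} :
    LtOn μ T x y ↔ ∃ z : ZFSet.{0}, Club (st z) μ ∧
      ∀ i, i ∈ st z → i < μ → i ∈ T → ∃ b c, x i = b ∧ y i = c ∧ b < c := by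
  constructor
  · rintro ⟨C, hC, h⟩
    obtain ⟨z, hz, hz'⟩ := dn_exists_code_club hC
    exact ⟨z, hz, fun i hi hi' hi'' => ⟨_, _, rfl, rfl, h i ((hz' i).1 hi).1 hi' hi''⟩⟩
  · rintro ⟨z, hz, h⟩
    refine ⟨_, hz, fun i hi hi' hi'' => ?_⟩
    obtain ⟨b, c, hb, hc, hbc⟩ := h i hi hi' hi''
    rwa [hb, hc]

theorem dfn_ltOn (i j k l : ℕ) :
    Dfn (fun v => LtOn (v i).rank (st (v j)) (fn (v k)) (fn (v l))) := by
  refine Dfn.dncongr (P := fun v => ∃ z : ZFSet.{0}, Club (st z) (v i).rank ∧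
      ∀ a, a ∈ st z → a < (v i).rank → a ∈ st (v j) →
        ∃ b c, fn (v k) a = b ∧ fn (v l) a = c ∧ b < c) ?_ fun v => dn_ltOn_iff_code.symm
  refine Dfn.ex (Q := fun z v => Club (st z) (v i).rank ∧
      ∀ a, a ∈ st z → a < (v i).rank → a ∈ st (v j) →
        ∃ b c, fn (v k) a = b ∧ fn (v l) a = c ∧ b < c) ?_
  refine Dfn.and (dfn_club 0 (i + 1)) ?_
  refine Dfn.allO (Q := fun a v => a ∈ st (v 0) → a < (v (i + 1)).rank → a ∈ st (v (j + 1)) →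
        ∃ b c, fn (v (k + 1)) a = b ∧ fn (v (l + 1)) a = c ∧ b < c) ?_
  refine (dfn_st 0 1).imp ((dfn_rank_lt 0 (i + 2)).imp ((dfn_st 0 (j + 2)).imp ?_))
  refine Dfn.exO (Q := fun b v => ∃ c, fn (v (k + 2)) (v 0).rank = b ∧
    fn (v (l + 2)) (v 0).rank = c ∧ b < c) ?_
  refine Dfn.exO (Q := fun c v => fn (v (k + 3)) (v 1).rank = (v 0).rank ∧
    fn (v (l + 3)) (v 1).rank = c ∧ (v 0).rank < c) ?_
  exact (dfn_fn (k + 4) 2 1).and ((dfn_fn (l + 4) 2 0).and (dfn_rank_lt 1 0))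

/-! ### The rank relation -/

theorem dn_ltOn_congr {μ : Ordinal.{0}} {T : Set Ordinal.{0}} {x y x' y' : Ordinal.{0} → Ordinal.{0}}
    (hx : ∀ i < μ, x i = x' i) (hy : ∀ i < μ, y i = y' i) (h : LtOn μ T x y) : LtOn μ T x' y' := by
  obtain ⟨C, hC, h⟩ := h
  exact ⟨C, hC, fun i hi hi' hi'' => by rw [← hx i hi', ← hy i hi']; exact h i hi hi' hi''⟩

theorem dn_R_congr {μ : Ordinal.{0}} {T : Set Ordinal.{0}} {η : Ordinal.{0}}
    {x x' : Ordinal.{0} → Ordinal.{0}} (hx : ∀ i < μ, x i = x' i) (h : R μ T η x) :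
    R μ T η x' := by
  rw [R_iff] at h ⊢
  intro η' hη'
  obtain ⟨z, hz, hz'⟩ := h η' hη'
  exact ⟨z, dn_ltOn_congr (fun _ _ => rfl) hx hz, hz'⟩

/-- the witnesses in the definition of the rank relation may be taken to be codes -/
theorem dn_R_code {μ : Ordinal.{0}} {T : Set Ordinal.{0}} {η : Ordinal.{0}}
    {x : Ordinal.{0} → Ordinal.{0}} (h : R μ T η x) (η' : Ordinal.{0}) (hη' : η' < η) :
    ∃ z : ZFSet.{0}, LtOn μ T (fn z) x ∧ R μ T η' (fn z) := by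
  rw [R_iff] at h
  obtain ⟨z, hz, hz'⟩ := h η' hη'
  obtain ⟨w, hw, -⟩ := exists_fn z μ
  exact ⟨w, dn_ltOn_congr (fun i hi => (hw i hi).symm) (fun _ _ => rfl) hz,
    dn_R_congr (fun i hi => (hw i hi).symm) hz'⟩

/-- The set `W` of pairs (ordinal, code of a function) shows that the rank is at least `η`. -/
def RCert (μ : Ordinal.{0}) (T : Set Ordinal.{0}) (W : ZFSet.{0}) : Prop :=
  ∀ e x : ZFSet.{0}, ZFSet.pair e x ∈ W → ∀ a, a < e.rank →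
    ∃ e' z : ZFSet.{0}, e'.rank = a ∧ ZFSet.pair e' z ∈ W ∧ LtOn μ T (fn z) (fn x)

theorem RCert.sound {μ : Ordinal.{0}} {T : Set Ordinal.{0}} {W : ZFSet.{0}} (hW : RCert μ T W) :
    ∀ (a : Ordinal.{0}) (e x : ZFSet.{0}), ZFSet.pair e x ∈ W → e.rank = a → R μ T a (fn x) := by
  intro a
  induction a using WellFoundedLT.induction with
  | ind a ih =>
    intro e x hex he
    rw [R_iff]
    intro η' hη'
    obtain ⟨e', z, he', hz, hlt⟩ := hW e x hex η' (by rw [he]; exact hη')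
    exact ⟨fn z, hlt, ih η' hη' e' z hz he'⟩

open Classical in
/-- one step of the construction of a certificate -/
noncomputable def dnStep (μ : Ordinal.{0}) (T : Set Ordinal.{0}) (a : Ordinal.{0})
    (p : Ordinal.{0} × ZFSet.{0}) : Ordinal.{0} × ZFSet.{0} :=
  if h : ∃ z : ZFSet.{0}, LtOn μ T (fn z) (fn p.2) ∧ R μ T a (fn z) then
    (if a < p.1 then (a, h.choose) else p) else p

theorem dnStep_R {μ : Ordinal.{0}} {T : Set Ordinal.{0}} {a : Ordinal.{0}}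
    {p : Ordinal.{0} × ZFSet.{0}} (hp : R μ T p.1 (fn p.2)) :
    R μ T (dnStep μ T a p).1 (fn (dnStep μ T a p).2) := by
  unfold dnStep
  split_ifs with h h'
  · exact h.choose_spec.2
  · exact hp
  · exact hp

theorem dnStep_lt {μ : Ordinal.{0}} {T : Set Ordinal.{0}} {a : Ordinal.{0}}
    {p : Ordinal.{0} × ZFSet.{0}} (hp : R μ T p.1 (fn p.2)) (ha : a < p.1) :
    (dnStep μ T a p).1 = a ∧ LtOn μ T (fn (dnStep μ T a p).2) (fn p.2) := by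
  have h : ∃ z : ZFSet.{0}, LtOn μ T (fn z) (fn p.2) ∧ R μ T a (fn z) := dn_R_code hp a ha
  unfold dnStep
  rw [dif_pos h, if_pos ha]
  exact ⟨rfl, h.choose_spec.1⟩

theorem dnStep_le {μ : Ordinal.{0}} {T : Set Ordinal.{0}} {a : Ordinal.{0}}
    {p : Ordinal.{0} × ZFSet.{0}} : (dnStep μ T a p).1 ≤ p.1 := by
  unfold dnStep
  split_ifs with h h'
  · exact h'.le
  · exact le_rfl
  · exact le_rfl

/-- the tree of witnesses -/
noncomputable def dnTree (μ : Ordinal.{0}) (T : Set Ordinal.{0}) (η : Ordinal.{0}) (x : ZFSet.{0}) :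
    List (Set.Iio η) → Ordinal.{0} × ZFSet.{0}
  | [] => (η, x)
  | a :: l => dnStep μ T a.1 (dnTree μ T η x l)

theorem dnTree_R {μ : Ordinal.{0}} {T : Set Ordinal.{0}} {η : Ordinal.{0}} {x : ZFSet.{0}}
    (h : R μ T η (fn x)) (l : List (Set.Iio η)) :
    R μ T (dnTree μ T η x l).1 (fn (dnTree μ T η x l).2) := by
  induction l with
  | nil => exact h
  | cons a l ih => exact dnStep_R ih

theorem dnTree_le {μ : Ordinal.{0}} {T : Set Ordinal.{0}} {η : Ordinal.{0}} {x : ZFSet.{0}}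
    (l : List (Set.Iio η)) : (dnTree μ T η x l).1 ≤ η := by
  induction l with
  | nil => exact le_rfl
  | cons a l ih => exact dnStep_le.trans ih

theorem dn_exists_RCert {μ : Ordinal.{0}} {T : Set Ordinal.{0}} {η : Ordinal.{0}} {x : ZFSet.{0}}
    (h : R μ T η (fn x)) : ∃ W : ZFSet.{0}, RCert μ T W ∧ ∃ e : ZFSet.{0}, e.rank = η ∧
      ZFSet.pair e x ∈ W := by
  let f : List (Set.Iio η) → ZFSet.{0} := fun l =>
    ZFSet.pair (dnTree μ T η x l).1.toZFSet (dnTree μ T η x l).2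
  have hsm : _root_.Small.{0} (List (Set.Iio η)) := inferInstance
  refine ⟨ZFSet.range f, ?_, η.toZFSet, rank_toZFSet η, ?_⟩
  · intro e y hy a ha
    obtain ⟨l, hl⟩ := ZFSet.mem_range.1 hy
    obtain ⟨h1, h2⟩ := ZFSet.pair_injective hl
    subst h2
    have h1' : e.rank = (dnTree μ T η x l).1 := by rw [← h1, rank_toZFSet]
    rw [h1'] at ha
    have haη : a < η := ha.trans_le (dnTree_le l)
    obtain ⟨h3, h4⟩ := dnStep_lt (dnTree_R h l) ha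
    refine ⟨(dnTree μ T η x (⟨a, haη⟩ :: l)).1.toZFSet, (dnTree μ T η x (⟨a, haη⟩ :: l)).2, ?_, ?_,
      h4⟩
    · rw [rank_toZFSet]
      exact h3
    · exact ZFSet.mem_range.2 ⟨⟨a, haη⟩ :: l, rfl⟩
  · exact ZFSet.mem_range.2 ⟨[], rfl⟩

theorem dn_R_iff_code {μ : Ordinal.{0}} {T : Set Ordinal.{0}} {η : Ordinal.{0}} {x : ZFSet.{0}} :
    R μ T η (fn x) ↔ ∃ W : ZFSet.{0}, RCert μ T W ∧ ∃ e : ZFSet.{0}, e.rank = η ∧
      ZFSet.pair e x ∈ W := by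
  constructor
  · exact dn_exists_RCert
  · rintro ⟨W, hW, e, he, hex⟩
    exact hW.sound η e x hex he

theorem dn_dfn_pair_mem (i j k : ℕ) : Dfn (fun v => ZFSet.pair (v i) (v j) ∈ v k) := by
  refine Dfn.dncongr (P := fun v => ∃ p : ZFSet.{0}, p = ZFSet.pair (v i) (v j) ∧ p ∈ v k) ?_
    fun v => ?_
  · exact Dfn.ex (Q := fun p v => p = ZFSet.pair (v i) (v j) ∧ p ∈ v k)
      ((dfn_pair 0 (i + 1) (j + 1)).and (dfn_mem 0 (k + 1)))
  · simp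

theorem dn_dfn_RCert (i j k : ℕ) : Dfn (fun v => RCert (v i).rank (st (v j)) (v k)) := by
  refine Dfn.all (Q := fun e v => ∀ x : ZFSet.{0}, ZFSet.pair e x ∈ v k → ∀ a, a < e.rank →
    ∃ e' z : ZFSet.{0}, e'.rank = a ∧ ZFSet.pair e' z ∈ v k ∧
      LtOn (v i).rank (st (v j)) (fn z) (fn x)) ?_
  refine Dfn.all (Q := fun x v => ZFSet.pair (v 0) x ∈ v (k + 1) → ∀ a, a < (v 0).rank →
    ∃ e' z : ZFSet.{0}, e'.rank = a ∧ ZFSet.pair e' z ∈ v (k + 1) ∧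
      LtOn (v (i + 1)).rank (st (v (j + 1))) (fn z) (fn x)) ?_
  refine (dn_dfn_pair_mem 1 0 (k + 2)).imp ?_
  refine Dfn.allO (Q := fun a v => a < (v 1).rank →
    ∃ e' z : ZFSet.{0}, e'.rank = a ∧ ZFSet.pair e' z ∈ v (k + 2) ∧
      LtOn (v (i + 2)).rank (st (v (j + 2))) (fn z) (fn (v 0))) ?_
  refine (dfn_rank_lt 0 2).imp ?_
  refine Dfn.ex (Q := fun e' v => ∃ z : ZFSet.{0}, e'.rank = (v 0).rank ∧
    ZFSet.pair e' z ∈ v (k + 3) ∧ LtOn (v (i + 3)).rank (st (v (j + 3))) (fn z) (fn (v 1))) ?_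
  refine Dfn.ex (Q := fun z v => (v 0).rank = (v 1).rank ∧
    ZFSet.pair (v 0) z ∈ v (k + 4) ∧ LtOn (v (i + 4)).rank (st (v (j + 4))) (fn z) (fn (v 2))) ?_
  exact (dfn_rank_eq 1 2).and ((dn_dfn_pair_mem 1 0 (k + 5)).and (dfn_ltOn (i + 5) (j + 5) 0 3))

theorem dfn_R (i j k l : ℕ) :
    Dfn (fun v => R (v i).rank (st (v j)) (v k).rank (fn (v l))) := by
  refine Dfn.dncongr (P := fun v => ∃ W : ZFSet.{0}, RCert (v i).rank (st (v j)) W ∧
    ∃ e : ZFSet.{0}, e.rank = (v k).rank ∧ ZFSet.pair e (v l) ∈ W) ?_ fun v => dn_R_iff_code.symm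
  refine Dfn.ex (Q := fun W v => RCert (v i).rank (st (v j)) W ∧
    ∃ e : ZFSet.{0}, e.rank = (v k).rank ∧ ZFSet.pair e (v l) ∈ W) ?_
  refine (dn_dfn_RCert (i + 1) (j + 1) 0).and ?_
  refine Dfn.ex (Q := fun e v => e.rank = (v (k + 1)).rank ∧ ZFSet.pair e (v (l + 1)) ∈ v 0) ?_
  exact (dfn_rank_eq 0 (k + 2)).and (dn_dfn_pair_mem 0 (l + 2) 1)

/-! ### Cofinality `ω` -/

theorem dn_cof_omega_iff_seq {a : Ordinal.{0}} : a.cof = ℵ₀ ↔ IsSuccLimit a ∧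
    ∃ f : ℕ → Ordinal.{0}, (∀ n, f n < a) ∧ ∀ b < a, ∃ n, b ≤ f n := by
  have hlim : ℵ₀ ≤ a.cof ↔ IsSuccLimit a := by
    rw [aleph0_le_cof_iff, one_lt_cof_iff]
  constructor
  · intro h
    have hl : IsSuccLimit a := hlim.1 h.ge
    refine ⟨hl, ?_⟩
    have h1 : Order.cof (Set.Iio a) = ℵ₀ := by
      rw [Ordinal.cof_Iio, ← lift_cof, h, lift_aleph0]
    obtain ⟨s, hs, hs'⟩ := Order.exists_cof_eq (Set.Iio a)
    rw [h1] at hs'
    have hc : Countable s := Cardinal.mk_le_aleph0_iff.1 hs'.le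
    have hne : Nonempty s := by
      rw [← Cardinal.mk_ne_zero_iff, hs']
      exact aleph0_ne_zero
    obtain ⟨g, hg⟩ := exists_surjective_nat s
    refine ⟨fun n => (g n).1.1, fun n => (g n).1.2, fun b hb => ?_⟩
    obtain ⟨c, hc, hbc⟩ := hs ⟨b, hb⟩
    obtain ⟨n, hn⟩ := hg ⟨c, hc⟩
    refine ⟨n, ?_⟩
    show b ≤ (g n).1.1
    rw [hn]
    exact hbc
  · rintro ⟨hl, f, hf, hf'⟩
    refine le_antisymm ?_ (hlim.2 hl)
    have h2 : Order.cof (Set.Iio a) ≤ ℵ₀ := by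
      have hcof : IsCofinal (Set.range (fun n => (⟨f n, hf n⟩ : Set.Iio a))) := by
        intro b
        obtain ⟨n, hn⟩ := hf' b.1 b.2
        exact ⟨_, ⟨n, rfl⟩, hn⟩
      refine (Order.cof_le hcof).trans ?_
      rw [Cardinal.mk_le_aleph0_iff]
      exact (Set.countable_range _).to_subtype
    rw [Ordinal.cof_Iio, ← lift_cof] at h2
    rwa [← Cardinal.lift_le.{1}, lift_aleph0]

/-- limit ordinals, in a form convenient for definability -/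
def DNLim (a : Ordinal.{0}) : Prop := a ≠ 0 ∧ ∀ b, b < a → ∃ c, b < c ∧ c < a

theorem dn_lim_iff {a : Ordinal.{0}} : DNLim a ↔ IsSuccLimit a := by
  rw [Ordinal.isSuccLimit_iff, Order.isSuccPrelimit_iff_succ_lt]
  refine and_congr Iff.rfl ⟨fun h b hb => ?_, fun h b hb => ?_⟩
  · obtain ⟨c, hc, hc'⟩ := h b hb
    exact (Order.succ_le_of_lt hc).trans_lt hc'
  · exact ⟨Order.succ b, Order.lt_succ b, h b hb⟩

theorem dn_dfn_lim (i : ℕ) : Dfn (fun v => DNLim (v i).rank) := by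
  refine (dn_rank_ne_zero i).and ?_
  refine Dfn.allO (Q := fun b v => b < (v i).rank → ∃ c, b < c ∧ c < (v i).rank) ?_
  refine (dfn_rank_lt 0 (i + 1)).imp ?_
  refine Dfn.exO (Q := fun c v => (v 0).rank < c ∧ c < (v (i + 1)).rank) ?_
  exact (dfn_rank_lt 1 0).and (dfn_rank_lt 0 (i + 2))

theorem dn_omega_iff {w : Ordinal.{0}} : w = ω ↔ DNLim w ∧ ∀ b, b < w → ¬ DNLim b := by
  constructor
  · rintro rfl
    refine ⟨dn_lim_iff.2 isSuccLimit_omega0, fun b hb hl => ?_⟩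
    exact absurd (omega0_le_of_isSuccLimit (dn_lim_iff.1 hl)) (not_le.2 hb)
  · rintro ⟨hl, h⟩
    refine le_antisymm (not_lt.1 fun hlt => h ω hlt (dn_lim_iff.2 isSuccLimit_omega0)) ?_
    exact omega0_le_of_isSuccLimit (dn_lim_iff.1 hl)

theorem dn_cof_omega_iff_code {a : Ordinal.{0}} : a.cof = ℵ₀ ↔ DNLim a ∧
    ∃ w : Ordinal.{0}, ∃ z : ZFSet.{0}, (DNLim w ∧ ∀ b, b < w → ¬ DNLim b) ∧
      (∀ n, n < w → ∃ c, fn z n = c ∧ c < a) ∧
        ∀ b, b < a → ∃ n, n < w ∧ ∃ c, fn z n = c ∧ b ≤ c := by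
  rw [dn_cof_omega_iff_seq, ← dn_lim_iff]
  refine and_congr Iff.rfl ?_
  constructor
  · rintro ⟨f, hf, hf'⟩
    obtain ⟨z, hz, -⟩ := exists_fn (fun o => f (Cardinal.toNat o.card)) ω
    have hz' : ∀ n : ℕ, fn z n = f n := fun n => by
      rw [hz n (natCast_lt_omega0 n)]
      simp
    refine ⟨ω, z, dn_omega_iff.1 rfl, fun n hn => ?_, fun b hb => ?_⟩
    · obtain ⟨k, rfl⟩ := lt_omega0.1 hn
      exact ⟨_, rfl, by rw [hz']; exact hf k⟩
    · obtain ⟨n, hn⟩ := hf' b hb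
      exact ⟨n, natCast_lt_omega0 n, _, rfl, by rw [hz']; exact hn⟩
  · rintro ⟨w, z, hw, h1, h2⟩
    have hw' := dn_omega_iff.2 hw
    subst hw'
    refine ⟨fun n => fn z n, fun n => ?_, fun b hb => ?_⟩
    · obtain ⟨c, hc, hc'⟩ := h1 n (natCast_lt_omega0 n)
      show fn z n < a
      rw [hc]
      exact hc'
    · obtain ⟨n, hn, c, hc, hc'⟩ := h2 b hb
      obtain ⟨k, rfl⟩ := lt_omega0.1 hn
      refine ⟨k, ?_⟩
      show b ≤ fn z k
      rw [hc]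
      exact hc'

theorem dfn_cof_omega (i : ℕ) : Dfn (fun v => (v i).rank.cof = ℵ₀) := by
  refine Dfn.dncongr (P := fun v => DNLim (v i).rank ∧
    ∃ w : Ordinal.{0}, ∃ z : ZFSet.{0}, (DNLim w ∧ ∀ b, b < w → ¬ DNLim b) ∧
      (∀ n, n < w → ∃ c, fn z n = c ∧ c < (v i).rank) ∧
        ∀ b, b < (v i).rank → ∃ n, n < w ∧ ∃ c, fn z n = c ∧ b ≤ c) ?_
    fun v => dn_cof_omega_iff_code.symm
  refine (dn_dfn_lim i).and ?_
  refine Dfn.exO (Q := fun w v => ∃ z : ZFSet.{0}, (DNLim w ∧ ∀ b, b < w → ¬ DNLim b) ∧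
      (∀ n, n < w → ∃ c, fn z n = c ∧ c < (v i).rank) ∧
        ∀ b, b < (v i).rank → ∃ n, n < w ∧ ∃ c, fn z n = c ∧ b ≤ c) ?_
  refine Dfn.ex (Q := fun z v => (DNLim (v 0).rank ∧ ∀ b, b < (v 0).rank → ¬ DNLim b) ∧
      (∀ n, n < (v 0).rank → ∃ c, fn z n = c ∧ c < (v (i + 1)).rank) ∧
        ∀ b, b < (v (i + 1)).rank → ∃ n, n < (v 0).rank ∧ ∃ c, fn z n = c ∧ b ≤ c) ?_
  refine Dfn.and ((dn_dfn_lim 1).and ?_) (Dfn.and ?_ ?_)
  · refine Dfn.allO (Q := fun b v => b < (v 1).rank → ¬ DNLim b) ?_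
    exact (dfn_rank_lt 0 2).imp (dn_dfn_lim 0).not
  · refine Dfn.allO (Q := fun n v => n < (v 1).rank → ∃ c, fn (v 0) n = c ∧
      c < (v (i + 2)).rank) ?_
    refine (dfn_rank_lt 0 2).imp ?_
    refine Dfn.exO (Q := fun c v => fn (v 1) (v 0).rank = c ∧ c < (v (i + 3)).rank) ?_
    exact (dfn_fn 2 1 0).and (dfn_rank_lt 0 (i + 4))
  · refine Dfn.allO (Q := fun b v => b < (v (i + 2)).rank → ∃ n, n < (v 1).rank ∧
      ∃ c, fn (v 0) n = c ∧ b ≤ c) ?_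
    refine (dfn_rank_lt 0 (i + 3)).imp ?_
    refine Dfn.exO (Q := fun n v => n < (v 2).rank ∧ ∃ c, fn (v 1) n = c ∧ (v 0).rank ≤ c) ?_
    refine (dfn_rank_lt 0 3).and ?_
    refine Dfn.exO (Q := fun c v => fn (v 2) (v 0).rank = c ∧ (v 1).rank ≤ c) ?_
    exact (dfn_fn 3 1 0).and (dfn_rank_le 2 0)

end Pool.Agent.Helper73.HODC
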