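import Pool.Agent.Helper73.HODC.Best
import Pool.Agent.Helper73.HODC.DefNotions

namespace Pool.Agent.Helper73.HODC

open Ordinal Cardinal ZFSet Order

/-! ## Module DE (file DefE.lean) : the relation EE is ordinal definable (uses DF, BF, DN, CL, RK) -/

/-! ### Everything only depends on values below `μ` -/

theorem LtOn.congr {μ : Ordinal.{0}} {T T' : Set Ordinal.{0}} {x x' y y' : Ordinal.{0} → Ordinal.{0}}
    (hT : ∀ i < μ, i ∈ T' → i ∈ T) (hx : ∀ i < μ, x i = x' i) (hy : ∀ i < μ, y i = y' i)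
    (h : LtOn μ T x y) : LtOn μ T' x' y' := by
  obtain ⟨C, hC, h1⟩ := h
  refine ⟨C, hC, fun i hi hiμ hiT => ?_⟩
  rw [← hx i hiμ, ← hy i hiμ]
  exact h1 i hi hiμ (hT i hiμ hiT)

theorem R.congr {μ : Ordinal.{0}} {T T' : Set Ordinal.{0}} {η : Ordinal.{0}}
    {x x' : Ordinal.{0} → Ordinal.{0}}
    (hT : ∀ i < μ, i ∈ T' → i ∈ T) (hx : ∀ i < μ, x i = x' i)
    (h : R μ T η x) : R μ T' η x' := by
  have h1 : R μ T' η x := R_mono_set h fun i hi hiμ => hT i hiμ hi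
  rw [R_iff] at h1 ⊢
  intro η' hη'
  obtain ⟨z, hz, hz'⟩ := h1 η' hη'
  exact ⟨z, hz.congr (fun i _ h => h) (fun i _ => rfl) hx, hz'⟩

theorem R_congr {μ : Ordinal.{0}} {T T' : Set Ordinal.{0}} {η : Ordinal.{0}}
    {x x' : Ordinal.{0} → Ordinal.{0}}
    (hT : ∀ i < μ, (i ∈ T' ↔ i ∈ T)) (hx : ∀ i < μ, x i = x' i) :
    R μ T η x ↔ R μ T' η x' :=
  ⟨R.congr (fun i hi => (hT i hi).mp) hx,
    R.congr (fun i hi => (hT i hi).mpr) fun i hi => (hx i hi).symm⟩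

theorem Stat_congr {μ : Ordinal.{0}} {T T' : Set Ordinal.{0}}
    (hT : ∀ i < μ, (i ∈ T' ↔ i ∈ T)) : Stat T μ ↔ Stat T' μ :=
  ⟨fun h => h.mono fun i hi hiμ => (hT i hiμ).mpr hi,
    fun h => h.mono fun i hi hiμ => (hT i hiμ).mp hi⟩

theorem exists_stC (T : Set Ordinal.{0}) (μ : Ordinal.{0}) :
    ∃ z : ZFSet.{0}, (∀ i < μ, (i ∈ st z ↔ i ∈ T)) ∧ ∀ i ∈ st z, i ∈ T := by
  obtain ⟨z, hz⟩ := exists_st T μ
  refine ⟨z, fun i hi => ?_, fun i hi => ?_⟩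
  · rw [hz]
    exact ⟨fun h => h.1, fun h => ⟨h, hi⟩⟩
  · rw [hz] at hi
    exact hi.1

theorem exists_fnC (x : Ordinal.{0} → Ordinal.{0}) (μ : Ordinal.{0}) :
    ∃ z : ZFSet.{0}, ∀ i < μ, x i = fn z i := by
  obtain ⟨z, hz, -⟩ := exists_fn x μ
  exact ⟨z, fun i hi => (hz i hi).symm⟩

theorem Exact.congr {μ α : Ordinal.{0}} {f f' : Ordinal.{0} → Ordinal.{0}}
    (hf : ∀ i < μ, f i = f' i) (h : Exact μ α f) : Exact μ α f' := by
  refine ⟨h.1.congr (fun i _ h => h) hf, fun T x hT hx => h.2 T x hT ?_⟩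
  exact hx.congr (fun i _ h => h) (fun i _ => rfl) fun i hi => (hf i hi).symm

theorem Small.congr {μ : Ordinal.{0}} {T T' : Set Ordinal.{0}} {ξ : Ordinal.{0}}
    {x x' y y' : Ordinal.{0} → Ordinal.{0}} {η : Ordinal.{0}}
    (hT : ∀ i < μ, i ∈ T → i ∈ T') (hx : ∀ i < μ, x i = x' i) (hy : ∀ i < μ, y i = y' i)
    (h : Small μ T ξ x y η) : Small μ T' ξ x' y' η := by
  obtain ⟨A, hA, h1, h2⟩ := h
  refine ⟨A ∩ Set.Iio μ, fun i hi => hT i hi.2 (hA hi.1), fun h3 => h1 ?_, fun B hB hB' h3 => ?_⟩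
  · exact R.congr (T := A ∩ Set.Iio μ) (fun i hi h => ⟨h, hi⟩) (fun i hi => (hx i hi).symm) h3
  · exact h2 B (fun i hi => (hB hi).1) hB' (h3.congr (fun i _ h => h) fun i hi => (hy i hi).symm)

theorem Small_congr {μ : Ordinal.{0}} {T T' : Set Ordinal.{0}} {ξ : Ordinal.{0}}
    {x x' y y' : Ordinal.{0} → Ordinal.{0}} {η : Ordinal.{0}}
    (hT : ∀ i < μ, (i ∈ T' ↔ i ∈ T)) (hx : ∀ i < μ, x i = x' i) (hy : ∀ i < μ, y i = y' i) :
    Small μ T ξ x y η ↔ Small μ T' ξ x' y' η :=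
  ⟨Small.congr (fun i hi => (hT i hi).mpr) hx hy,
    Small.congr (fun i hi => (hT i hi).mp) (fun i hi => (hx i hi).symm)
      fun i hi => (hy i hi).symm⟩

/-! ### Definability -/

theorem dfn_statC (i j : ℕ) : Dfn (fun v => Stat (st (v i)) (v j).rank) :=
  Dfn.stat (Q := fun a v => a ∈ st (v i)) (dfn_st 0 (i + 1)) j

theorem dfn_subset (i j : ℕ) : Dfn (fun v => ∀ a : Ordinal.{0}, a ∈ st (v i) → a ∈ st (v j)) := by
  refine Dfn.allO ?_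
  exact (dfn_st 0 (i + 1)).imp (dfn_st 0 (j + 1))

theorem dfn_Rsucc (i j k l : ℕ) :
    Dfn (fun v => R (v i).rank (st (v j)) ((v k).rank + 1) (fn (v l))) := by
  have h : Dfn (fun v => ∃ e : ZFSet.{0}, ((v k).rank < e.rank ∧
      ∀ w : ZFSet.{0}, w.rank < e.rank → w.rank ≤ (v k).rank) ∧
      R (v i).rank (st (v j)) e.rank (fn (v l))) := by
    refine Dfn.ex ?_
    refine Dfn.and (Dfn.and (dfn_rank_lt (k + 1) 0) ?_) (dfn_R (i + 1) (j + 1) 0 (l + 1))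
    refine Dfn.all ?_
    exact (dfn_rank_lt 0 1).imp (dfn_rank_le 0 (k + 1 + 1))
  refine h.congr fun v => ?_
  constructor
  · rintro ⟨e, ⟨h1, h2⟩, h3⟩
    have h4 : e.rank = (v k).rank + 1 := by
      apply le_antisymm
      · by_contra h5
        have h6 : (v k).rank + 1 < e.rank := not_le.mp h5
        have h7 := h2 ((v k).rank + 1).toZFSet (by rw [rank_toZFSet]; exact h6)
        rw [rank_toZFSet] at h7
        exact absurd (Order.lt_add_one_iff.mpr (le_refl (v k).rank)) (not_lt.mpr h7)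
      · exact Order.add_one_le_of_lt h1
    rw [h4] at h3
    exact h3
  · intro h1
    refine ⟨((v k).rank + 1).toZFSet, ⟨?_, fun w hw => ?_⟩, ?_⟩
    · rw [rank_toZFSet]
      exact Order.lt_add_one_iff.mpr le_rfl
    · rw [rank_toZFSet] at hw
      exact Order.lt_add_one_iff.mp hw
    · rw [rank_toZFSet]
      exact h1

theorem dfn_exact (i j k : ℕ) : Dfn (fun v => Exact (v i).rank (v j).rank (fn (v k))) := by
  have h : Dfn (fun v => (∃ t : ZFSet.{0}, (∀ a : Ordinal.{0}, a < (v i).rank → a ∈ st t) ∧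
      R (v i).rank (st t) (v j).rank (fn (v k))) ∧
      ∀ t z : ZFSet.{0}, Stat (st t) (v i).rank → LtOn (v i).rank (st t) (fn z) (fn (v k)) →
        ¬ R (v i).rank (st t) (v j).rank (fn z)) := by
    refine Dfn.and (Dfn.ex ?_) (Dfn.all (Dfn.all ?_))
    · refine Dfn.and (Dfn.allO ?_) (dfn_R (i + 1) 0 (j + 1) (k + 1))
      exact (dfn_rank_lt 0 (i + 1 + 1)).imp (dfn_st 0 1)
    · exact (dfn_statC 1 (i + 1 + 1)).imp ((dfn_ltOn (i + 1 + 1) 1 0 (k + 1 + 1)).imp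
        (dfn_R (i + 1 + 1) 1 (j + 1 + 1) 0).not)
  refine h.congr fun v => ?_
  constructor
  · rintro ⟨⟨t, ht, h1⟩, h2⟩
    refine ⟨h1.congr (fun a ha _ => ht a ha) fun _ _ => rfl, fun T x hT hx hR => ?_⟩
    obtain ⟨t', ht', -⟩ := exists_stC T (v i).rank
    obtain ⟨z, hz⟩ := exists_fnC x (v i).rank
    refine h2 t' z ((Stat_congr ht').mp hT) ?_ ((R_congr ht' hz).mp hR)
    exact hx.congr (fun a ha => (ht' a ha).mp) hz fun _ _ => rfl
  · rintro ⟨h1, h2⟩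
    obtain ⟨t, ht, -⟩ := exists_stC Set.univ (v i).rank
    refine ⟨⟨t, fun a ha => (ht a ha).mpr trivial, (R_congr ht fun _ _ => rfl).mp h1⟩, ?_⟩
    exact fun t' z hT hx => h2 (st t') (fn z) hT hx

theorem dfn_small (i j k l m n : ℕ) :
    Dfn (fun v => Small (v i).rank (st (v j)) (v k).rank (fn (v l)) (fn (v m)) (v n).rank) := by
  have h : Dfn (fun v => ∃ A : ZFSet.{0}, (∀ a : Ordinal.{0}, a ∈ st A → a ∈ st (v j)) ∧
      ¬ R (v i).rank (st A) ((v k).rank + 1) (fn (v l)) ∧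
      ∀ B : ZFSet.{0}, (∀ a : Ordinal.{0}, a ∈ st B → a ∈ st A) → Stat (st B) (v i).rank →
        ¬ R (v i).rank (st B) (v n).rank (fn (v m))) := by
    refine Dfn.ex (Dfn.and (dfn_subset 0 (j + 1)) (Dfn.and
      (dfn_Rsucc (i + 1) 0 (k + 1) (l + 1)).not (Dfn.all ?_)))
    exact (dfn_subset 0 1).imp ((dfn_statC 0 (i + 1 + 1)).imp
      (dfn_R (i + 1 + 1) 0 (n + 1 + 1) (m + 1 + 1)).not)
  refine h.congr fun v => ?_
  constructor
  · rintro ⟨A, h1, h2, h3⟩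
    refine ⟨st A, fun a ha => h1 a ha, h2, fun B hB hB' hR => ?_⟩
    obtain ⟨b, hb, hb'⟩ := exists_stC B (v i).rank
    exact h3 b (fun a ha => hB (hb' a ha)) ((Stat_congr hb).mp hB')
      ((R_congr hb fun _ _ => rfl).mp hR)
  · rintro ⟨A, h1, h2, h3⟩
    obtain ⟨a, ha, ha'⟩ := exists_stC A (v i).rank
    refine ⟨a, fun b hb => h1 (ha' b hb), fun hR => h2 ((R_congr ha fun _ _ => rfl).mpr hR),
      fun B hB hB' => h3 (st B) (fun b hb => ha' b (hB b hb)) hB'⟩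

theorem dfn_cond (c : Fm × ℕ) (i j k l : ℕ) :
    Dfn (fun v => ∀ a : Ordinal.{0}, a ∈ st (v j) → a < (v i).rank →
      HasB c (fn (v k) a) ∧ fn (v l) a < rho c (fn (v k) a)) := by
  have h : Dfn (fun v => ∀ a : Ordinal.{0}, a ∈ st (v j) → a < (v i).rank →
      ∃ b d e : Ordinal.{0}, (fn (v k) a = b ∧ fn (v l) a = d) ∧ (rho c b = e ∧ HasB c b) ∧
        d < e) := by
    refine Dfn.allO ((dfn_st 0 (j + 1)).imp ((dfn_rank_lt 0 (i + 1)).imp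
      (Dfn.exO (Dfn.exO (Dfn.exO ?_)))))
    exact ((dfn_fn (k + 1 + 1 + 1 + 1) 3 2).and (dfn_fn (l + 1 + 1 + 1 + 1) 3 1)).and
      (((dfn_rho c 2 0).and (dfn_hasB c 2)).and (dfn_rank_lt 1 0))
  refine h.congr fun v => ?_
  constructor
  · intro h1 a ha ha'
    obtain ⟨b, d, e, ⟨rfl, rfl⟩, ⟨rfl, h2⟩, h3⟩ := h1 a ha ha'
    exact ⟨h2, h3⟩
  · intro h1 a ha ha'
    exact ⟨_, _, _, ⟨rfl, rfl⟩, ⟨rfl, (h1 a ha ha').1⟩, (h1 a ha ha').2⟩

theorem dfn_comp (c : Fm × ℕ) (i k l m : ℕ) :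
    Dfn (fun v => ∀ a : Ordinal.{0}, a < (v i).rank →
      kk c (fn (v k) a) (fn (v l) a) = fn (v m) a) := by
  have h : Dfn (fun v => ∀ a : Ordinal.{0}, a < (v i).rank →
      ∃ b d e : Ordinal.{0}, (fn (v k) a = b ∧ fn (v l) a = d) ∧ (fn (v m) a = e ∧
        kk c b d = e)) := by
    refine Dfn.allO ((dfn_rank_lt 0 (i + 1)).imp (Dfn.exO (Dfn.exO (Dfn.exO ?_))))
    exact ((dfn_fn (k + 1 + 1 + 1 + 1) 3 2).and (dfn_fn (l + 1 + 1 + 1 + 1) 3 1)).and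
      ((dfn_fn (m + 1 + 1 + 1 + 1) 3 0).and (dfn_kk c 2 1 0))
  refine h.congr fun v => ?_
  constructor
  · intro h1 a ha
    obtain ⟨b, d, e, ⟨rfl, rfl⟩, h2, h3⟩ := h1 a ha
    rw [h3, h2]
  · intro h1 a ha
    exact ⟨_, _, _, ⟨rfl, rfl⟩, rfl, h1 a ha⟩

theorem dfn_EE (c : Fm × ℕ) (i j k l : ℕ) :
    Dfn (fun v => EE (v i).rank (v j).rank (HasB c) (rho c) (kk c) (v k).rank (v l).rank) := by
  have h : Dfn (fun v => ∃ f T x y : ZFSet.{0},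
      (Exact (v i).rank (v j).rank (fn f) ∧ Stat (st T) (v i).rank) ∧
      ((∀ a : Ordinal.{0}, a ∈ st T → a < (v i).rank →
        HasB c (fn f a) ∧ fn x a < rho c (fn f a)) ∧
      (∀ a : Ordinal.{0}, a < (v i).rank → kk c (fn f a) (fn x a) = fn y a)) ∧
      (R (v i).rank (st T) (v k).rank (fn x) ∧
      ¬ R (v i).rank (st T) ((v k).rank + 1) (fn x)) ∧
      Small (v i).rank (st T) (v k).rank (fn x) (fn y) (v l).rank ∧
      ∀ η' : Ordinal.{0}, η' < (v l).rank →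
        ¬ Small (v i).rank (st T) (v k).rank (fn x) (fn y) η') := by
    refine Dfn.ex (Dfn.ex (Dfn.ex (Dfn.ex ?_)))
    refine Dfn.and ((dfn_exact (i + 1 + 1 + 1 + 1) (j + 1 + 1 + 1 + 1) 3).and
      (dfn_statC 2 (i + 1 + 1 + 1 + 1))) (Dfn.and
      ((dfn_cond c (i + 1 + 1 + 1 + 1) 2 3 1).and (dfn_comp c (i + 1 + 1 + 1 + 1) 3 1 0))
      (Dfn.and ((dfn_R (i + 1 + 1 + 1 + 1) 2 (k + 1 + 1 + 1 + 1) 1).and
        (dfn_Rsucc (i + 1 + 1 + 1 + 1) 2 (k + 1 + 1 + 1 + 1) 1).not) (Dfn.and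
        (dfn_small (i + 1 + 1 + 1 + 1) 2 (k + 1 + 1 + 1 + 1) 1 0 (l + 1 + 1 + 1 + 1))
        (Dfn.allO ?_))))
    exact (dfn_rank_lt 0 (l + 1 + 1 + 1 + 1 + 1)).imp
      (dfn_small (i + 1 + 1 + 1 + 1 + 1) 3 (k + 1 + 1 + 1 + 1 + 1) 2 1 0).not
  refine h.congr fun v => ?_
  constructor
  · rintro ⟨f, T, x, y, ⟨h1, h2⟩, ⟨h3, h4⟩, ⟨h5, h6⟩, h7, h8⟩
    refine ⟨fn f, st T, fn x, h1, h2, h3, h5, h6, ?_, fun η' hη' h9 => h8 η' hη' ?_⟩
    · exact (Small_congr (fun _ _ => Iff.rfl) (fun _ _ => rfl) fun a ha => (h4 a ha)).mpr h7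
    · exact (Small_congr (fun _ _ => Iff.rfl) (fun _ _ => rfl) fun a ha => (h4 a ha)).mp h9
  · rintro ⟨f, T, x, h1, h2, h3, h4, h5, h6, h7⟩
    obtain ⟨F, hF⟩ := exists_fnC f (v i).rank
    obtain ⟨X, hX⟩ := exists_fnC x (v i).rank
    obtain ⟨t, ht, ht'⟩ := exists_stC T (v i).rank
    obtain ⟨Y, hY⟩ := exists_fnC (fun a => kk c (f a) (x a)) (v i).rank
    refine ⟨F, t, X, Y, ⟨h1.congr hF, (Stat_congr ht).mp h2⟩, ⟨fun a ha ha' => ?_, fun a ha => ?_⟩,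
      ⟨(R_congr ht hX).mp h4, fun h8 => h5 ((R_congr ht hX).mpr h8)⟩,
      (Small_congr ht hX hY).mp h6, fun η' hη' h8 => h7 η' hη' ((Small_congr ht hX hY).mpr h8)⟩
    · rw [← hF a ha', ← hX a ha']
      exact h3 a (ht' a ha) ha'
    · rw [← hF a ha, ← hX a ha]
      exact hY a ha

theorem ODRel_EE (μ α : Ordinal.{0}) (c : Fm × ℕ) :
    ODRel (EE μ α (HasB c) (rho c) (kk c)) := by
  refine ⟨fun v => EE (v 2).rank (v 3).rank (HasB c) (rho c) (kk c) (v 0).rank (v 1).rank,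
    fun k => if k = 0 then μ else α, dfn_EE c 2 3 0 1, fun a b => ?_⟩
  simp [cons]

end Pool.Agent.Helper73.HODC
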