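import Mathlib

/-!
# Ordinal definability over `ZFSet`, clubs, and omega-strongly measurable cardinals in HOD

We work with Mathlib's `ZFSet.{0}` and `Ordinal.{0}`: a model of ZFC with its ordinals.
-/

namespace Pool.Agent.Helper73.HODC

open Ordinal Cardinal ZFSet Order

/-! ### Closed unbounded and stationary sets of ordinals -/

/-- `C` is unbounded below `κ`. -/
def UnbIn (C : Set Ordinal.{0}) (κ : Ordinal.{0}) : Prop := ∀ a < κ, ∃ b ∈ C, a < b ∧ b < κ

/-- `C ∩ κ` is closed and unbounded in `κ`. -/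
def Club (C : Set Ordinal.{0}) (κ : Ordinal.{0}) : Prop :=
  UnbIn C κ ∧ ∀ a < κ, a ≠ 0 → UnbIn C a → a ∈ C

/-- `S ∩ κ` is stationary in `κ`: it meets every closed unbounded subset of `κ`. -/
def Stat (S : Set Ordinal.{0}) (κ : Ordinal.{0}) : Prop :=
  ∀ C : Set Ordinal.{0}, Club C κ → ∃ a ∈ S, a ∈ C ∧ a < κ

/-! ### Formulas of set theory, satisfaction, ordinal definability, HOD -/

/-- Formulas of the language of set theory; variables are de Bruijn indices. -/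
inductive Fm : Type
  | mem (i j : ℕ) : Fm
  | eq (i j : ℕ) : Fm
  | neg (φ : Fm) : Fm
  | and (φ ψ : Fm) : Fm
  | all (φ : Fm) : Fm

/-- the assignment `x, v 0, v 1, ...` -/
def cons (x : ZFSet.{0}) (v : ℕ → ZFSet.{0}) : ℕ → ZFSet.{0}
  | 0 => x
  | n + 1 => v n

/-- Satisfaction of a formula in the structure `(M, ∈)` under the assignment `v`. -/
def Sat (M : Set ZFSet.{0}) : Fm → (ℕ → ZFSet.{0}) → Prop
  | .mem i j, v => v i ∈ v j
  | .eq i j, v => v i = v j
  | .neg φ, v => ¬ Sat M φ v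
  | .and φ ψ, v => Sat M φ v ∧ Sat M ψ v
  | .all φ, v => ∀ x ∈ M, Sat M φ (cons x v)

/-- `x` is ordinal definable: for some ordinal `θ`, some formula `φ` and some ordinals
`p 0, p 1, ... < θ`, the set `x` is the only element `y` of `V_θ` such that
`(V_θ, ∈) ⊨ φ(y, p 0, p 1, ...)`. (The formula `φ` contains only finitely many variables.) -/
def OD (x : ZFSet.{0}) : Prop :=
  ∃ (θ : Ordinal.{0}) (φ : Fm) (p : ℕ → Ordinal.{0}), (∀ k, p k < θ) ∧ x ∈ V_ θ ∧
    ∀ y ∈ V_ θ, Sat {z | z ∈ V_ θ} φ (cons y (fun k => (p k).toZFSet)) ↔ y = x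

/-- `x` is hereditarily ordinal definable. -/
inductive HOD : ZFSet.{0} → Prop
  | intro (x : ZFSet.{0}) (h : OD x) (h' : ∀ y ∈ x, HOD y) : HOD x

/-- The function `{(a, f a) : a < ρ}` as a set of ordered pairs of von Neumann ordinals. -/
noncomputable def graph (ρ : Ordinal.{0}) (f : Ordinal.{0} → Ordinal.{0}) : ZFSet.{0} :=
  ZFSet.range (fun a : Set.Iio ρ => ZFSet.pair a.1.toZFSet (f a.1).toZFSet)

/-- The limit ordinal `α` is singular in HOD: there are `ρ < α` and a function `f : ρ → α`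
in HOD with range cofinal in `α`. -/
def HODSing (α : Ordinal.{0}) : Prop :=
  IsSuccLimit α ∧ ∃ ρ < α, ∃ f : Ordinal.{0} → Ordinal.{0}, (∀ ξ < ρ, f ξ < α) ∧
    (∀ β < α, ∃ ξ < ρ, β ≤ f ξ) ∧ HOD (graph ρ f)

/-- The ordinals of cofinality `ω` (in `V`) which are regular in HOD. -/
def regPts : Set Ordinal.{0} := {α | α.cof = ℵ₀ ∧ ¬ HODSing α}

/-! ### Cardinals which are omega-strongly measurable in HOD -/

/-- the set `{a < lam : a ∈ A}` of von Neumann ordinals -/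
noncomputable def ordSet (lam : Ordinal.{0}) (A : Set Ordinal.{0}) : ZFSet.{0} :=
  ZFSet.sep (fun z => z.rank ∈ A) lam.toZFSet

/-- the sequence `⟨S ξ ∩ lam : ξ < κ⟩` as a set of ordered pairs -/
noncomputable def seqSet (κ lam : Ordinal.{0}) (S : Ordinal.{0} → Set Ordinal.{0}) : ZFSet.{0} :=
  ZFSet.range (fun ξ : Set.Iio κ => ZFSet.pair ξ.1.toZFSet (ordSet lam (S ξ.1)))

/-- the power set of `κ` in HOD -/
noncomputable def hodPow (κ : Ordinal.{0}) : ZFSet.{0} :=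
  ZFSet.sep HOD (powerset κ.toZFSet)

/-- `(2 ^ κ)` computed in HOD is less than `lam`: for some `β < lam` there is in HOD an injection
of the power set of `κ` (in HOD) into `β`. -/
def HODPowLt (κ lam : Ordinal.{0}) : Prop :=
  ∃ β < lam, ∃ e : ZFSet.{0} → Ordinal.{0}, (∀ x ∈ hodPow κ, e x < β) ∧
    (∀ x ∈ hodPow κ, ∀ y ∈ hodPow κ, e x = e y → x = y) ∧
    HOD (ZFSet.range (fun x : {x : ZFSet.{0} // x ∈ hodPow κ} => ZFSet.pair x.1 (e x.1).toZFSet))

/-- HOD contains a partition `⟨S ξ : ξ < κ⟩` of `{α < lam : cf α = ω}` into sets which are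
stationary in `lam` (in `V`). -/
def HODSplits (κ lam : Ordinal.{0}) : Prop :=
  ∃ S : Ordinal.{0} → Set Ordinal.{0},
    (∀ ξ < κ, Stat (S ξ) lam) ∧ (∀ ξ < κ, ∀ a ∈ S ξ, a < lam ∧ a.cof = ℵ₀) ∧
    (∀ a < lam, a.cof = ℵ₀ → ∃ ξ < κ, a ∈ S ξ) ∧
    (∀ ξ < κ, ∀ η < κ, ∀ a, a ∈ S ξ → a ∈ S η → ξ = η) ∧ HOD (seqSet κ lam S)

/-- `lam` is omega-strongly measurable in HOD: for some nonzero cardinal `κ < lam` with
`(2 ^ κ)` of HOD less than `lam`, HOD contains no partition of `{α < lam : cf α = ω}` into `κ`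
stationary sets. -/
def OmegaStronglyMeasurable (lam : Ordinal.{0}) : Prop :=
  ∃ κ : Cardinal.{0}, κ ≠ 0 ∧ κ.ord < lam ∧ HODPowLt κ.ord lam ∧ ¬ HODSplits κ.ord lam

end Pool.Agent.Helper73.HODC
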