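import Pool.Agent.Helper73.HODC.Defs

/-!
# Auxiliary definitions for the proof
-/

namespace Pool.Agent.Helper73.HODC

open Ordinal Cardinal ZFSet Order

/-! ### Definability over `(V, ∈)` -/

/-- A predicate on assignments is definable over `(V, ∈)` (without parameters). -/
def Dfn (P : (ℕ → ZFSet.{0}) → Prop) : Prop :=
  ∃ φ : Fm, ∀ v, Sat Set.univ φ v ↔ P v

/-- the set of ordinals coded by a set: the ranks of its elements -/
def st (x : ZFSet.{0}) : Set Ordinal.{0} := {a | ∃ z ∈ x, z.rank = a}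

/-- the function coded by a set: `fn x a = b` where `b` is the least rank of some `w` with
`(u, w) ∈ x` for some `u` of rank `a` (and `0` if there is none) -/
noncomputable def fn (x : ZFSet.{0}) (a : Ordinal.{0}) : Ordinal.{0} :=
  sInf {b | ∃ u w : ZFSet.{0}, ZFSet.pair u w ∈ x ∧ u.rank = a ∧ w.rank = b}

/-- A binary relation between ordinals is definable from ordinal parameters. -/
def ODRel (Q : Ordinal.{0} → Ordinal.{0} → Prop) : Prop :=
  ∃ (P : (ℕ → ZFSet.{0}) → Prop) (p : ℕ → Ordinal.{0}), Dfn P ∧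
    ∀ a b, Q a b ↔ P (cons a.toZFSet (cons b.toZFSet (fun k => (p k).toZFSet)))

/-- `b` is the `a`-th element of `Γ` in increasing order -/
def Enum (Γ : Set Ordinal.{0}) (a b : Ordinal.{0}) : Prop :=
  b ∈ Γ ∧ ∃ g : Ordinal.{0} → Ordinal.{0}, (∀ x < a, g x ∈ Γ ∧ g x < b) ∧
    (∀ x < a, ∀ y < a, x < y → g x < g y) ∧ ∀ z ∈ Γ, z < b → ∃ x < a, g x = z

/-! ### The canonical choice of a function witnessing singularity in HOD -/

/-- lexicographic comparison of the first `m` coordinates -/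
def LexLe (m : ℕ) (q q' : ℕ → Ordinal.{0}) : Prop :=
  ∀ j < m, (∀ i < j, q i = q' i) → q j ≤ q' j

/-- parameters: `q 1, ..., q m`, then zeros -/
noncomputable def par (m : ℕ) (q : ℕ → Ordinal.{0}) (k : ℕ) : Ordinal.{0} :=
  if k < m then q (k + 1) else 0

/-- the function `f : ρ → γ` is cofinal in `γ`, `ρ < γ`, and is defined over `V_(q 0)` by the
formula `c.1` with the parameters `q 1, ..., q c.2` -/
def SingBy (c : Fm × ℕ) (γ ρ : Ordinal.{0}) (f : Ordinal.{0} → Ordinal.{0})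
    (q : ℕ → Ordinal.{0}) : Prop :=
  ρ < γ ∧ (∀ ξ < ρ, f ξ < γ) ∧ (∀ β < γ, ∃ ξ < ρ, β ≤ f ξ) ∧
    (∀ k, par c.2 q k < q 0) ∧ graph ρ f ∈ V_ (q 0) ∧
    ∀ y ∈ V_ (q 0), Sat {z | z ∈ V_ (q 0)} c.1 (cons y (fun k => (par c.2 q k).toZFSet)) ↔
      y = graph ρ f

/-- `f : ρ → γ` is the cofinal function given by the lexicographically least tuple `q` -/
def Best (c : Fm × ℕ) (γ ρ : Ordinal.{0}) (f : Ordinal.{0} → Ordinal.{0}) : Prop :=
  ∃ q, SingBy c γ ρ f q ∧ ∀ ρ' f' q', SingBy c γ ρ' f' q' → LexLe (c.2 + 1) q q'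

/-- `γ` has a cofinal function given by `c` -/
def HasB (c : Fm × ℕ) (γ : Ordinal.{0}) : Prop := ∃ ρ f, Best c γ ρ f

open Classical in
/-- the domain of the chosen cofinal function -/
noncomputable def rho (c : Fm × ℕ) (γ : Ordinal.{0}) : Ordinal.{0} :=
  if h : HasB c γ then h.choose else 0

open Classical in
/-- the chosen cofinal function -/
noncomputable def kk (c : Fm × ℕ) (γ ξ : Ordinal.{0}) : Ordinal.{0} :=
  if h : HasB c γ then (if ξ < rho c γ then h.choose_spec.choose ξ else 0) else 0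

/-! ### The rank relation modulo the nonstationary ideal on `μ` -/

/-- `x i < y i` for almost all `i ∈ T` -/
def LtOn (μ : Ordinal.{0}) (T : Set Ordinal.{0}) (x y : Ordinal.{0} → Ordinal.{0}) : Prop :=
  ∃ C, Club C μ ∧ ∀ i ∈ C, i < μ → i ∈ T → x i < y i

/-- `x i ≤ y i` for almost all `i ∈ T` -/
def LeOn (μ : Ordinal.{0}) (T : Set Ordinal.{0}) (x y : Ordinal.{0} → Ordinal.{0}) : Prop :=
  ∃ C, Club C μ ∧ ∀ i ∈ C, i < μ → i ∈ T → x i ≤ y i

/-- `R μ T η x`: the rank of `x` in the order `LtOn μ T` is at least `η`. -/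
def R (μ : Ordinal.{0}) (T : Set Ordinal.{0}) (η : Ordinal.{0}) (x : Ordinal.{0} → Ordinal.{0}) :
    Prop :=
  ∀ η' : Set.Iio η, ∃ z : Ordinal.{0} → Ordinal.{0}, LtOn μ T z x ∧ R μ T η'.1 z
termination_by η
decreasing_by exact η'.2

/-- `f` is (modulo the nonstationary ideal) the least function of rank at least `α` -/
def Exact (μ α : Ordinal.{0}) (f : Ordinal.{0} → Ordinal.{0}) : Prop :=
  R μ Set.univ α f ∧ ∀ T x, Stat T μ → LtOn μ T x f → ¬ R μ T α x

/-- some subset of `T` which is positive for the ideal of `x` and `ξ` has the property that `y`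
has rank less than `η` on each of its stationary subsets -/
def Small (μ : Ordinal.{0}) (T : Set Ordinal.{0}) (ξ : Ordinal.{0})
    (x y : Ordinal.{0} → Ordinal.{0}) (η : Ordinal.{0}) : Prop :=
  ∃ A ⊆ T, ¬ R μ A (ξ + 1) x ∧ ∀ B ⊆ A, Stat B μ → ¬ R μ B η y

/-- the relation which yields a short cofinal subset of `α` in HOD -/
def EE (μ α : Ordinal.{0}) (P : Ordinal.{0} → Prop) (rh : Ordinal.{0} → Ordinal.{0})
    (k : Ordinal.{0} → Ordinal.{0} → Ordinal.{0}) (ξ η : Ordinal.{0}) : Prop :=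
  ∃ (f : Ordinal.{0} → Ordinal.{0}) (T : Set Ordinal.{0}) (x : Ordinal.{0} → Ordinal.{0}),
    Exact μ α f ∧ Stat T μ ∧ (∀ i ∈ T, i < μ → P (f i) ∧ x i < rh (f i)) ∧
    R μ T ξ x ∧ ¬ R μ T (ξ + 1) x ∧ Small μ T ξ x (fun i => k (f i) (x i)) η ∧
    ∀ η' < η, ¬ Small μ T ξ x (fun i => k (f i) (x i)) η'

/-! ### The setting of the combinatorial part -/

/-- `lam` is a cardinal of cofinality `m`, uncountable, and `δ i`, `i < m.ord`, is an increasing
continuous cofinal sequence of cardinals in `lam`. -/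
structure Setting (lam m : Cardinal.{0}) (δ : Ordinal.{0} → Cardinal.{0}) : Prop where
  reg : m.IsRegular
  unc : ℵ₀ < m
  lt : ∀ i < m.ord, δ i < lam
  mono : ∀ i j, i < j → j < m.ord → δ i < δ j
  cont : ∀ j < m.ord, IsSuccLimit j → ∀ c < δ j, ∃ i < j, c < δ i
  cofinal : ∀ c < lam, ∃ i < m.ord, c < δ i
  big : m < δ 0
  pow : ∀ c < lam, c ^ m < lam
  pow2 : (2 : Cardinal.{0}) ^ ((2 : Cardinal.{0}) ^ m) < lam

/-- the approximations of an ordinal `α` of cofinality `ω` by functions of smaller rank -/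
structure Appr (μ α : Ordinal.{0}) (f : Ordinal.{0} → Ordinal.{0})
    (G : ℕ → Ordinal.{0} → Ordinal.{0}) (r : ℕ → Ordinal.{0}) : Prop where
  r_lt : ∀ n, r n < α
  bdd : ∀ n T, Stat T μ → ¬ R μ T (r n) (G n)
  unb : ∀ β < α, ∃ n, R μ Set.univ β (G n)
  sup : ∃ C, Club C μ ∧ ∀ i ∈ C, i < μ → (∀ n, G n i < f i) ∧ ∀ y < f i, ∃ n, y < G n i

end Pool.Agent.Helper73.HODC
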