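import Pool.Agent.Helper73.HODC.Rank

/-!
# Combinatorics of the relation `EE`
-/

namespace Pool.Agent.Helper73.HODC

open Ordinal Cardinal ZFSet Order

theorem ex_cof_reg {m : Cardinal.{0}} (hm : m.IsRegular) (hm' : ℵ₀ < m) : ℵ₀ < m.ord.cof := by
  rw [hm.cof_ord]
  exact hm'

theorem ex_limit_reg {m : Cardinal.{0}} (hm : m.IsRegular) : IsSuccLimit m.ord := by
  rw [← one_lt_cof_iff, hm.cof_ord]
  exact Cardinal.one_lt_aleph0.trans_le hm.aleph0_le

theorem ex_ltOn {m : Cardinal.{0}} (hm : m.IsRegular) {T : Set Ordinal.{0}}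
    {x y : Ordinal.{0} → Ordinal.{0}} (h : ∀ i ∈ T, i < m.ord → x i < y i) :
    LtOn m.ord T x y :=
  ⟨Set.univ, club_univ (ex_limit_reg hm), fun i _ hi hiT => h i hiT hi⟩

theorem ex_leOn {m : Cardinal.{0}} (hm : m.IsRegular) {T : Set Ordinal.{0}}
    {x y : Ordinal.{0} → Ordinal.{0}} (h : ∀ i ∈ T, i < m.ord → x i ≤ y i) :
    LeOn m.ord T x y :=
  ⟨Set.univ, club_univ (ex_limit_reg hm), fun i _ hi hiT => h i hiT hi⟩

theorem exact_of_appr {m : Cardinal.{0}} (hm : m.IsRegular) (hm' : ℵ₀ < m) {α : Ordinal.{0}}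
    {f : Ordinal.{0} → Ordinal.{0}} {G : ℕ → Ordinal.{0} → Ordinal.{0}} {r : ℕ → Ordinal.{0}}
    (hA : Appr m.ord α f G r) : Exact m.ord α f := by
  obtain ⟨C, hC, h⟩ := hA.sup
  constructor
  · rw [R_iff]
    intro β hβ
    obtain ⟨n, hn⟩ := hA.unb β hβ
    exact ⟨G n, ⟨C, hC, fun i hi hiμ _ => (h i hi hiμ).1 n⟩, hn⟩
  · intro T x hT hx hR
    obtain ⟨C', hC', h'⟩ := hx
    have hT2 : Stat (T ∩ (C ∩ C')) m.ord :=
      hT.inter_club (ex_cof_reg hm hm') (hC.inter (ex_cof_reg hm hm') hC')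
    obtain ⟨n, hn⟩ := stat_of_iUnion (ex_cof_reg hm hm') hT2 (A := fun n => {i | x i < G n i})
      (fun a ha haμ => (h a ha.2.1 haμ).2 (x a) (h' a ha.2.2 haμ ha.1))
    have h1 : R m.ord (T ∩ (C ∩ C') ∩ {i | x i < G n i}) α x :=
      R_mono_set hR (fun i hi _ => hi.1.1)
    have h2 : R m.ord (T ∩ (C ∩ C') ∩ {i | x i < G n i}) (r n) x :=
      R_anti h1 (hA.r_lt n).le
    exact hA.bdd n _ hn (R_mono hm hm' h2 (ex_leOn hm (fun i hi _ => le_of_lt hi.2)))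

theorem exact_not_stat {m : Cardinal.{0}} (hm : m.IsRegular) {α : Ordinal.{0}}
    {f f' : Ordinal.{0} → Ordinal.{0}} (h : Exact m.ord α f) (h' : Exact m.ord α f') :
    ¬ Stat {i | f i < f' i} m.ord := by
  intro hs
  exact h'.2 _ f hs (ex_ltOn hm (fun i hi _ => hi)) (R_mono_set h.1 (fun i _ _ => trivial))

theorem exact_ne_not_stat {m : Cardinal.{0}} (hm : m.IsRegular) (hm' : ℵ₀ < m) {α : Ordinal.{0}}
    {f f' : Ordinal.{0} → Ordinal.{0}} (h : Exact m.ord α f) (h' : Exact m.ord α f') :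
    ¬ Stat {i | f i ≠ f' i} m.ord := by
  intro hs
  obtain ⟨b, hb⟩ := stat_of_iUnion (ι := Bool) (ex_cof_reg hm hm') hs
    (A := fun b => if b then {i | f i < f' i} else {i | f' i < f i}) (by
      intro i hi _
      rcases lt_or_gt_of_ne hi with h1 | h1
      · exact ⟨true, by simpa using h1⟩
      · exact ⟨false, by simpa using h1⟩)
  cases b with
  | true =>
    exact exact_not_stat hm h h' (hb.mono (fun i hi _ => by simpa using hi.2))
  | false =>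
    exact exact_not_stat hm h' h (hb.mono (fun i hi _ => by simpa using hi.2))

theorem small_transfer {m : Cardinal.{0}} (hm : m.IsRegular) (hm' : ℵ₀ < m) {α : Ordinal.{0}}
    {f f' f₀ : Ordinal.{0} → Ordinal.{0}} {T T' : Set Ordinal.{0}} {ξ η : Ordinal.{0}}
    {x x' : Ordinal.{0} → Ordinal.{0}} {k : Ordinal.{0} → Ordinal.{0} → Ordinal.{0}}
    (hf : Exact m.ord α f) (hf₀ : Exact m.ord α f₀)
    (hR : R m.ord T ξ x) (hR' : R m.ord T' ξ x')
    (hT : ∀ i < m.ord, (i ∈ T ∧ f i = f₀ i) ↔ (i ∈ T' ∧ f' i = f₀ i))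
    (hJ : ∀ A ⊆ {i | i < m.ord ∧ i ∈ T ∧ f i = f₀ i},
      R m.ord A (ξ + 1) x ↔ R m.ord A (ξ + 1) x')
    (hs : Small m.ord T ξ x (fun i => k (f i) (x i)) η) :
    Small m.ord T' ξ x' (fun i => k (f' i) (x' i)) η := by
  obtain ⟨A, hAT, hA, hB⟩ := hs
  set U : Set Ordinal.{0} := {i | i < m.ord ∧ i ∈ T ∧ f i = f₀ i} with hU
  set N : Set Ordinal.{0} := {i | i ∈ U ∧ x i < x' i} with hN
  set N' : Set Ordinal.{0} := {i | i ∈ U ∧ x' i < x i} with hN'
  set A' : Set Ordinal.{0} := {i | i ∈ A ∧ i ∈ U ∧ x i = x' i} with hA'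
  have h1 : R m.ord N (ξ + 1) x := by
    rw [hJ N (fun i hi => hi.1)]
    exact R_succ (R_mono_set hR (fun i hi _ => hi.1.2.1)) (ex_ltOn hm (fun i hi _ => hi.2))
  have h2 : R m.ord N' (ξ + 1) x := by
    refine R_succ (R_mono_set hR' (fun i hi hiμ => ?_)) (ex_ltOn hm (fun i hi _ => hi.2))
    exact ((hT i hiμ).1 hi.1.2).1
  have h3 : R m.ord {i | f i ≠ f₀ i} (ξ + 1) x :=
    R_of_not_stat (exact_ne_not_stat hm hm' hf hf₀) _ _
  have h4 : ¬ R m.ord A' (ξ + 1) x := by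
    intro h5
    apply hA
    refine R_iUnion hm hm' (A := fun n => if n = 0 then A' else if n = 1 then N else
      if n = 2 then N' else {i | f i ≠ f₀ i}) ?_ ⟨Set.univ, club_univ (ex_limit_reg hm), ?_⟩
    · intro n
      split_ifs
      · exact h5
      · exact h1
      · exact h2
      · exact h3
    · intro i _ hiμ hiA
      by_cases hfi : f i = f₀ i
      · have hiU : i ∈ U := ⟨hiμ, hAT hiA, hfi⟩
        rcases lt_trichotomy (x i) (x' i) with h6 | h6 | h6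
        · exact ⟨1, by simpa using ⟨hiU, h6⟩⟩
        · exact ⟨0, by simpa using ⟨hiA, hiU, h6⟩⟩
        · exact ⟨2, by simpa using ⟨hiU, h6⟩⟩
      · exact ⟨3, by simpa using hfi⟩
  refine ⟨A', ?_, ?_, ?_⟩
  · intro i hi
    exact ((hT i hi.2.1.1).1 hi.2.1.2).1
  · rw [← hJ A' (fun i hi => hi.2.1)]
    exact h4
  · intro B hBA hBs hBR
    refine hB B (fun i hi => (hBA hi).1) hBs (R_mono hm hm' hBR (ex_leOn hm ?_))
    intro i hi hiμ
    have h5 := hBA hi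
    have h6 : f' i = f i := by
      rw [((hT i hiμ).1 h5.2.1.2).2, h5.2.1.2.2]
    show k (f' i) (x' i) ≤ k (f i) (x i)
    rw [h6, h5.2.2]

theorem EE_card {m : Cardinal.{0}} (hm : m.IsRegular) (hm' : ℵ₀ < m) (α : Ordinal.{0})
    (P : Ordinal.{0} → Prop) (rh : Ordinal.{0} → Ordinal.{0})
    (k : Ordinal.{0} → Ordinal.{0} → Ordinal.{0}) (ξ : Ordinal.{0}) :
    Cardinal.mk {η : Ordinal.{0} // EE m.ord α P rh k ξ η} ≤
      Cardinal.lift.{1} ((2 : Cardinal.{0}) ^ ((2 : Cardinal.{0}) ^ m)) := by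
  classical
  by_cases hne : ∃ f₀, Exact m.ord α f₀
  swap
  · have : IsEmpty {η : Ordinal.{0} // EE m.ord α P rh k ξ η} :=
      ⟨fun η => hne ⟨_, η.2.choose_spec.choose_spec.choose_spec.1⟩⟩
    rw [Cardinal.mk_eq_zero]
    exact bot_le
  obtain ⟨f₀, hf₀⟩ := hne
  have hch : ∀ η : {η : Ordinal.{0} // EE m.ord α P rh k ξ η}, ∃ (f : Ordinal.{0} → Ordinal.{0})
      (T : Set Ordinal.{0}) (x : Ordinal.{0} → Ordinal.{0}), Exact m.ord α f ∧ R m.ord T ξ x ∧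
      Small m.ord T ξ x (fun i => k (f i) (x i)) η.1 ∧
      ∀ η' < η.1, ¬ Small m.ord T ξ x (fun i => k (f i) (x i)) η' := by
    rintro ⟨η, f, T, x, h1, _, _, h4, _, h6, h7⟩
    exact ⟨f, T, x, h1, h4, h6, h7⟩
  choose f T x h1 h2 h3 h4 using hch
  let T' : {η : Ordinal.{0} // EE m.ord α P rh k ξ η} → Set (Set.Iio m.ord) :=
    fun η => {i | i.1 ∈ T η ∧ f η i.1 = f₀ i.1}
  let J : {η : Ordinal.{0} // EE m.ord α P rh k ξ η} → Set (Set (Set.Iio m.ord)) :=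
    fun η => {A | A ⊆ T' η ∧ R m.ord (Subtype.val '' A) (ξ + 1) (x η)}
  have hinj : Function.Injective (fun η => (T' η, J η)) := by
    have key : ∀ η η', (T' η, J η) = (T' η', J η') → ¬ η.1 < η'.1 := by
      intro η η' heq hlt
      have hT : T' η = T' η' := congrArg Prod.fst heq
      have hJ : J η = J η' := congrArg Prod.snd heq
      refine h4 η' η.1 hlt (small_transfer hm hm' (h1 η) hf₀ (h2 η) (h2 η') ?_ ?_ (h3 η))
      · intro i hi
        have := Set.ext_iff.1 hT ⟨i, hi⟩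
        exact this
      · intro A hA
        have hA' : ∃ B : Set (Set.Iio m.ord), Subtype.val '' B = A := by
          refine ⟨Subtype.val ⁻¹' A, ?_⟩
          rw [Subtype.image_preimage_coe]
          exact Set.inter_eq_right.2 (fun i hi => (hA hi).1)
        obtain ⟨B, rfl⟩ := hA'
        have hB : B ⊆ T' η := by
          intro i hi
          exact (hA ⟨i, hi, rfl⟩).2
        have := Set.ext_iff.1 hJ B
        constructor
        · intro h
          exact (this.1 ⟨hB, h⟩).2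
        · intro h
          exact (this.2 ⟨hT ▸ hB, h⟩).2
    intro η η' heq
    apply Subtype.ext
    apply le_antisymm
    · exact not_lt.1 (key η' η heq.symm)
    · exact not_lt.1 (key η η' heq)
  refine (Cardinal.mk_le_of_injective hinj).trans ?_
  rw [Cardinal.mk_prod, Cardinal.lift_id, Cardinal.lift_id, Cardinal.mk_set, Cardinal.mk_set,
    Cardinal.mk_set, Cardinal.mk_Iio_ordinal, Cardinal.card_ord]
  have h5 : (2 : Cardinal.{1}) ^ Cardinal.lift.{1} m * 2 ^ ((2 : Cardinal.{1}) ^ Cardinal.lift.{1} m)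
      = Cardinal.lift.{1} ((2 : Cardinal.{0}) ^ m * 2 ^ ((2 : Cardinal.{0}) ^ m)) := by
    simp
  rw [h5, Cardinal.lift_le]
  have h6 : ℵ₀ ≤ (2 : Cardinal.{0}) ^ m := hm.aleph0_le.trans (Cardinal.cantor m).le
  calc (2 : Cardinal.{0}) ^ m * 2 ^ ((2 : Cardinal.{0}) ^ m)
      ≤ 2 ^ ((2 : Cardinal.{0}) ^ m) * 2 ^ ((2 : Cardinal.{0}) ^ m) :=
        mul_le_mul_left (Cardinal.cantor _).le _
    _ = 2 ^ ((2 : Cardinal.{0}) ^ m) :=
        Cardinal.mul_eq_self (h6.trans (Cardinal.cantor _).le)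

theorem EE_unb {m : Cardinal.{0}} (hm : m.IsRegular) (hm' : ℵ₀ < m) {α : Ordinal.{0}}
    {f : Ordinal.{0} → Ordinal.{0}} {G : ℕ → Ordinal.{0} → Ordinal.{0}} {r : ℕ → Ordinal.{0}}
    (hA : Appr m.ord α f G r) {P : Ordinal.{0} → Prop} {rh : Ordinal.{0} → Ordinal.{0}}
    {k : Ordinal.{0} → Ordinal.{0} → Ordinal.{0}} {T₀ : Set Ordinal.{0}}
    (hT₀ : Stat T₀ m.ord) (hP : ∀ i ∈ T₀, i < m.ord → P (f i))
    (hk : ∀ γ, P γ → rh γ < γ ∧ (∀ ξ < rh γ, k γ ξ < γ) ∧ ∀ β < γ, ∃ ξ < rh γ, β ≤ k γ ξ) :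
    ∃ ρ < α, ∀ β < α, ∃ ξ < ρ, ∃ η < α, β < η ∧ EE m.ord α P rh k ξ η := by
  classical
  obtain ⟨C, hC, hs⟩ := hA.sup
  have hT1 : Stat (T₀ ∩ C) m.ord := hT₀.inter_club (ex_cof_reg hm hm') hC
  obtain ⟨n, hn⟩ := stat_of_iUnion (ex_cof_reg hm hm') hT1 (A := fun n => {i | rh (f i) < G n i})
    (fun a ha haμ => (hs a ha.2 haμ).2 (rh (f a)) (hk (f a) (hP a ha.1 haμ)).1)
  refine ⟨r n, hA.r_lt n, fun β hβ => ?_⟩
  obtain ⟨n', hn'⟩ := hA.unb β hβ
  set T : Set Ordinal.{0} := {i | i < m.ord ∧ i ∈ T₀ ∩ C ∩ {i | rh (f i) < G n i}} with hT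
  have hTs : Stat T m.ord := hn.mono (fun i hi hiμ => ⟨hiμ, hi⟩)
  have hPT : ∀ i ∈ T, P (f i) := fun i hi => hP i hi.2.1.1 hi.1
  have hx : ∀ i, ∃ ξ, i ∈ T → ξ < rh (f i) ∧ G n' i ≤ k (f i) ξ := by
    intro i
    by_cases hi : i ∈ T
    · obtain ⟨ξ, h1, h2⟩ := (hk (f i) (hPT i hi)).2.2 (G n' i) ((hs i hi.2.1.2 hi.1).1 n')
      exact ⟨ξ, fun _ => ⟨h1, h2⟩⟩
    · exact ⟨0, fun h => absurd h hi⟩
  choose x hx using hx
  have h1 : ¬ R m.ord T (r n) x := by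
    intro h2
    refine hA.bdd n T hTs (R_mono hm hm' h2 (ex_leOn hm ?_))
    intro i hi _
    exact ((hx i hi).1.trans hi.2.2).le
  obtain ⟨ξ, hξ, h2, h3⟩ := R_least h1
  refine ⟨ξ, hξ, ?_⟩
  -- the function y
  have hy : ∀ i ∈ T, k (f i) (x i) < f i := fun i hi =>
    (hk (f i) (hPT i hi)).2.1 (x i) (hx i hi).1
  have h4 : ∃ n'', ¬ R m.ord {i | i ∈ T ∧ k (f i) (x i) < G n'' i} (ξ + 1) x := by
    by_contra hcon
    push Not at hcon
    apply h3
    refine R_iUnion hm hm' hcon ⟨Set.univ, club_univ (ex_limit_reg hm), ?_⟩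
    intro i _ _ hi
    obtain ⟨l, hl⟩ := (hs i hi.2.1.2 hi.1).2 _ (hy i hi)
    exact ⟨l, hi, hl⟩
  obtain ⟨n'', hn''⟩ := h4
  have h5 : Small m.ord T ξ x (fun i => k (f i) (x i)) (r n'') := by
    refine ⟨_, fun i hi => hi.1, hn'', ?_⟩
    intro B hB hBs hBR
    exact hA.bdd n'' B hBs (R_mono hm hm' hBR (ex_leOn hm (fun i hi _ => (hB hi).2.le)))
  -- the least ordinal
  have hex : ∃ η, Small m.ord T ξ x (fun i => k (f i) (x i)) η := ⟨_, h5⟩
  obtain ⟨η, hη, hmin'⟩ := (wellFounded_lt (α := Ordinal.{0})).has_min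
    {η | Small m.ord T ξ x (fun i => k (f i) (x i)) η} hex
  have hmin : ∀ η' < η, ¬ Small m.ord T ξ x (fun i => k (f i) (x i)) η' :=
    fun η' h' h'' => hmin' η' h'' h'
  have hle : η ≤ r n'' := not_lt.1 (fun h => hmin _ h h5)
  refine ⟨η, hle.trans_lt (hA.r_lt n''), ?_, f, T, x, exact_of_appr hm hm' hA, hTs, ?_, h2, h3, hη,
    hmin⟩
  · by_contra hcon
    push Not at hcon
    obtain ⟨A, hAT, hA1, hA2⟩ := hη
    have hAs : Stat A m.ord := by
      by_contra hns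
      exact hA1 (R_of_not_stat hns _ _)
    apply hA2 A (fun _ h => h) hAs
    have h6 : R m.ord A β (G n') := R_mono_set hn' (fun i _ _ => trivial)
    have h7 : R m.ord A β (fun i => k (f i) (x i)) :=
      R_mono hm hm' h6 (ex_leOn hm (fun i hi _ => (hx i (hAT hi)).2))
    exact R_anti h7 hcon
  · intro i hi _
    exact ⟨hPT i hi, (hx i hi).1⟩

end Pool.Agent.Helper73.HODC
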