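import Pool.Agent.Helper73.HODC.Defs2

namespace Pool.Agent.Helper73.HODC

open Ordinal Cardinal ZFSet Order

/-! ## Module EN (file Enum.lean) : enumeration of sets of ordinals -/

/-- two enumerations agree where both are defined -/
theorem enum_agree {Γ : Set Ordinal.{0}} {a a' b b' : Ordinal.{0}} {g g' : Ordinal.{0} → Ordinal.{0}}
    (h1 : ∀ x < a, g x ∈ Γ ∧ g x < b) (h2 : ∀ x < a, ∀ y < a, x < y → g x < g y)
    (h3 : ∀ z ∈ Γ, z < b → ∃ x < a, g x = z)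
    (h1' : ∀ x < a', g' x ∈ Γ ∧ g' x < b') (h2' : ∀ x < a', ∀ y < a', x < y → g' x < g' y)
    (h3' : ∀ z ∈ Γ, z < b' → ∃ x < a', g' x = z) :
    ∀ x, x < a → x < a' → g x = g' x := by
  intro x
  induction x using WellFoundedLT.induction with
  | ind x ih =>
    intro hx hx'
    rcases lt_trichotomy (g x) (g' x) with hlt | heq | hgt
    · exfalso
      obtain ⟨z, hz, hzx⟩ := h3' (g x) (h1 x hx).1 (hlt.trans (h1' x hx').2)
      have hzx' : z < x := by
        by_contra hcon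
        rcases lt_or_eq_of_le (not_lt.mp hcon) with h | h
        · exact absurd (h2' x hx' z hz h) (not_lt.mpr (hzx ▸ hlt.le))
        · subst h
          exact absurd hzx (ne_of_gt hlt)
      have := ih z hzx' (hzx'.trans hx) hz
      have h4 := h2 z (hzx'.trans hx) x hx hzx'
      rw [this, hzx] at h4
      exact lt_irrefl _ h4
    · exact heq
    · exfalso
      obtain ⟨z, hz, hzx⟩ := h3 (g' x) (h1' x hx').1 (hgt.trans (h1 x hx).2)
      have hzx' : z < x := by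
        by_contra hcon
        rcases lt_or_eq_of_le (not_lt.mp hcon) with h | h
        · exact absurd (h2 x hx z hz h) (not_lt.mpr (hzx ▸ hgt.le))
        · subst h
          exact absurd hzx (ne_of_gt hgt)
      have := ih z hzx' hz (hzx'.trans hx')
      have h4 := h2' z (hzx'.trans hx') x hx' hzx'
      rw [← this, hzx] at h4
      exact lt_irrefl _ h4

theorem enum_unique_aux {Γ : Set Ordinal.{0}} {a b b' : Ordinal.{0}} (h : Enum Γ a b)
    (h' : Enum Γ a b') : ¬ b < b' := by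
  intro hlt
  obtain ⟨hb, g, h1, h2, h3⟩ := h
  obtain ⟨hb', g', h1', h2', h3'⟩ := h'
  obtain ⟨x, hx, hgx⟩ := h3' b hb hlt
  have := enum_agree h1 h2 h3 h1' h2' h3' x hx hx
  exact absurd (h1 x hx).2 (by rw [this, hgx]; exact lt_irrefl _)

theorem enum_unique {Γ : Set Ordinal.{0}} {a b b' : Ordinal.{0}} (h : Enum Γ a b)
    (h' : Enum Γ a b') : b = b' :=
  le_antisymm (not_lt.mp (enum_unique_aux h' h)) (not_lt.mp (enum_unique_aux h h'))

theorem enum_inj_aux {Γ : Set Ordinal.{0}} {a a' b : Ordinal.{0}} (h : Enum Γ a b)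
    (h' : Enum Γ a' b) : ¬ a < a' := by
  intro hlt
  obtain ⟨hb, g, h1, h2, h3⟩ := h
  obtain ⟨hb', g', h1', h2', h3'⟩ := h'
  obtain ⟨x, hx, hgx⟩ := h3 (g' a) (h1' a hlt).1 (h1' a hlt).2
  have := enum_agree h1 h2 h3 h1' h2' h3' x hx (hx.trans hlt)
  have h4 := h2' x (hx.trans hlt) a hlt hx
  rw [← this, hgx] at h4
  exact lt_irrefl _ h4

theorem enum_inj {Γ : Set Ordinal.{0}} {a a' b : Ordinal.{0}} (h : Enum Γ a b)
    (h' : Enum Γ a' b) : a = a' :=
  le_antisymm (not_lt.mp (enum_inj_aux h' h)) (not_lt.mp (enum_inj_aux h h'))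

/-- initial segments of an enumeration -/
theorem enum_restrict {Γ : Set Ordinal.{0}} {a b : Ordinal.{0}} {g : Ordinal.{0} → Ordinal.{0}}
    (h1 : ∀ x < a, g x ∈ Γ ∧ g x < b) (h2 : ∀ x < a, ∀ y < a, x < y → g x < g y)
    (h3 : ∀ z ∈ Γ, z < b → ∃ x < a, g x = z) {x : Ordinal.{0}} (hx : x < a) :
    Enum Γ x (g x) := by
  refine ⟨(h1 x hx).1, g, ?_, ?_, ?_⟩
  · intro y hy
    exact ⟨(h1 y (hy.trans hx)).1, h2 y (hy.trans hx) x hx hy⟩
  · intro y hy z hz hyz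
    exact h2 y (hy.trans hx) z (hz.trans hx) hyz
  · intro z hz hzx
    obtain ⟨y, hy, hyz⟩ := h3 z hz (hzx.trans (h1 x hx).2)
    refine ⟨y, ?_, hyz⟩
    by_contra hcon
    rcases lt_or_eq_of_le (not_lt.mp hcon) with h | h
    · exact absurd (h2 x hx y hy h) (not_lt.mpr (hyz ▸ hzx.le))
    · subst h
      exact absurd hyz (ne_of_gt hzx)

/-- one step of the enumeration -/
theorem enum_step {Γ : Set Ordinal.{0}} {a b : Ordinal.{0}} {g : Ordinal.{0} → Ordinal.{0}}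
    (hg : ∀ x < a, Enum Γ x (g x)) (hb : b ∈ Γ) (hgb : ∀ x < a, g x < b) :
    ∃ b' ≤ b, Enum Γ a b' := by
  let Δ : Set Ordinal.{0} := {z | z ∈ Γ ∧ ∀ x < a, g x < z}
  have hΔ : Δ.Nonempty := ⟨b, hb, hgb⟩
  obtain ⟨hm, hm'⟩ : sInf Δ ∈ Δ := csInf_mem hΔ
  have hmono : ∀ x < a, ∀ y < a, x < y → g x < g y := by
    intro x hx y hy hxy
    obtain ⟨-, h, k1, k2, k3⟩ := hg y hy
    have h1 := enum_restrict k1 k2 k3 hxy
    rw [enum_unique (hg x hx) h1]
    exact (k1 x hxy).2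
  refine ⟨sInf Δ, csInf_le' ⟨hb, hgb⟩, hm, g, ?_, hmono, ?_⟩
  · intro x hx
    exact ⟨(hg x hx).1, hm' x hx⟩
  · intro z hz hzm
    have hnot : ¬ z ∈ Δ := fun h => absurd (csInf_le' h) (not_le.mpr hzm)
    have : ∃ x < a, z ≤ g x := by
      by_contra hcon
      push Not at hcon
      exact hnot ⟨hz, hcon⟩
    obtain ⟨x, hx, hzx⟩ := this
    rcases lt_or_eq_of_le hzx with h | h
    · obtain ⟨-, k, k1, k2, k3⟩ := hg x hx
      obtain ⟨y, hy, hyz⟩ := k3 z hz h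
      have h1 := enum_restrict k1 k2 k3 hy
      refine ⟨y, hy.trans hx, ?_⟩
      rw [enum_unique (hg y (hy.trans hx)) h1, hyz]
    · exact ⟨x, hx, h.symm⟩

theorem enum_regular {c : Cardinal.{0}} (hc : c.IsRegular) {Γ : Set Ordinal.{0}}
    (hΓ : ∀ β < c.ord, ∃ b ∈ Γ, β < b ∧ b < c.ord) (a : Ordinal.{0}) (ha : a < c.ord) :
    ∃ b < c.ord, Enum Γ a b := by
  induction a using WellFoundedLT.induction with
  | ind a ih =>
    have hch : ∀ x, ∃ b, x < a → b < c.ord ∧ Enum Γ x b := by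
      intro x
      by_cases hx : x < a
      · obtain ⟨b, hb, hb'⟩ := ih x hx (hx.trans ha)
        exact ⟨b, fun _ => ⟨hb, hb'⟩⟩
      · exact ⟨0, fun h => absurd h hx⟩
    choose g hg using hch
    have hsup : ∃ β < c.ord, ∀ x < a, g x ≤ β := by
      have hlt : (⨆ x : Set.Iio a, g x.1) < c.ord := by
        refine Ordinal.lift_iSup_lt_of_lt_cof ?_ ?_
        · rw [Cardinal.mk_Iio_ordinal, ← Ordinal.lift_cof, hc.cof_ord]
          rw [Cardinal.lift_lift, Cardinal.lift_lt]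
          exact Cardinal.lt_ord.mp ha
        · intro x
          exact (hg x.1 x.2).1
      refine ⟨_, hlt, ?_⟩
      intro x hx
      exact Ordinal.le_iSup (fun x : Set.Iio a => g x.1) ⟨x, hx⟩
    obtain ⟨β, hβ, hgβ⟩ := hsup
    obtain ⟨b, hb, hβb, hbc⟩ := hΓ β hβ
    obtain ⟨b', hb', h'⟩ := enum_step (g := g) (fun x hx => (hg x hx).2) hb
      (fun x hx => (hgβ x hx).trans_lt hβb)
    exact ⟨b', hb'.trans_lt hbc, h'⟩

theorem enum_small {α : Ordinal.{0}} {Γ : Set Ordinal.{0}} (hΓ : ∀ b ∈ Γ, b < α)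
    (hu : ∀ β < α, ∃ b ∈ Γ, β < b) {κ : Cardinal.{0}}
    (hk : Cardinal.mk Γ < Cardinal.lift.{1} κ) :
    ∃ τ < κ.ord, (∀ ξ < τ, ∃ b, Enum Γ ξ b) ∧ ∀ β < α, ∃ ξ < τ, ∃ b, β < b ∧ Enum Γ ξ b := by
  have hex : ∃ τ < κ.ord, ¬ ∃ b, Enum Γ τ b := by
    by_contra hcon
    push Not at hcon
    choose! g hg using hcon
    have hinj : Function.Injective (fun x : Set.Iio κ.ord => (⟨g x.1, (hg x.1 x.2).1⟩ : Γ)) := by
      intro x y hxy
      have h1 : g x.1 = g y.1 := congrArg Subtype.val hxy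
      have h2 := hg x.1 x.2
      rw [h1] at h2
      exact Subtype.ext (enum_inj h2 (hg y.1 y.2))
    have h1 := Cardinal.mk_le_of_injective hinj
    rw [Cardinal.mk_Iio_ordinal, Cardinal.card_ord] at h1
    exact absurd h1 (not_le.mpr hk)
  have hwf := hex
  let τ := sInf {τ : Ordinal.{0} | τ < κ.ord ∧ ¬ ∃ b, Enum Γ τ b}
  have hτ : τ ∈ {τ : Ordinal.{0} | τ < κ.ord ∧ ¬ ∃ b, Enum Γ τ b} := csInf_mem hex
  have hmin : ∀ ξ < τ, ∃ b, Enum Γ ξ b := by
    intro ξ hξ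
    by_contra hcon
    exact absurd (csInf_le' (show ξ ∈ {τ : Ordinal.{0} | τ < κ.ord ∧ ¬ ∃ b, Enum Γ τ b} from
      ⟨hξ.trans hτ.1, hcon⟩)) (not_le.mpr hξ)
  refine ⟨τ, hτ.1, hmin, ?_⟩
  intro β hβ
  by_contra hcon
  push Not at hcon
  choose! g hg using hmin
  obtain ⟨b, hb, hβb⟩ := hu β hβ
  obtain ⟨b', -, h'⟩ := enum_step (g := g) hg hb (fun x hx => by
    by_contra h
    exact hcon x hx (g x) (hβb.trans_le (not_lt.mp h)) (hg x hx))
  exact hτ.2 ⟨b', h'⟩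

end Pool.Agent.Helper73.HODC
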