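import Pool.Agent.Helper73.HODC.Rank

namespace Pool.Agent.Helper73.HODC

open Ordinal Cardinal ZFSet Order

/-! ## Module GH (file GH.lean) : bound on ranks (uses CL, RK) -/

theorem LtOn.trans {μ : Ordinal.{0}} (hμ : ℵ₀ < μ.cof) {T : Set Ordinal.{0}}
    {x y z : Ordinal.{0} → Ordinal.{0}} (h : LtOn μ T x y) (h' : LtOn μ T y z) :
    LtOn μ T x z := by
  obtain ⟨C, hC, h1⟩ := h
  obtain ⟨D, hD, h2⟩ := h'
  exact ⟨C ∩ D, Club.inter hμ hC hD, fun i hi hi' hiT =>
    (h1 i hi.1 hi' hiT).trans (h2 i hi.2 hi' hiT)⟩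

/-- an injection of an ordinal into the initial ordinal of a cardinal -/
theorem exists_inj_ord {a : Ordinal.{0}} {c : Cardinal.{0}} (h : a < (succ c).ord) :
    ∃ g : Ordinal.{0} → Ordinal.{0}, (∀ x < a, g x < c.ord) ∧
      ∀ x < a, ∀ y < a, g x = g y → x = y := by
  classical
  have h1 : #a.ToType ≤ #c.ord.ToType := by
    rw [mk_toType, mk_ord_toType]
    exact lt_succ_iff.1 (lt_ord.1 h)
  obtain ⟨e⟩ := h1
  refine ⟨fun x => if h : x < a then ((e (ToType.mk ⟨x, h⟩)).toOrd : Ordinal) else 0, ?_, ?_⟩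
  · intro x hx
    simp only [hx, dif_pos]
    exact (e (ToType.mk ⟨x, hx⟩)).toOrd.2
  · intro x hx y hy hxy
    simp only [hx, hy, dif_pos] at hxy
    have h2 := e.injective (ToType.mk.symm.injective (Subtype.ext hxy))
    have h3 := ToType.mk.injective h2
    exact congrArg Subtype.val h3

theorem rank_bound_one {lam m : Cardinal.{0}} {δ : Ordinal.{0} → Cardinal.{0}}
    (hs : Setting lam m δ) (f : Ordinal.{0} → Ordinal.{0})
    (hf : ∀ i < m.ord, f i < (succ (δ i)).ord) {T : Set Ordinal.{0}} (hT : Stat T m.ord) :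
    ∃ η < (succ lam).ord, ¬ R m.ord T η f := by
  classical
  by_contra hcon
  push Not at hcon
  have hm := hs.reg
  have hm' := hs.unc
  have hcof : ℵ₀ < (m.ord).cof := by rw [hm.cof_ord]; exact hm'
  have hmpos : 0 < m.ord := by
    rw [Cardinal.lt_ord, card_zero]
    exact lt_of_lt_of_le Cardinal.aleph0_pos hm'.le
  have hδ0 : δ 0 < lam := hs.lt 0 hmpos
  have hmlam : m < lam := hs.big.trans hδ0
  have hlam : ℵ₀ ≤ lam := (hm'.trans hmlam).le
  have hreg : (succ lam).IsRegular := isRegular_succ hlam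
  have hlim : IsSuccLimit (succ lam).ord := isSuccLimit_ord (hlam.trans (le_succ lam))
  have hm2 : (2 : Cardinal.{0}) ^ m < lam :=
    hs.pow 2 (lt_of_lt_of_le (by exact_mod_cast Cardinal.natCast_lt_aleph0 (n := 2)) hlam)
  have hδpos : ∀ b < m.ord, δ b ≠ 0 := by
    intro b hb h0
    rcases eq_or_ne b 0 with rfl | hb0
    · have := hs.big
      rw [h0] at this
      exact absurd this (not_lt.2 zero_le)
    · have := hs.mono 0 b (pos_iff_ne_zero.2 hb0) hb
      rw [h0] at this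
      exact absurd this (not_lt.2 zero_le)
  -- minimal functions
  have hx : ∀ ζ < (succ lam).ord, ∃ x, LtOn m.ord T x f ∧ R m.ord T ζ x ∧
      ¬ R m.ord T (ζ + 1) x := by
    intro ζ hζ
    have hζ1 : ζ + 1 < (succ lam).ord := by
      rw [← Order.succ_eq_add_one]
      exact hlim.succ_lt hζ
    obtain ⟨z, hz1, hz2⟩ := R_iff.1 (hcon (ζ + 1) hζ1) ζ (by
      rw [← Order.succ_eq_add_one]; exact Order.lt_succ ζ)
    obtain ⟨x, hx, hmin⟩ := (LtOn_wf hm hm' hT).has_min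
      {z | LtOn m.ord T z f ∧ R m.ord T ζ z} ⟨z, hz1, hz2⟩
    refine ⟨x, hx.1, hx.2, fun hR => ?_⟩
    obtain ⟨w, hw1, hw2⟩ := R_iff.1 hR ζ (by
      rw [← Order.succ_eq_add_one]; exact Order.lt_succ ζ)
    exact hmin w ⟨LtOn.trans hcof hw1 hx.1, hw2⟩ hw1
  choose! x hx1 hx2 hx3 using hx
  -- injections
  have hc : ∀ i < m.ord, ∃ g : Ordinal.{0} → Ordinal.{0}, (∀ y < f i, g y < (δ i).ord) ∧
      ∀ y < f i, ∀ z < f i, g y = g z → y = z := fun i hi => exists_inj_ord (hf i hi)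
  choose! c hc1 hc2 using hc
  have key : ∀ ζ < (succ lam).ord, ∃ (A : Set Ordinal.{0}) (a : Ordinal.{0}), a < m.ord ∧
      (∀ i ∈ A, i ∈ T ∧ i < m.ord ∧ x ζ i < f i ∧ c i (x ζ i) < (δ a).ord) ∧
      ¬ R m.ord A (ζ + 1) (x ζ) := by
    intro ζ hζ
    obtain ⟨C, hC, hCx⟩ := hx1 ζ hζ
    set T0 : Set Ordinal.{0} := {i | i ∈ T ∧ i ∈ C ∧ IsSuccLimit i ∧ i < m.ord} with hT0
    have hR0 : ¬ R m.ord T0 (ζ + 1) (x ζ) := by
      intro hR
      apply hx3 ζ hζ
      refine R_iUnion hm hm' (A := fun _ => T0) (fun _ => hR)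
        ⟨C ∩ {a | IsSuccLimit a}, Club.inter hcof hC (club_limit hcof), ?_⟩
      intro i hi hi' hiT
      exact ⟨0, hiT, hi.1, hi.2, hi'⟩
    have hj : ∀ i ∈ T0, ∃ j < i, c i (x ζ i) < (δ j).ord := by
      intro i hi
      obtain ⟨hi1, hi2, hi3, hi4⟩ := hi
      have h1 := hc1 i hi4 (x ζ i) (hCx i hi2 hi4 hi1)
      obtain ⟨j, hj, hj2⟩ := hs.cont i hi4 hi3 _ (Cardinal.lt_ord.1 h1)
      exact ⟨j, hj, Cardinal.lt_ord.2 hj2⟩
    choose! r hr1 hr2 using hj
    obtain ⟨a, ha, hna⟩ := R_fodor hm hm' hR0 (r := r) (fun i hi _ _ => hr1 i hi)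
    refine ⟨{i | i ∈ T0 ∧ r i = a}, a, ha, ?_, hna⟩
    rintro i ⟨hi, rfl⟩
    exact ⟨hi.1, hi.2.2.2, hCx i hi.2.1 hi.2.2.2 hi.1, hr2 i hi⟩
  choose! A a ha hA hAR using key
  -- the data
  let D := Σ b : m.ord.ToType, (Set m.ord.ToType) × (m.ord.ToType → (δ (b.toOrd : Ordinal)).ord.ToType)
  have hne : ∀ b : m.ord.ToType, Nonempty (δ (b.toOrd : Ordinal)).ord.ToType := by
    intro b
    rw [← Cardinal.mk_ne_zero_iff, mk_ord_toType]
    exact hδpos _ b.toOrd.2
  have hcardD : #D ≤ lam := by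
    have h1 : #D = Cardinal.sum fun b : m.ord.ToType => #((Set m.ord.ToType) ×
        (m.ord.ToType → (δ (b.toOrd : Ordinal)).ord.ToType)) := mk_sigma _
    rw [h1]
    have h2 : ∀ b : m.ord.ToType, #((Set m.ord.ToType) ×
        (m.ord.ToType → (δ (b.toOrd : Ordinal)).ord.ToType)) ≤ lam := by
      intro b
      rw [mk_prod, mk_set, mk_arrow, mk_ord_toType, mk_ord_toType, Cardinal.lift_id,
        Cardinal.lift_id, Cardinal.lift_id, Cardinal.lift_id]
      calc (2 : Cardinal.{0}) ^ m * (δ (b.toOrd : Ordinal)) ^ m ≤ lam * lam :=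
            mul_le_mul' hm2.le (hs.pow _ (hs.lt _ b.toOrd.2)).le
        _ = lam := mul_eq_self hlam
    calc Cardinal.sum (fun b : m.ord.ToType => #((Set m.ord.ToType) ×
        (m.ord.ToType → (δ (b.toOrd : Ordinal)).ord.ToType)))
        ≤ Cardinal.sum (fun _ : m.ord.ToType => lam) := Cardinal.sum_le_sum _ _ h2
      _ = m * lam := by rw [Cardinal.sum_const', mk_ord_toType]
      _ ≤ lam * lam := mul_le_mul' hmlam.le le_rfl
      _ = lam := mul_eq_self hlam
  let F : (succ lam).ord.ToType → D := fun z =>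
    ⟨ToType.mk ⟨a z.toOrd, ha _ z.toOrd.2⟩, {i | (i.toOrd : Ordinal) ∈ A z.toOrd}, fun i =>
      if h : (i.toOrd : Ordinal) ∈ A z.toOrd then
        ToType.mk ⟨c i.toOrd (x z.toOrd i.toOrd), by
          rw [ToType.toOrd, OrderIso.symm_apply_apply]
          exact (hA _ z.toOrd.2 _ h).2.2.2⟩
      else (hne _).some⟩
  have hFinj : ¬ Function.Injective F := by
    intro hinj
    have h1 := Cardinal.mk_le_of_injective hinj
    rw [mk_ord_toType] at h1
    exact absurd (h1.trans hcardD) (not_le.2 (lt_succ lam))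
  rw [Function.Injective] at hFinj
  push Not at hFinj
  obtain ⟨z, z', hzz, hne'⟩ := hFinj
  -- the contradiction
  have main : ∀ z z' : (succ lam).ord.ToType, F z = F z' →
      (z.toOrd : Ordinal) < (z'.toOrd : Ordinal) → False := by
    intro z z' hzz hlt
    have hζ := z.toOrd.2
    have hζ' := z'.toOrd.2
    set ζ : Ordinal.{0} := z.toOrd.1 with hζdef
    set ζ' : Ordinal.{0} := z'.toOrd.1 with hζdef'
    -- equality of the sets
    have hset : ∀ i, i ∈ A ζ ↔ i ∈ A ζ' := by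
      have h1 : (F z).2.1 = (F z').2.1 := congrArg (fun d : D => d.2.1) hzz
      intro i
      have h2 : ∀ hi : i < m.ord, (i ∈ A ζ ↔ i ∈ A ζ') := by
        intro hi
        have h3 := Set.ext_iff.1 h1 (ToType.mk ⟨i, hi⟩)
        simpa [F, ToType.toOrd] using h3
      constructor
      · intro h
        exact (h2 (hA ζ hζ i h).2.1).1 h
      · intro h
        exact (h2 (hA ζ' hζ' i h).2.1).2 h
    have hval : ∀ i ∈ A ζ, x ζ i = x ζ' i := by
      intro i hi
      have hi2 : i ∈ A ζ' := (hset i).1 hi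
      have hi' := (hA ζ hζ i hi).2.1
      have h1 := congrArg (fun d : D => (((d.2.2 (ToType.mk ⟨i, hi'⟩)).toOrd : Ordinal))) hzz
      have e1 : (((F z).2.2 (ToType.mk ⟨i, hi'⟩)).toOrd : Ordinal) = c i (x ζ i) := by
        have : (((ToType.mk ⟨i, hi'⟩ : m.ord.ToType).toOrd : Ordinal)) ∈ A ζ := by
          simpa [ToType.toOrd] using hi
        simp only [F]
        rw [dif_pos this]
        simp [ToType.toOrd, hζdef]
      have e2 : (((F z').2.2 (ToType.mk ⟨i, hi'⟩)).toOrd : Ordinal) = c i (x ζ' i) := by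
        have : (((ToType.mk ⟨i, hi'⟩ : m.ord.ToType).toOrd : Ordinal)) ∈ A ζ' := by
          simpa [ToType.toOrd] using hi2
        simp only [F]
        rw [dif_pos this]
        simp [ToType.toOrd, hζdef']
      have h2 : c i (x ζ i) = c i (x ζ' i) := by
        rw [← e1, ← e2]
        exact h1
      exact hc2 i hi' _ (hA ζ hζ i hi).2.2.1 _ (hA ζ' hζ' i hi2).2.2.1 h2
    apply hAR ζ hζ
    have h3 : R m.ord (A ζ) ζ' (x ζ') :=
      R_mono_set (hx2 ζ' hζ') (fun i hi _ => (hA ζ hζ i hi).1)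
    have h4 : R m.ord (A ζ) (ζ + 1) (x ζ') := R_anti h3 (by
      rw [← Order.succ_eq_add_one]; exact Order.succ_le_of_lt hlt)
    refine R_mono hm hm' h4 ⟨Set.univ, club_univ ?_, fun i _ _ hi => (hval i hi).ge⟩
    exact isSuccLimit_ord hm'.le
  rcases lt_trichotomy (z.toOrd : Ordinal) (z'.toOrd : Ordinal) with h | h | h
  · exact main z z' hzz h
  · exact hne' (ToType.mk.symm.injective (Subtype.ext h))
  · exact main z' z hzz.symm h

theorem R_congr_set {μ : Ordinal.{0}} {T T' : Set Ordinal.{0}} {η : Ordinal.{0}}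
    {x : Ordinal.{0} → Ordinal.{0}} (h' : ∀ i < μ, i ∈ T ↔ i ∈ T') : R μ T η x ↔ R μ T' η x :=
  ⟨fun h => R_mono_set h (fun i hi hi' => (h' i hi').2 hi),
    fun h => R_mono_set h (fun i hi hi' => (h' i hi').1 hi)⟩

theorem rank_bound {lam m : Cardinal.{0}} {δ : Ordinal.{0} → Cardinal.{0}}
    (hs : Setting lam m δ) (f : Ordinal.{0} → Ordinal.{0})
    (hf : ∀ i < m.ord, f i < (succ (δ i)).ord) :
    ∃ η < (succ lam).ord, ∀ T, Stat T m.ord → ¬ R m.ord T η f := by
  classical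
  have hmpos : 0 < m.ord := by
    rw [Cardinal.lt_ord, card_zero]
    exact lt_of_lt_of_le Cardinal.aleph0_pos hs.unc.le
  have hδ0 : δ 0 < lam := hs.lt 0 hmpos
  have hmlam : m < lam := hs.big.trans hδ0
  have hlam : ℵ₀ ≤ lam := (hs.unc.trans hmlam).le
  have hreg : (succ lam).IsRegular := isRegular_succ hlam
  have hm2 : (2 : Cardinal.{0}) ^ m < lam :=
    hs.pow 2 (lt_of_lt_of_le (by exact_mod_cast Cardinal.natCast_lt_aleph0 (n := 2)) hlam)
  have hpos : 0 < (succ lam).ord := by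
    rw [Cardinal.lt_ord, card_zero]
    exact lt_of_lt_of_le Cardinal.aleph0_pos (hlam.trans (le_succ lam))
  let T' : Set m.ord.ToType → Set Ordinal.{0} := fun s =>
    {i | ∃ h : i < m.ord, ToType.mk ⟨i, h⟩ ∈ s}
  have hex : ∀ s : Set m.ord.ToType, ∃ η < (succ lam).ord, Stat (T' s) m.ord →
      ¬ R m.ord (T' s) η f := by
    intro s
    by_cases h : Stat (T' s) m.ord
    · obtain ⟨η, h1, h2⟩ := rank_bound_one hs f hf h
      exact ⟨η, h1, fun _ => h2⟩
    · exact ⟨0, hpos, fun h' => absurd h' h⟩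
  choose g hg1 hg2 using hex
  have hsup : (⨆ s, g s) < (succ lam).ord := by
    apply iSup_lt_ord_of_isRegular hreg _ hg1
    rw [mk_set, mk_ord_toType]
    exact hm2.trans (lt_succ lam)
  refine ⟨⨆ s, g s, hsup, fun T hT hR => ?_⟩
  let s : Set m.ord.ToType := {j | (j.toOrd : Ordinal) ∈ T}
  have hTs : ∀ i < m.ord, i ∈ T ↔ i ∈ T' s := by
    intro i hi
    simp only [T', s, Set.mem_setOf_eq, ToType.toOrd, OrderIso.symm_apply_apply]
    exact ⟨fun h => ⟨hi, h⟩, fun h => h.2⟩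
  have hT2 : Stat (T' s) m.ord := Stat.mono hT (fun a ha ha' => (hTs a ha').1 ha)
  apply hg2 s hT2
  rw [← R_congr_set hTs]
  exact R_anti hR (Ordinal.le_iSup g s)

end Pool.Agent.Helper73.HODC
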