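import Pool.Agent.Helper73.HODC.Defs2

namespace Pool.Agent.Helper73.HODC

open Ordinal Cardinal ZFSet Order

/-! ## Module LG (file Logic.lean) : reflection, ordinal definability from definability over V -/

deriving instance Countable for Fm

theorem countable_Fm : Countable Fm := inferInstance

theorem exists_bd (φ : Fm) : ∃ m : ℕ, ∀ (M : Set ZFSet.{0}) (v w : ℕ → ZFSet.{0}),
    (∀ n < m, v n = w n) → (Sat M φ v ↔ Sat M φ w) := by
  induction φ with
  | mem i j =>
      refine ⟨max i j + 1, fun M v w h => ?_⟩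
      simp only [Sat]
      rw [h i (by omega), h j (by omega)]
  | eq i j =>
      refine ⟨max i j + 1, fun M v w h => ?_⟩
      simp only [Sat]
      rw [h i (by omega), h j (by omega)]
  | neg φ ih =>
      obtain ⟨m, hm⟩ := ih
      refine ⟨m, fun M v w h => ?_⟩
      simp only [Sat]
      rw [hm M v w h]
  | and φ ψ ih1 ih2 =>
      obtain ⟨m, hm⟩ := ih1
      obtain ⟨m', hm'⟩ := ih2
      refine ⟨max m m', fun M v w h => ?_⟩
      simp only [Sat]
      rw [hm M v w fun n hn => h n (by omega), hm' M v w fun n hn => h n (by omega)]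
  | all φ ih =>
      obtain ⟨m, hm⟩ := ih
      refine ⟨m, fun M v w h => ?_⟩
      simp only [Sat]
      refine forall₂_congr fun x _ => ?_
      apply hm
      intro n hn
      cases n with
      | zero => rfl
      | succ n => exact h n (by omega)

/-- Closed ordinals reflect a formula. -/
theorem exists_reflector (φ : Fm) : ∃ g : Ordinal.{0} → Ordinal.{0}, ∀ θ, 0 < θ →
    (∀ b < θ, g b < θ) → ∀ v : ℕ → ZFSet.{0}, (∀ n, v n ∈ V_ θ) →
      (Sat {z | z ∈ V_ θ} φ v ↔ Sat Set.univ φ v) := by
  classical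
  induction φ with
  | mem i j => exact ⟨fun _ => 0, fun θ _ _ v _ => Iff.rfl⟩
  | eq i j => exact ⟨fun _ => 0, fun θ _ _ v _ => Iff.rfl⟩
  | neg φ ih =>
      obtain ⟨g, hg⟩ := ih
      refine ⟨g, fun θ h0 hc v hv => ?_⟩
      simp only [Sat]
      rw [hg θ h0 hc v hv]
  | and φ ψ ih1 ih2 =>
      obtain ⟨g, hg⟩ := ih1
      obtain ⟨g', hg'⟩ := ih2
      refine ⟨fun b => max (g b) (g' b), fun θ h0 hc v hv => ?_⟩
      simp only [Sat]
      rw [hg θ h0 (fun b hb => lt_of_le_of_lt (le_max_left _ _) (hc b hb)) v hv,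
        hg' θ h0 (fun b hb => lt_of_le_of_lt (le_max_right _ _) (hc b hb)) v hv]
  | all ψ ih =>
      obtain ⟨g, hg⟩ := ih
      obtain ⟨m, hm⟩ := exists_bd ψ
      let F : (ℕ → ZFSet.{0}) → Ordinal.{0} := fun v =>
        if h : ∃ x, ¬ Sat Set.univ ψ (cons x v) then h.choose.rank else 0
      have hF : ∀ v, (∃ x, ¬ Sat Set.univ ψ (cons x v)) →
          ∃ x, ¬ Sat Set.univ ψ (cons x v) ∧ x.rank = F v := by
        intro v h
        refine ⟨h.choose, h.choose_spec, ?_⟩
        simp only [F]
        rw [dif_pos h]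
      let G : Ordinal.{0} → Ordinal.{0} := fun b =>
        ⨆ v : ℕ → {z : ZFSet.{0} // z ∈ V_ b}, F (fun n => (v n).1)
      have hG : ∀ b (v : ℕ → ZFSet.{0}), (∀ n, v n ∈ V_ b) → F v ≤ G b := by
        intro b v hv
        have : _root_.Small.{0} {z : ZFSet.{0} // z ∈ V_ b} := small_coe (V_ b)
        exact le_ciSup (f := fun v : ℕ → {z : ZFSet.{0} // z ∈ V_ b} => F (fun n => (v n).1))
          bddAbove_of_small (fun n => ⟨v n, hv n⟩)
      refine ⟨fun b => max (g b) (max (G b) (b + 1)), fun θ h0 hc v hv => ?_⟩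
      have hc1 : ∀ b < θ, g b < θ := fun b hb => lt_of_le_of_lt (le_max_left _ _) (hc b hb)
      have hc2 : ∀ b < θ, G b < θ := fun b hb =>
        lt_of_le_of_lt ((le_max_left _ _).trans (le_max_right _ _)) (hc b hb)
      have hc3 : ∀ b < θ, b + 1 < θ := fun b hb =>
        lt_of_le_of_lt ((le_max_right _ _).trans (le_max_right _ _)) (hc b hb)
      have hcons : ∀ x ∈ V_ θ, ∀ n, cons x v n ∈ V_ θ := by
        intro x hx n
        cases n with
        | zero => exact hx
        | succ n => exact hv n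
      simp only [Sat]
      constructor
      · intro h
        by_contra hne
        let v' : ℕ → ZFSet.{0} := fun n => if n < m then v n else ∅
        have hvv : ∀ x, ∀ n < m, cons x v n = cons x v' n := by
          intro x n hn
          cases n with
          | zero => rfl
          | succ n =>
              simp only [cons, v']
              rw [if_pos (by omega)]
        have hne' : ∃ x, ¬ Sat Set.univ ψ (cons x v') := by
          by_contra hno
          apply hne
          intro x _
          rw [hm Set.univ _ _ (hvv x)]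
          by_contra hx
          exact hno ⟨x, hx⟩
        obtain ⟨x, hx, hxr⟩ := hF v' hne'
        -- a bound for the ranks
        let b : Ordinal.{0} := (Finset.range m).sup (fun n => (v n).rank) + 1
        have hb : b < θ := by
          apply hc3
          rw [Finset.sup_lt_iff (by simpa using h0)]
          intro n _
          exact mem_vonNeumann.1 (hv n)
        have hv' : ∀ n, v' n ∈ V_ b := by
          intro n
          rw [mem_vonNeumann]
          simp only [v']
          split_ifs with hn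
          · refine lt_of_le_of_lt ?_ (lt_add_one _)
            exact Finset.le_sup (f := fun n => (v n).rank) (Finset.mem_range.2 hn)
          · rw [rank_empty]
            exact lt_of_le_of_lt zero_le (lt_add_one _)
        have hxθ : x ∈ V_ θ := by
          rw [mem_vonNeumann, hxr]
          exact lt_of_le_of_lt (hG b v' hv') (hc2 b hb)
        apply hx
        rw [← hm Set.univ _ _ (hvv x), ← hg θ h0 hc1 _ (hcons x hxθ)]
        exact h x hxθ
      · intro h x hx
        rw [hg θ h0 hc1 _ (hcons x hx)]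
        exact h x (Set.mem_univ x)

/-- Closure points of a function. -/
theorem exists_closed (g : Ordinal.{0} → Ordinal.{0}) (β : Ordinal.{0}) :
    ∃ θ, β < θ ∧ ∀ b < θ, g b < θ := by
  have hg : ∀ b : Ordinal.{0}, ∃ d : Ordinal.{0}, b < d ∧ ∀ c ≤ b, g c < d := by
    intro b
    refine ⟨max (b + 1) ((⨆ c : Set.Iic b, g c.1) + 1), ?_, ?_⟩
    · exact lt_of_lt_of_le (lt_add_one b) (le_max_left _ _)
    · intro c hc
      have h1 : g c ≤ ⨆ c : Set.Iic b, g c.1 :=
        le_ciSup (f := fun c : Set.Iic b => g c.1) bddAbove_of_small ⟨c, hc⟩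
      exact lt_of_lt_of_le (lt_of_le_of_lt h1 (lt_add_one _)) (le_max_right _ _)
  choose d hd hd' using hg
  have hbdd : BddAbove (Set.range fun n : ℕ => d^[n] (β + 1)) := bddAbove_of_small
  have hle : ∀ n : ℕ, d^[n] (β + 1) ≤ ⨆ n : ℕ, d^[n] (β + 1) := fun n => le_ciSup hbdd n
  refine ⟨⨆ n : ℕ, d^[n] (β + 1), lt_of_lt_of_le (lt_add_one β) (hle 0), ?_⟩
  intro b hb
  obtain ⟨n, hn⟩ := exists_lt_of_lt_ciSup hb
  have h1 : g b < d (d^[n] (β + 1)) := hd' _ _ hn.le
  rw [← Function.iterate_succ_apply' d n (β + 1)] at h1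
  exact lt_of_lt_of_le h1 (hle (n + 1))

theorem reflection (φ : Fm) (β : Ordinal.{0}) : ∃ θ, β < θ ∧ ∀ v : ℕ → ZFSet.{0},
    (∀ n, v n ∈ V_ θ) → (Sat {z | z ∈ V_ θ} φ v ↔ Sat Set.univ φ v) := by
  obtain ⟨g, hg⟩ := exists_reflector φ
  obtain ⟨θ, hθ, hc⟩ := exists_closed g β
  exact ⟨θ, hθ, hg θ (lt_of_le_of_lt zero_le hθ) hc⟩

theorem OD_of_dfn {P : (ℕ → ZFSet.{0}) → Prop} (hP : Dfn P) (p : ℕ → Ordinal.{0}) (x : ZFSet.{0})
    (h : ∀ y, P (cons y (fun k => (p k).toZFSet)) ↔ y = x) : OD x := by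
  obtain ⟨φ, hφ⟩ := hP
  obtain ⟨θ, hθ, hr⟩ := reflection φ (max x.rank (⨆ k, p k))
  have hx : x ∈ V_ θ := mem_vonNeumann.2 (lt_of_le_of_lt (le_max_left _ _) hθ)
  have hp : ∀ k, p k < θ := by
    intro k
    refine lt_of_le_of_lt ?_ hθ
    exact (le_ciSup (f := p) bddAbove_of_small k).trans (le_max_right _ _)
  refine ⟨θ, φ, p, hp, hx, ?_⟩
  intro y hy
  rw [hr, hφ, h]
  intro n
  cases n with
  | zero => exact hy
  | succ n =>
      rw [mem_vonNeumann]
      simp only [cons, rank_toZFSet]
      exact hp n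

end Pool.Agent.Helper73.HODC
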