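import Pool.Agent.Helper73.HODC.ODRel
import Pool.Agent.Helper73.HODC.Best
import Pool.Agent.Helper73.HODC.DefNotions

namespace Pool.Agent.Helper73.HODC

open Ordinal Cardinal ZFSet Order

/-! ## Module SW (file Split.lean) : splitting stationary sets in HOD
(uses LG, DF, EN, OR, BF, CL, DN) -/

/-- fewer than `κ` ordinals below the regular `κ` are bounded below `κ` -/
theorem exists_bound {κ : Cardinal.{0}} (hκ : κ.IsRegular) {ρ : Ordinal.{0}} (hρ : ρ < κ.ord)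
    (η : Ordinal.{0} → Ordinal.{0}) (hη : ∀ ξ < ρ, η ξ < κ.ord) :
    ∃ s < κ.ord, ∀ ξ < ρ, η ξ ≤ s := by
  refine ⟨⨆ x : ρ.ToType, η (ToType.mk.symm x).1, ?_, fun ξ hξ => ?_⟩
  · refine Ordinal.iSup_lt_of_lt_cof ?_ fun x => hη _ (ToType.mk.symm x).2
    rw [hκ.cof_ord, mk_toType]
    exact lt_ord.1 hρ
  · have h := Ordinal.le_iSup (fun x : ρ.ToType => η (ToType.mk.symm x).1) (ToType.mk ⟨ξ, hξ⟩)
    simpa using h

/-- some coordinate `ξ₀ < ρ` takes arbitrarily large values on stationary sets -/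
theorem exists_coord {κ : Cardinal.{0}} (hκ : κ.IsRegular) (hκ' : ℵ₀ < κ) {c : Fm × ℕ}
    {ρ : Ordinal.{0}} (hρ : ρ < κ.ord) {S : Set Ordinal.{0}} (hS : Stat S κ.ord)
    (hB : ∀ a ∈ S, HasB c a ∧ rho c a = ρ) :
    ∃ ξ₀ < ρ, ∀ η < κ.ord, Stat {a | a ∈ S ∧ η ≤ kk c a ξ₀} κ.ord := by
  by_contra hcon
  push Not at hcon
  have hcof : ℵ₀ < κ.ord.cof := by rw [hκ.cof_ord]; exact hκ'
  have hlim : IsSuccLimit κ.ord := isSuccLimit_ord hκ.aleph0_le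
  choose! η hη using hcon
  have h1 : ∀ ξ < ρ, ∃ C, Club C κ.ord ∧ ∀ a ∈ C, a < κ.ord → a ∈ S → kk c a ξ < η ξ := by
    intro ξ hξ
    have h2 := (hη ξ hξ).2
    unfold Stat at h2
    push Not at h2
    obtain ⟨C, hC, h3⟩ := h2
    refine ⟨C, hC, fun a haC haκ haS => ?_⟩
    by_contra h4
    exact absurd haκ (not_lt.2 (h3 a ⟨haS, not_lt.1 h4⟩ haC))
  choose! C hC using h1
  have hclub : Club {a | ∀ ξ < ρ, a ∈ C ξ} κ.ord :=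
    Club.biInter hκ hκ' hρ fun ξ hξ => (hC ξ hξ).1
  obtain ⟨s, hs, hle⟩ := exists_bound hκ hρ η fun ξ hξ => (hη ξ hξ).1
  obtain ⟨a, haS, haC, haκ⟩ := hS _ (hclub.inter hcof (club_Ioi hlim hs))
  obtain ⟨hB1, hB2⟩ := hB a haS
  obtain ⟨ξ, hξ, h5⟩ := kk_cof hB1 haC.2
  rw [hB2] at hξ
  have h6 := (hC ξ hξ).2 a (haC.1 ξ hξ) haκ haS
  exact absurd (h5.trans_lt h6) (not_lt.2 (hle ξ hξ))

theorem exists_split {κ : Cardinal.{0}} (hκ : κ.IsRegular) (hκ' : ℵ₀ < κ)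
    (h : Stat {α | α.cof = ℵ₀ ∧ HODSing α} κ.ord) :
    ∃ (c : Fm × ℕ) (ρ ξ₀ : Ordinal.{0}), ∀ η < κ.ord, ∃ γ, η < γ ∧ γ < κ.ord ∧
      Stat {a | a.cof = ℵ₀ ∧ HasB c a ∧ rho c a = ρ ∧ kk c a ξ₀ = γ} κ.ord := by
  have hcof : ℵ₀ < κ.ord.cof := by rw [hκ.cof_ord]; exact hκ'
  have hlim : IsSuccLimit κ.ord := isSuccLimit_ord hκ.aleph0_le
  have := countable_Fm
  obtain ⟨c, hc⟩ := stat_of_iUnion (ι := Fm × ℕ) hcof h (A := fun c => {a | HasB c a})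
    (fun a ha _ => exists_hasB ha.2)
  obtain ⟨ρ, hρ, hS⟩ := fodor hκ hκ' hc (r := fun a => rho c a)
    (fun a ha _ _ => rho_lt ha.2)
  obtain ⟨ξ₀, hξ₀, h1⟩ := exists_coord hκ hκ' (c := c) hρ hS fun a ha => ⟨ha.1.2, ha.2⟩
  refine ⟨c, ρ, ξ₀, fun η hη => ?_⟩
  obtain ⟨γ, hγ, h2⟩ := fodor hκ hκ' (h1 (η + 1) (hlim.add_one_lt hη)) (r := fun a => kk c a ξ₀)
    (fun a ha _ _ => kk_lt ha.1.1.2 (by rw [ha.1.2]; exact hξ₀))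
  refine ⟨γ, ?_, hγ, ?_⟩
  · obtain ⟨a, ha, -⟩ := h2 _ (club_univ hlim)
    have h3 := ha.1.2
    have h4 : kk c a ξ₀ = γ := ha.2
    rw [h4] at h3
    exact lt_of_lt_of_le (lt_add_one η) h3
  · exact h2.mono fun a ha _ => ⟨ha.1.1.1.1.1, ha.1.1.1.2, ha.1.1.2, ha.2⟩

/-! ### The partition -/

section Partition

variable (c : Fm × ℕ) (κ ρ ξ₀ ν : Ordinal.{0})

/-- the ordinals `γ` for which `kk c a ξ₀ = γ` on a stationary set -/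
def Gam : Set Ordinal.{0} :=
  {γ | Stat {a | a.cof = ℵ₀ ∧ HasB c a ∧ rho c a = ρ ∧ kk c a ξ₀ = γ} κ}

/-- the points of the `ξ`-th stationary set -/
def Pt (ξ a : Ordinal.{0}) : Prop :=
  a.cof = ℵ₀ ∧ HasB c a ∧ rho c a = ρ ∧ ∃ γ, Enum (Gam c κ ρ ξ₀) ξ γ ∧ kk c a ξ₀ = γ

/-- the partition: the set with number `0` takes all remaining points -/
def Part (ξ : Ordinal.{0}) : Set Ordinal.{0} :=
  {a | a < κ ∧ a.cof = ℵ₀ ∧ ((ξ ≠ 0 ∧ Pt c κ ρ ξ₀ ξ a) ∨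
    (ξ = 0 ∧ ¬ ∃ ζ, (ζ < ν ∧ ζ ≠ 0) ∧ Pt c κ ρ ξ₀ ζ a))}

theorem odRel_gam : ODRel (fun _ b => b ∈ Gam c κ ρ ξ₀) := by
  refine ⟨fun v => Stat {a | a.cof = ℵ₀ ∧ HasB c a ∧ rho c a = (v 3).rank ∧
      kk c a (v 4).rank = (v 1).rank} (v 2).rank,
    fun k => if k = 0 then κ else if k = 1 then ρ else ξ₀, ?_, ?_⟩
  · refine Dfn.stat (Q := fun a v => a.cof = ℵ₀ ∧ HasB c a ∧ rho c a = (v 3).rank ∧
      kk c a (v 4).rank = (v 1).rank) ?_ 2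
    exact (dfn_cof_omega 0).and ((dfn_hasB c 0).and ((dfn_rho c 0 4).and (dfn_kk c 0 5 2)))
  · intro a b
    simp only [Gam, Set.mem_ofPred_eq, cons, rank_toZFSet]
    simp

/-- definability of `Pt` from a definition of the enumeration -/
theorem dfn_pt {E : (ℕ → ZFSet.{0}) → Prop} (hE : Dfn E) (i j k l : ℕ) (s : ℕ → ℕ) :
    Dfn (fun v => (v j).rank.cof = ℵ₀ ∧ HasB c (v j).rank ∧ rho c (v j).rank = (v k).rank ∧
      ∃ x : ZFSet.{0}, x = x.rank.toZFSet ∧ E (cons (v i) (cons x (fun n => v (s n)))) ∧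
        kk c (v j).rank (v l).rank = x.rank) := by
  refine (dfn_cof_omega j).and ((dfn_hasB c j).and ((dfn_rho c j k).and ?_))
  refine Dfn.ex (Q := fun x v => x = x.rank.toZFSet ∧
    E (cons (v i) (cons x (fun n => v (s n)))) ∧ kk c (v j).rank (v l).rank = x.rank) ?_
  refine (dfn_isOrd 0).and (Dfn.and ?_ (dfn_kk c (j + 1) (l + 1) 0))
  have h := hE.rename (fun n => match n with
    | 0 => i + 1
    | 1 => 0
    | n + 2 => s n + 1)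
  convert h using 3 with v
  funext n
  match n with
  | 0 => rfl
  | 1 => rfl
  | n + 2 => rfl

theorem odRel_part : ODRel (fun ξ a => ξ < ν ∧ a < κ ∧ a ∈ Part c κ ρ ξ₀ ν ξ) := by
  obtain ⟨E, p, hE, hEq⟩ := (odRel_gam c κ ρ ξ₀).enum 0
  have hEq' : ∀ a b, Enum (Gam c κ ρ ξ₀) a b ↔
      E (cons a.toZFSet (cons b.toZFSet (fun k => (p k).toZFSet))) := hEq
  have hpt : ∀ ξ a, Pt c κ ρ ξ₀ ξ a ↔ (a.cof = ℵ₀ ∧ HasB c a ∧ rho c a = ρ ∧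
      ∃ x : ZFSet.{0}, x = x.rank.toZFSet ∧
        E (cons ξ.toZFSet (cons x (fun n => (p n).toZFSet))) ∧ kk c a ξ₀ = x.rank) := by
    intro ξ a
    unfold Pt
    constructor
    · rintro ⟨h1, h2, h3, γ, h4, h5⟩
      refine ⟨h1, h2, h3, γ.toZFSet, by rw [rank_toZFSet], (hEq' _ _).1 h4, ?_⟩
      rw [rank_toZFSet, h5]
    · rintro ⟨h1, h2, h3, x, hx, h4, h5⟩
      rw [hx] at h4
      exact ⟨h1, h2, h3, x.rank, (hEq' _ _).2 h4, h5⟩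
  refine ⟨fun v => (v 0).rank < (v 5).rank ∧ (v 1).rank < (v 2).rank ∧
    ((v 1).rank < (v 2).rank ∧ (v 1).rank.cof = ℵ₀ ∧
      ((¬ (v 0).rank = (v 6).rank ∧ ((v 1).rank.cof = ℵ₀ ∧ HasB c (v 1).rank ∧
        rho c (v 1).rank = (v 3).rank ∧ ∃ x : ZFSet.{0}, x = x.rank.toZFSet ∧
          E (cons (v 0) (cons x (fun n => v (n + 7)))) ∧ kk c (v 1).rank (v 4).rank = x.rank)) ∨
      ((v 0).rank = (v 6).rank ∧ ¬ ∃ z : ZFSet.{0}, ((z.rank < (v 5).rank ∧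
        ¬ z.rank = (v 6).rank) ∧ z = z.rank.toZFSet) ∧ ((v 1).rank.cof = ℵ₀ ∧ HasB c (v 1).rank ∧
        rho c (v 1).rank = (v 3).rank ∧ ∃ x : ZFSet.{0}, x = x.rank.toZFSet ∧
          E (cons z (cons x (fun n => v (n + 7)))) ∧ kk c (v 1).rank (v 4).rank = x.rank)))),
    fun k => match k with
      | 0 => κ
      | 1 => ρ
      | 2 => ξ₀
      | 3 => ν
      | 4 => 0
      | n + 5 => p n, ?_, ?_⟩
  · refine (dfn_rank_lt 0 5).and ((dfn_rank_lt 1 2).and ((dfn_rank_lt 1 2).and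
      ((dfn_cof_omega 1).and (Dfn.or ((dfn_rank_eq 0 6).not.and
        (dfn_pt c hE 0 1 3 4 (fun n => n + 7))) ((dfn_rank_eq 0 6).and (Dfn.not ?_))))))
    refine Dfn.ex (Q := fun z v => ((z.rank < (v 5).rank ∧
        ¬ z.rank = (v 6).rank) ∧ z = z.rank.toZFSet) ∧ ((v 1).rank.cof = ℵ₀ ∧ HasB c (v 1).rank ∧
        rho c (v 1).rank = (v 3).rank ∧ ∃ x : ZFSet.{0}, x = x.rank.toZFSet ∧
          E (cons z (cons x (fun n => v (n + 7)))) ∧ kk c (v 1).rank (v 4).rank = x.rank)) ?_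
    exact (((dfn_rank_lt 0 6).and (dfn_rank_eq 0 7).not).and (dfn_isOrd 0)).and
      (dfn_pt c hE 0 2 4 5 (fun n => n + 8))
  · intro ξ a
    simp only [Part, Set.mem_ofPred_eq, cons, rank_toZFSet]
    refine and_congr_right fun _ => and_congr_right fun _ => and_congr_right fun _ =>
      and_congr_right fun _ => or_congr (and_congr_right fun _ => hpt ξ a)
        (and_congr_right fun _ => not_congr ?_)
    constructor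
    · rintro ⟨z, hz, h⟩
      refine ⟨z.toZFSet, ?_, ?_⟩
      · rw [rank_toZFSet]; exact ⟨hz, rfl⟩
      · exact (hpt z a).1 h
    · rintro ⟨z, ⟨hz, hz'⟩, h⟩
      refine ⟨z.rank, hz, (hpt _ a).2 ?_⟩
      rw [← hz']
      exact h


end Partition

theorem hodSplits {κ : Cardinal.{0}} (hκ : κ.IsRegular) (hκ' : ℵ₀ < κ)
    (h : Stat {α | α.cof = ℵ₀ ∧ HODSing α} κ.ord) (ν : Ordinal.{0}) (h0 : 0 < ν)
    (hν : ν ≤ κ.ord) : HODSplits ν κ.ord := by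
  obtain ⟨c, ρ, ξ₀, hsp⟩ := exists_split hκ hκ' h
  have hΓ : ∀ β < κ.ord, ∃ b ∈ Gam c κ.ord ρ ξ₀, β < b ∧ b < κ.ord := by
    intro β hβ
    obtain ⟨γ, h1, h2, h3⟩ := hsp β hβ
    exact ⟨γ, h3, h1, h2⟩
  have he : ∀ ξ < κ.ord, ∃ b < κ.ord, Enum (Gam c κ.ord ρ ξ₀) ξ b :=
    fun ξ hξ => enum_regular hκ hΓ ξ hξ
  have hpt : ∀ ξ ζ a, Pt c κ.ord ρ ξ₀ ξ a → Pt c κ.ord ρ ξ₀ ζ a → ξ = ζ := by
    rintro ξ ζ a ⟨-, -, -, γ, h1, h2⟩ ⟨-, -, -, γ', h3, h4⟩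
    rw [← h2] at h1
    rw [← h4] at h3
    exact enum_inj h1 h3
  refine ⟨Part c κ.ord ρ ξ₀ ν, ?_, ?_, ?_, ?_, HOD_seqSet _ _ _ (odRel_part c κ.ord ρ ξ₀ ν)⟩
  · intro ξ hξ
    obtain ⟨b, hb, h1⟩ := he ξ (hξ.trans_le hν)
    have h2 : Stat {a | a.cof = ℵ₀ ∧ HasB c a ∧ rho c a = ρ ∧ kk c a ξ₀ = b} κ.ord := h1.1
    refine h2.mono fun a ha haκ => ⟨haκ, ha.1, ?_⟩
    have h3 : Pt c κ.ord ρ ξ₀ ξ a := ⟨ha.1, ha.2.1, ha.2.2.1, b, h1, ha.2.2.2⟩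
    rcases eq_or_ne ξ 0 with h4 | h4
    · right
      refine ⟨h4, ?_⟩
      rintro ⟨ζ, ⟨-, h5⟩, h6⟩
      exact h5 ((hpt ζ ξ a h6 h3).trans h4)
    · left
      exact ⟨h4, h3⟩
  · intro ξ _ a ha
    exact ⟨ha.1, ha.2.1⟩
  · intro a ha hca
    by_cases h1 : ∃ ζ, (ζ < ν ∧ ζ ≠ 0) ∧ Pt c κ.ord ρ ξ₀ ζ a
    · obtain ⟨ζ, ⟨h2, h3⟩, h4⟩ := h1
      exact ⟨ζ, h2, ha, hca, Or.inl ⟨h3, h4⟩⟩
    · exact ⟨0, h0, ha, hca, Or.inr ⟨rfl, h1⟩⟩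
  · rintro ξ hξ η hη a ⟨-, -, h1⟩ ⟨-, -, h2⟩
    rcases h1 with ⟨h3, h4⟩ | ⟨h3, h4⟩ <;> rcases h2 with ⟨h5, h6⟩ | ⟨h5, h6⟩
    · exact hpt _ _ a h4 h6
    · exact absurd ⟨ξ, ⟨hξ, h3⟩, h4⟩ h6
    · exact absurd ⟨η, ⟨hη, h5⟩, h6⟩ h4
    · rw [h3, h5]

end Pool.Agent.Helper73.HODC
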