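import Pool.Agent.Helper73.HODC.Appr
import Pool.Agent.Helper73.HODC.EEmain
import Pool.Agent.Helper73.HODC.DefE
import Pool.Agent.Helper73.HODC.Split

/-!
# Assembly of the compactness theorem
-/

namespace Pool.Agent.Helper73.HODC

open Ordinal Cardinal ZFSet Order

/-- auxiliary recursion: an increasing continuous sequence of cardinals above `g` and `m` -/
noncomputable def dlt (m : Cardinal.{0}) (g : Ordinal.{0} → Cardinal.{0}) (j : Ordinal.{0}) :
    Cardinal.{0} :=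
  max (succ m) (⨆ i : Set.Iio j, succ (max (dlt m g i.1) (g i.1)))
termination_by j
decreasing_by exact i.2

theorem dlt_eq (m : Cardinal.{0}) (g : Ordinal.{0} → Cardinal.{0}) (j : Ordinal.{0}) :
    dlt m g j = max (succ m) (⨆ i : Set.Iio j, succ (max (dlt m g i.1) (g i.1))) := by
  rw [dlt]

theorem dlt_bdd (m : Cardinal.{0}) (g : Ordinal.{0} → Cardinal.{0}) (j : Ordinal.{0}) :
    BddAbove (Set.range (fun i : Set.Iio j => succ (max (dlt m g i.1) (g i.1)))) :=
  Cardinal.bddAbove_of_small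

theorem dlt_lt (m : Cardinal.{0}) (g : Ordinal.{0} → Cardinal.{0}) {i j : Ordinal.{0}}
    (h : i < j) : max (dlt m g i) (g i) < dlt m g j := by
  rw [dlt_eq m g j]
  refine lt_of_lt_of_le (lt_succ _) ((le_ciSup (dlt_bdd m g j) ⟨i, h⟩).trans (le_max_right _ _))

theorem exists_setting {lam : Cardinal.{0}} (hs : lam.IsSingular) (hc : ℵ₀ < lam.ord.cof)
    (h1 : ∀ δ < lam, δ ^ lam.ord.cof < lam)
    (h2 : (2 : Cardinal.{0}) ^ ((2 : Cardinal.{0}) ^ lam.ord.cof) < lam) :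
    ∃ δ, Setting lam lam.ord.cof δ := by
  classical
  set m := lam.ord.cof with hm
  have hlim : IsSuccLimit lam.ord := by
    rw [← one_lt_cof_iff]
    exact Cardinal.one_lt_aleph0.trans hc
  have hreg : m.IsRegular := isRegular_cof hlim
  -- a cofinal sequence
  obtain ⟨ι, f, hf, hι⟩ := exists_lsub_cof lam.ord
  have hcard : Cardinal.lift.{1} (Cardinal.mk ι) = Cardinal.lift.{0} (Cardinal.mk (Set.Iio m.ord)) := by
    rw [Cardinal.mk_Iio_ordinal, Cardinal.card_ord, Cardinal.lift_lift, hι]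
  obtain ⟨e⟩ := Cardinal.lift_mk_eq'.1 hcard
  let g : Ordinal.{0} → Cardinal.{0} := fun i =>
    if h : i < m.ord then (f (e.symm ⟨i, h⟩)).card else 0
  have hg : ∀ c < lam, ∃ i < m.ord, c ≤ g i := by
    intro c hc'
    have h3 : c.ord < lsub f := by
      rw [hf]
      exact Cardinal.ord_lt_ord.2 hc'
    obtain ⟨a, ha⟩ := lt_lsub_iff.1 h3
    refine ⟨(e a).1, (e a).2, ?_⟩
    have h4 : g (e a).1 = (f a).card := by
      have h5 : ((e a).1 : Ordinal.{0}) < m.ord := (e a).2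
      simp only [g]
      rw [dif_pos h5]
      congr 2
      exact e.symm_apply_apply a
    rw [h4, ← Cardinal.ord_le]
    exact ha
  have hglt : ∀ i, g i < lam := by
    intro i
    simp only [g]
    split_ifs with h
    · rw [← Cardinal.lt_ord]
      rw [← hf]
      exact lt_lsub _ _
    · exact hs.pos
  have hm_lt : m < lam := hs.cof_ord_lt
  have hlamlim : IsSuccLimit lam := hs.isSuccLimit
  have hdlt : ∀ j < m.ord, dlt m g j < lam := by
    intro j
    induction j using WellFoundedLT.induction with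
    | _ j ih =>
      intro hj
      rw [dlt_eq]
      refine max_lt (hlamlim.succ_lt hm_lt) ?_
      refine Cardinal.lift_iSup_lt_of_lt_cof_ord ?_ ?_
      · rw [Cardinal.mk_Iio_ordinal]
        rw [Cardinal.lift_uzero, ← Cardinal.lift_ord, ← Ordinal.lift_cof, Cardinal.lift_lt]
        exact Cardinal.lt_ord.1 hj
      · rintro ⟨i, hi⟩
        exact hlamlim.succ_lt (max_lt (ih i hi (lt_trans hi hj)) (hglt i))
  refine ⟨dlt m g, hreg, hc, hdlt, ?_, ?_, ?_, ?_, h1, h2⟩
  · intro i j hij _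
    exact (le_max_left _ _).trans_lt (dlt_lt m g hij)
  · intro j _ hj c hcj
    rw [dlt_eq] at hcj
    rcases lt_max_iff.1 hcj with h3 | h3
    · refine ⟨0, hj.bot_lt, ?_⟩
      rw [dlt_eq]
      exact h3.trans_le (le_max_left _ _)
    · have hne : Nonempty (Set.Iio j) := ⟨⟨0, hj.bot_lt⟩⟩
      obtain ⟨⟨i, hi⟩, h4⟩ := exists_lt_of_lt_ciSup h3
      refine ⟨i + 1, hj.succ_lt hi, ?_⟩
      exact (Order.lt_succ_iff.1 h4).trans_lt (dlt_lt m g (lt_add_one i))
  · intro c hcl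
    obtain ⟨i, hi, h3⟩ := hg c hcl
    refine ⟨i + 1, ?_, ?_⟩
    · have : IsSuccLimit m.ord := isSuccLimit_ord hreg.aleph0_le
      exact this.succ_lt hi
    · exact (h3.trans (le_max_right _ _)).trans_lt (dlt_lt m g (lt_add_one i))
  · rw [dlt_eq]
    exact (lt_succ m).trans_le (le_max_left _ _)

theorem stat_transfer {lam m : Cardinal.{0}} {δ : Ordinal.{0} → Cardinal.{0}}
    (hs : Setting lam m δ) (Q : Cardinal.{0} → Prop)
    (h : Stat {a | ∃ d : Cardinal.{0}, a = d.ord ∧ Q d} lam.ord) :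
    Stat {i | Q (δ i)} m.ord := by
  intro C₀ hC₀
  have hcof : ℵ₀ < m.ord.cof := ex_cof_reg hs.reg hs.unc
  set C : Set Ordinal.{0} := C₀ ∩ {a | IsSuccLimit a} with hCdef
  have hC : Club C m.ord := hC₀.inter hcof (club_limit hcof)
  have hmono : ∀ i j, i < m.ord → j < m.ord → (δ i).ord < (δ j).ord → i < j := by
    intro i j hi hj hij
    by_contra hcon
    rcases (not_lt.1 hcon).lt_or_eq with h1 | h1
    · exact absurd hij (not_lt.2 (Cardinal.ord_le_ord.2 (hs.mono j i h1 hi).le))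
    · subst h1
      exact lt_irrefl _ hij
  obtain ⟨a, ⟨d, hd, hQ⟩, ⟨i, hi, him, hia⟩, _⟩ := h {a | ∃ i ∈ C, i < m.ord ∧ a = (δ i).ord} (by
    constructor
    · intro a ha
      obtain ⟨i, hi, hai⟩ := hs.cofinal a.card (Cardinal.lt_ord.1 ha)
      obtain ⟨b, hbC, hib, hbm⟩ := hC.1 i hi
      refine ⟨(δ b).ord, ⟨b, hbC, hbm, rfl⟩, ?_, Cardinal.ord_lt_ord.2 (hs.lt b hbm)⟩
      exact (Cardinal.lt_ord.2 hai).trans (Cardinal.ord_lt_ord.2 (hs.mono i b hib hbm))
    · intro a ha ha0 hua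
      -- the indices below
      set I : Set Ordinal.{0} := {i | i ∈ C ∧ i < m.ord ∧ (δ i).ord < a} with hI
      have hun : ∀ b < a, ∃ i ∈ I, b < (δ i).ord := by
        intro b hb
        obtain ⟨c, ⟨i, hiC, him, rfl⟩, hbc, hca⟩ := hua b hb
        exact ⟨i, ⟨hiC, him, hca⟩, hbc⟩
      obtain ⟨i₁, hi₁, hai₁⟩ := hs.cofinal a.card (Cardinal.lt_ord.1 ha)
      have hai₁' : a < (δ i₁).ord := Cardinal.lt_ord.2 hai₁
      have hbd : ∀ i ∈ I, i < i₁ := fun i hi => hmono i i₁ hi.2.1 hi₁ (hi.2.2.trans hai₁')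
      have hbdd : BddAbove I := ⟨i₁, fun i hi => (hbd i hi).le⟩
      have hne : I.Nonempty := by
        obtain ⟨i, hi, _⟩ := hun 0 (bot_lt_iff_ne_bot.2 ha0)
        exact ⟨i, hi⟩
      set j := sSup I with hj
      have hj₁ : j < m.ord := (csSup_le hne (fun i hi => (hbd i hi).le)).trans_lt hi₁
      have hnomax : ∀ i ∈ I, ∃ i' ∈ I, i < i' := by
        intro i hi
        obtain ⟨i', hi', hlt⟩ := hun _ hi.2.2
        exact ⟨i', hi', hmono i i' hi.2.1 hi'.2.1 hlt⟩
      have hltj : ∀ i ∈ I, i < j := by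
        intro i hi
        obtain ⟨i', hi', hlt⟩ := hnomax i hi
        exact hlt.trans_le (le_csSup hbdd hi')
      have hjC : j ∈ C := by
        refine hC.2 j hj₁ ?_ ?_
        · obtain ⟨i, hi⟩ := hne
          exact (bot_le.trans_lt (hltj i hi)).ne'
        · intro x hx
          obtain ⟨i, hi, hxi⟩ := exists_lt_of_lt_csSup hne hx
          exact ⟨i, hi.1, hxi, hltj i hi⟩
      refine ⟨j, hjC, hj₁, ?_⟩
      apply le_antisymm
      · by_contra hcon
        push Not at hcon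
        obtain ⟨i, hi, hlt⟩ := hun _ hcon
        exact absurd (hmono j i hj₁ hi.2.1 hlt) (not_lt.2 (hltj i hi).le)
      · by_contra hcon
        push Not at hcon
        obtain ⟨i, hi, hlt⟩ := hs.cont j hj₁ hjC.2 a.card (Cardinal.lt_ord.1 hcon)
        obtain ⟨i', hi', hlt'⟩ := exists_lt_of_lt_csSup hne hi
        have h3 : (δ i).ord < (δ i').ord := Cardinal.ord_lt_ord.2 (hs.mono i i' hlt' hi'.2.1)
        exact lt_irrefl a (((Cardinal.lt_ord.2 hlt).trans h3).trans hi'.2.2))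
  refine ⟨i, ?_, hi.1, him⟩
  have : d = δ i := Cardinal.ord_injective (hd.symm.trans hia)
  show Q (δ i)
  rw [← this]
  exact hQ

theorem almost_singular {lam m : Cardinal.{0}} {δ : Ordinal.{0} → Cardinal.{0}}
    (hs : Setting lam m δ) (hS : Stat {i | ¬ Stat regPts (succ (δ i)).ord} m.ord) :
    ∃ D, Club D (succ lam).ord ∧ ∀ α ∈ D, α < (succ lam).ord → α.cof = ℵ₀ → HODSing α := by
  classical
  have hcof : ℵ₀ < m.ord.cof := ex_cof_reg hs.reg hs.unc
  set S : Set Ordinal.{0} := {i | ¬ Stat regPts (succ (δ i)).ord} with hSdef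
  have hch : ∀ i, ∃ C, i ∈ S → Club C (succ (δ i)).ord ∧
      ∀ a ∈ C, a < (succ (δ i)).ord → a ∉ regPts := by
    intro i
    by_cases hi : i ∈ S
    · have hi' : ¬ Stat regPts (succ (δ i)).ord := hi
      unfold Stat at hi'
      push Not at hi'
      obtain ⟨C, hC, h⟩ := hi'
      refine ⟨C, fun _ => ⟨hC, fun a haC ha har => ?_⟩⟩
      exact absurd ha (not_lt.2 (h a har haC))
    · exact ⟨∅, fun h => absurd h hi⟩
  choose Ci hCi using hch
  obtain ⟨D, hD, h⟩ := exists_appr hs S Ci (fun i hi _ => (hCi i hi).1)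
  refine ⟨D, hD, fun α hα hαl hαcof => ?_⟩
  obtain ⟨hlt, f, G, r, hA, C, hC, hf⟩ := h α hα hαl hαcof
  have hSC : Stat (S ∩ C) m.ord := hS.inter_club hcof hC
  have := countable_Fm
  obtain ⟨c, hc⟩ := stat_of_iUnion (ι := Fm × ℕ) hcof hSC (A := fun c => {i | HasB c (f i)}) (by
    intro i hi him
    obtain ⟨h1, h2, h3⟩ := hf i hi.2 him hi.1
    have h4 : f i ∉ regPts := (hCi i hi.1).2 _ h1 h3
    have h5 : HODSing (f i) := by
      by_contra hcon
      exact h4 ⟨h2, hcon⟩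
    exact exists_hasB h5)
  obtain ⟨ρ, hρ, hE⟩ := EE_unb hs.reg hs.unc hA hc (P := HasB c) (rh := rho c) (k := kk c)
    (fun i hi _ => hi.2) (fun γ hγ => ⟨rho_lt hγ, fun ξ hξ => kk_lt hγ hξ,
      fun β hβ => kk_cof hγ hβ⟩)
  have hlim : IsSuccLimit α := by
    rw [← Ordinal.one_lt_cof_iff, hαcof]
    exact Cardinal.one_lt_aleph0
  refine hodSing_of_rel hlim (ODRel_EE m.ord α c) hρ hlt.le (fun ξ _ => ?_) hE
  exact (EE_card hs.reg hs.unc α _ _ _ ξ).trans_lt (Cardinal.lift_lt.2 hs.pow2)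

/-- **Main theorem.** -/
theorem main {lam : Cardinal.{0}} (hs : lam.IsSingular) (hc : ℵ₀ < lam.ord.cof)
    (h1 : ∀ δ < lam, δ ^ lam.ord.cof < lam)
    (h2 : (2 : Cardinal.{0}) ^ ((2 : Cardinal.{0}) ^ lam.ord.cof) < lam)
    (h : Stat {a | ∃ δ : Cardinal.{0}, a = δ.ord ∧ ¬ Stat regPts (succ δ).ord} lam.ord) :
    ¬ Stat regPts (succ lam).ord ∧
      (∀ ν, 0 < ν → ν ≤ (succ lam).ord → HODSplits ν (succ lam).ord) ∧
      ¬ OmegaStronglyMeasurable (succ lam).ord := by
  obtain ⟨δ, hset⟩ := exists_setting hs hc h1 h2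
  obtain ⟨D, hD, hDs⟩ := almost_singular hset (stat_transfer hset _ h)
  have hlam : ℵ₀ ≤ lam := by
    have := hs.isSuccLimit
    exact hset.reg.aleph0_le.trans ((hset.big.trans (hset.lt 0 (by
      have : IsSuccLimit lam.ord.cof.ord := ex_limit_reg hset.reg
      exact this.bot_lt))).le)
  have hregs : (succ lam).IsRegular := isRegular_succ hlam
  have hunc : ℵ₀ < succ lam := hlam.trans_lt (lt_succ lam)
  have hcof : ℵ₀ < (succ lam).ord.cof := ex_cof_reg hregs hunc
  have hsplit : ∀ ν, 0 < ν → ν ≤ (succ lam).ord → HODSplits ν (succ lam).ord := by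
    intro ν h0 hν
    refine hodSplits hregs hunc ?_ ν h0 hν
    exact ((stat_cof_omega hcof).inter_club hcof hD).mono
      (fun a ha haμ => ⟨ha.1, hDs a ha.2 haμ ha.1⟩)
  refine ⟨?_, hsplit, ?_⟩
  · intro h
    obtain ⟨a, ha, haD, hal⟩ := h D hD
    exact ha.2 (hDs a haD hal ha.1)
  · rintro ⟨κ, hκ0, hκ, _, hns⟩
    apply hns
    refine hsplit κ.ord ?_ hκ.le
    rw [Cardinal.lt_ord]
    simpa using bot_lt_iff_ne_bot.2 hκ0

end Pool.Agent.Helper73.HODC
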