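import Pool.Agent.Helper73.HODC.Logic
import Pool.Agent.Helper73.HODC.Dfn
import Pool.Agent.Helper73.HODC.Enum

namespace Pool.Agent.Helper73.HODC

open Ordinal Cardinal ZFSet Order

/-! ## Module OR (file ODRel.lean) : members of HOD from definable relations
(uses LG, DF, EN) -/

/-! ### A calculus of predicates definable from ordinal parameters -/

/-- variables at even places, parameters at odd places -/
def mixZ (v w : ℕ → ZFSet.{0}) (n : ℕ) : ZFSet.{0} := if n % 2 = 0 then v (n / 2) else w (n / 2)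

theorem mixZ_even (v w : ℕ → ZFSet.{0}) (n : ℕ) : mixZ v w (2 * n) = v n := by
  simp [mixZ]

theorem mixZ_odd (v w : ℕ → ZFSet.{0}) (n : ℕ) : mixZ v w (2 * n + 1) = w n := by
  have h1 : (2 * n + 1) % 2 ≠ 0 := by omega
  have h2 : (2 * n + 1) / 2 = n := by omega
  rw [mixZ, if_neg h1, h2]

theorem cons_zero (x : ZFSet.{0}) (v : ℕ → ZFSet.{0}) : cons x v 0 = x := rfl

theorem cons_succ (x : ZFSet.{0}) (v : ℕ → ZFSet.{0}) (n : ℕ) : cons x v (n + 1) = v n := rfl

theorem cons_eta (v : ℕ → ZFSet.{0}) : cons (v 0) (fun n => v (n + 1)) = v := by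
  funext n
  cases n <;> rfl

/-- definable over `V` with ordinal parameters -/
def DP (Q : (ℕ → ZFSet.{0}) → Prop) : Prop :=
  ∃ (P : (ℕ → ZFSet.{0}) → Prop) (p : ℕ → Ordinal.{0}), Dfn P ∧
    ∀ v, Q v ↔ P (mixZ v (fun k => (p k).toZFSet))

theorem DP.congr {Q Q' : (ℕ → ZFSet.{0}) → Prop} (h : DP Q) (hQ : ∀ v, Q' v ↔ Q v) : DP Q' := by
  obtain ⟨P, p, hP, h⟩ := h
  exact ⟨P, p, hP, fun v => (hQ v).trans (h v)⟩

theorem DP.of {Q : (ℕ → ZFSet.{0}) → Prop} (h : Dfn Q) : DP Q := by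
  refine ⟨fun w => Q (fun n => w (2 * n)), fun _ => 0, h.rename (fun n => 2 * n), ?_⟩
  intro v
  simp only [mixZ_even]

theorem DP.not {Q : (ℕ → ZFSet.{0}) → Prop} (h : DP Q) : DP (fun v => ¬ Q v) := by
  obtain ⟨P, p, hP, h⟩ := h
  exact ⟨_, p, hP.not, fun v => not_congr (h v)⟩

/-- renaming for conjunctions -/
def sh (b n : ℕ) : ℕ := if n % 2 = 0 then n else 2 * (2 * (n / 2) + b) + 1

theorem mixZ_sh (v : ℕ → ZFSet.{0}) (p : ℕ → Ordinal.{0}) (p1 : ℕ → Ordinal.{0}) (b : ℕ)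
    (h : ∀ n, p (2 * n + b) = p1 n) :
    (fun n => mixZ v (fun k => (p k).toZFSet) (sh b n)) = mixZ v (fun k => (p1 k).toZFSet) := by
  funext n
  rcases Nat.even_or_odd' n with ⟨k, rfl | rfl⟩
  · have : sh b (2 * k) = 2 * k := by simp [sh]
    rw [this, mixZ_even, mixZ_even]
  · have : sh b (2 * k + 1) = 2 * (2 * k + b) + 1 := by
      have h1 : (2 * k + 1) % 2 ≠ 0 := by omega
      have h2 : (2 * k + 1) / 2 = k := by omega
      rw [sh, if_neg h1, h2]
    rw [this, mixZ_odd, mixZ_odd, h]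

theorem DP.and {Q Q' : (ℕ → ZFSet.{0}) → Prop} (h : DP Q) (h' : DP Q') :
    DP (fun v => Q v ∧ Q' v) := by
  obtain ⟨P, p, hP, h⟩ := h
  obtain ⟨P', p', hP', h'⟩ := h'
  refine ⟨fun w => P (fun n => w (sh 0 n)) ∧ P' (fun n => w (sh 1 n)),
    fun n => if n % 2 = 0 then p (n / 2) else p' (n / 2),
    (hP.rename (sh 0)).and (hP'.rename (sh 1)), ?_⟩
  intro v
  beta_reduce
  rw [mixZ_sh v (fun n => if n % 2 = 0 then p (n / 2) else p' (n / 2)) p 0,
    mixZ_sh v (fun n => if n % 2 = 0 then p (n / 2) else p' (n / 2)) p' 1, h, h']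
  · intro n
    have h1 : (2 * n + 1) % 2 ≠ 0 := by omega
    have h2 : (2 * n + 1) / 2 = n := by omega
    simp only [h1, h2, if_false]
  · intro n
    simp

theorem DP.or {Q Q' : (ℕ → ZFSet.{0}) → Prop} (h : DP Q) (h' : DP Q') :
    DP (fun v => Q v ∨ Q' v) :=
  (h.not.and h'.not).not.congr (fun v => by tauto)

theorem DP.imp {Q Q' : (ℕ → ZFSet.{0}) → Prop} (h : DP Q) (h' : DP Q') :
    DP (fun v => Q v → Q' v) :=
  (h.and h'.not).not.congr (fun v => by tauto)

theorem DP.iff {Q Q' : (ℕ → ZFSet.{0}) → Prop} (h : DP Q) (h' : DP Q') :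
    DP (fun v => Q v ↔ Q' v) :=
  ((h.imp h').and (h'.imp h)).congr (fun v => by tauto)

theorem DP.all {Q : ZFSet.{0} → (ℕ → ZFSet.{0}) → Prop}
    (h : DP (fun v => Q (v 0) (fun n => v (n + 1)))) : DP (fun v => ∀ x, Q x v) := by
  obtain ⟨P, p, hP, h⟩ := h
  let t : ℕ → ℕ := fun n => if n = 0 then 0 else if n % 2 = 0 then n - 1 else n + 1
  refine ⟨fun w => ∀ x, P (fun n => cons x w (t n)), p, ?_, ?_⟩
  · refine Dfn.all (Q := fun x w => P (fun n => cons x w (t n))) ?_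
    simp only [cons_eta]
    exact hP.rename t
  · intro v
    refine forall_congr' fun x => ?_
    have h1 := h (cons x v)
    simp only [cons_zero, cons_succ] at h1
    rw [h1]
    have : mixZ (cons x v) (fun k => (p k).toZFSet) =
        fun n => cons x (mixZ v (fun k => (p k).toZFSet)) (t n) := by
      funext n
      rcases Nat.even_or_odd' n with ⟨k, rfl | rfl⟩
      · rw [mixZ_even]
        rcases k with _ | k
        · rfl
        · have : t (2 * (k + 1)) = 2 * k + 1 := by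
            have h1 : 2 * (k + 1) ≠ 0 := by omega
            have h2 : (2 * (k + 1)) % 2 = 0 := by omega
            simp only [t, h1, h2, if_false, if_true]
            omega
          rw [this, cons_succ, cons_succ, mixZ_even]
      · have : t (2 * k + 1) = (2 * k + 1) + 1 := by
          have h1 : 2 * k + 1 ≠ 0 := by omega
          have h2 : (2 * k + 1) % 2 ≠ 0 := by omega
          simp only [t, h1, h2, if_false]
        rw [this, cons_succ, mixZ_odd, mixZ_odd]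
    rw [this]

theorem DP.ex {Q : ZFSet.{0} → (ℕ → ZFSet.{0}) → Prop}
    (h : DP (fun v => Q (v 0) (fun n => v (n + 1)))) : DP (fun v => ∃ x, Q x v) :=
  (DP.all (Q := fun x v => ¬ Q x v) h.not).not.congr (fun v => by push Not; rfl)

theorem DP.rename {Q : (ℕ → ZFSet.{0}) → Prop} (h : DP Q) (s : ℕ → ℕ) :
    DP (fun v => Q (fun n => v (s n))) := by
  obtain ⟨P, p, hP, h⟩ := h
  refine ⟨fun w => P (fun n => w (if n % 2 = 0 then 2 * s (n / 2) else n)), p, hP.rename _, ?_⟩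
  intro v
  beta_reduce
  rw [h]
  have : mixZ (fun n => v (s n)) (fun k => (p k).toZFSet) =
      fun n => mixZ v (fun k => (p k).toZFSet) (if n % 2 = 0 then 2 * s (n / 2) else n) := by
    funext n
    by_cases hn : n % 2 = 0
    · simp only [hn, if_true]
      rw [mixZ_even, mixZ, if_pos hn]
    · simp only [hn, if_false]
      rw [mixZ, mixZ, if_neg hn, if_neg hn]
  rw [this]

theorem DP.allO {Q : Ordinal.{0} → (ℕ → ZFSet.{0}) → Prop}
    (h : DP (fun v => Q (v 0).rank (fun n => v (n + 1)))) : DP (fun v => ∀ a, Q a v) :=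
  (DP.all (Q := fun x v => Q x.rank v) h).congr (fun v =>
    ⟨fun h x => h x.rank, fun h a => by simpa using h a.toZFSet⟩)

theorem DP.exO {Q : Ordinal.{0} → (ℕ → ZFSet.{0}) → Prop}
    (h : DP (fun v => Q (v 0).rank (fun n => v (n + 1)))) : DP (fun v => ∃ a, Q a v) :=
  (DP.allO (Q := fun x v => ¬ Q x v) h.not).not.congr (fun v => by push Not; rfl)

theorem DP.const (p : Prop) : DP (fun _ => p) := DP.of (Dfn.const p)

/-- ordinals may be used as parameters -/
theorem DP.eq_ord (i : ℕ) (c : Ordinal.{0}) : DP (fun v => v i = c.toZFSet) := by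
  refine ⟨fun w => w (2 * i) = w (2 * 0 + 1), fun _ => c, dfn_eq _ _, ?_⟩
  intro v
  beta_reduce
  rw [mixZ_even, mixZ_odd]

theorem DP.mem (i j : ℕ) : DP (fun v => v i ∈ v j) := DP.of (dfn_mem i j)

theorem DP.eq (i j : ℕ) : DP (fun v => v i = v j) := DP.of (dfn_eq i j)

theorem DP.pair (i j k : ℕ) : DP (fun v => v i = ZFSet.pair (v j) (v k)) := DP.of (dfn_pair i j k)

theorem DP.rank_le (i j : ℕ) : DP (fun v => (v i).rank ≤ (v j).rank) := DP.of (dfn_rank_le i j)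

theorem DP.rank_lt (i j : ℕ) : DP (fun v => (v i).rank < (v j).rank) := DP.of (dfn_rank_lt i j)

theorem DP.rank_eq (i j : ℕ) : DP (fun v => (v i).rank = (v j).rank) := DP.of (dfn_rank_eq i j)

theorem DP.isOrd (i : ℕ) : DP (fun v => v i = (v i).rank.toZFSet) := DP.of (dfn_isOrd i)

theorem DP.fn (i j k : ℕ) : DP (fun v => HODC.fn (v i) (v j).rank = (v k).rank) :=
  DP.of (dfn_fn i j k)

theorem DP.st (i j : ℕ) : DP (fun v => (v i).rank ∈ HODC.st (v j)) := DP.of (dfn_st i j)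

theorem DP.rank_lt_ord (i : ℕ) (c : Ordinal.{0}) : DP (fun v => (v i).rank < c) :=
  (DP.ex (Q := fun x v => x = c.toZFSet ∧ (v i).rank < x.rank)
    ((DP.eq_ord 0 c).and (DP.rank_lt (i + 1) 0))).congr
    (fun v => ⟨fun h => ⟨_, rfl, by simpa using h⟩, fun ⟨x, h1, h2⟩ => by
      rw [h1] at h2; simpa using h2⟩)

theorem DP.ord_lt_rank (i : ℕ) (c : Ordinal.{0}) : DP (fun v => c < (v i).rank) :=
  (DP.ex (Q := fun x v => x = c.toZFSet ∧ x.rank < (v i).rank)
    ((DP.eq_ord 0 c).and (DP.rank_lt 0 (i + 1)))).congr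
    (fun v => ⟨fun h => ⟨_, rfl, by simpa using h⟩, fun ⟨x, h1, h2⟩ => by
      rw [h1] at h2; simpa using h2⟩)

theorem DP.rank_eq_ord (i : ℕ) (c : Ordinal.{0}) : DP (fun v => (v i).rank = c) :=
  ((DP.rank_lt_ord i c).or (DP.ord_lt_rank i c)).not.congr (fun v => by
    rw [not_or, not_lt, not_lt]
    exact ⟨fun h => ⟨h.ge, h.le⟩, fun h => le_antisymm h.2 h.1⟩)

/-- members of `DP` classes determined by the first variable are ordinal definable -/
theorem DP.od {x : ZFSet.{0}} (h : DP (fun v => v 0 = x)) : OD x := by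
  obtain ⟨P, p, hP, h⟩ := h
  refine OD_of_dfn (P := fun w => P (fun n => w (if n % 2 = 0 then (if n = 0 then 0 else 1)
    else n / 2 + 1))) (hP.rename _) p x ?_
  intro y
  have h1 := h (fun n => if n = 0 then y else (p 0).toZFSet)
  simp only [if_true] at h1
  rw [h1]
  have : mixZ (fun n => if n = 0 then y else (p 0).toZFSet) (fun k => (p k).toZFSet) =
      fun n => cons y (fun k => (p k).toZFSet) (if n % 2 = 0 then (if n = 0 then 0 else 1)
        else n / 2 + 1) := by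
    funext n
    by_cases hn : n % 2 = 0
    · rw [mixZ, if_pos hn, if_pos hn]
      by_cases h0 : n = 0
      · subst h0; rfl
      · have h2 : n / 2 ≠ 0 := by omega
        rw [if_neg h0, if_neg h2]
        rfl
    · rw [mixZ, if_neg hn, if_neg hn]
      rfl
  rw [this]

/-- `ODRel` in terms of `DP` -/
theorem odRel_iff_DP (Q : Ordinal.{0} → Ordinal.{0} → Prop) :
    ODRel Q ↔ DP (fun v => Q (v 0).rank (v 1).rank) := by
  constructor
  · rintro ⟨P, p, hP, h⟩
    have h0 : DP (fun v => P (cons (v 0) (cons (v 1) (fun k => (p k).toZFSet)))) := by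
      refine ⟨fun w => P (fun n => w (if n = 0 then 2 * 0 else if n = 1 then 2 * 1 else
        2 * (n - 2) + 1)), p, hP.rename _, ?_⟩
      intro v
      have : cons (v 0) (cons (v 1) (fun k => (p k).toZFSet)) = fun n =>
          mixZ v (fun k => (p k).toZFSet) (if n = 0 then 2 * 0 else if n = 1 then 2 * 1 else
            2 * (n - 2) + 1) := by
        funext n
        rcases n with _ | _ | n
        · rw [if_pos rfl, mixZ_even]; rfl
        · rw [if_neg (by omega), if_pos rfl, mixZ_even]; rfl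
        · rw [if_neg (by omega), if_neg (by omega), mixZ_odd]
          rfl
      beta_reduce
      rw [this]
    have h1 := h0.rename (fun n => if n = 0 then 1 else 0)
    refine (DP.ex (Q := fun x v => (x = x.rank.toZFSet ∧ x.rank = (v 0).rank) ∧
      ∃ y : ZFSet.{0}, (y = y.rank.toZFSet ∧ y.rank = (v 1).rank) ∧
        P (cons x (cons y (fun k => (p k).toZFSet)))) ?_).congr ?_
    · refine ((DP.isOrd 0).and (DP.rank_eq 0 1)).and ?_
      refine DP.ex (Q := fun y v => (y = y.rank.toZFSet ∧ y.rank = (v 2).rank) ∧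
        P (cons (v 0) (cons y (fun k => (p k).toZFSet)))) ?_
      exact ((DP.isOrd 0).and (DP.rank_eq 0 3)).and h1
    · intro v
      rw [h]
      constructor
      · intro h2
        exact ⟨_, ⟨by rw [rank_toZFSet], by rw [rank_toZFSet]⟩, _,
          ⟨by rw [rank_toZFSet], by rw [rank_toZFSet]⟩, h2⟩
      · rintro ⟨x, ⟨hx, hx'⟩, y, ⟨hy, hy'⟩, h2⟩
        rw [hx'] at hx
        rw [hy'] at hy
        rw [← hx, ← hy]
        exact h2
  · rintro ⟨P, p, hP, h⟩
    refine ⟨fun w => P (fun n => w (if n % 2 = 0 then (if n = 0 then 0 else if n = 2 then 1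
      else 2) else n / 2 + 2)), p, hP.rename _, ?_⟩
    intro a b
    have h1 := h (fun n => if n = 0 then a.toZFSet else if n = 1 then b.toZFSet else (p 0).toZFSet)
    simp only [if_true, one_ne_zero, if_false, rank_toZFSet] at h1
    rw [h1]
    have : mixZ (fun n => if n = 0 then a.toZFSet else if n = 1 then b.toZFSet else (p 0).toZFSet)
        (fun k => (p k).toZFSet) = fun n => cons a.toZFSet (cons b.toZFSet
          (fun k => (p k).toZFSet)) (if n % 2 = 0 then (if n = 0 then 0 else if n = 2 then 1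
            else 2) else n / 2 + 2) := by
      funext n
      by_cases hn : n % 2 = 0
      · rw [mixZ, if_pos hn, if_pos hn]
        by_cases h0 : n = 0
        · subst h0; rfl
        · by_cases h2 : n = 2
          · subst h2; rfl
          · have h3 : n / 2 ≠ 0 := by omega
            have h4 : n / 2 ≠ 1 := by omega
            rw [if_neg h0, if_neg h2, if_neg h3, if_neg h4]
            rfl
      · rw [mixZ, if_neg hn, if_neg hn]
        rfl
    rw [this]

/-! ### Members of HOD -/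

theorem dp_at {x : ZFSet.{0}} (h : DP (fun v => v 0 = x)) (i : ℕ) : DP (fun v => v i = x) :=
  h.rename (fun _ => i)

theorem dp_pair {x y : ZFSet.{0}} (hx : DP (fun v => v 0 = x)) (hy : DP (fun v => v 0 = y)) :
    DP (fun v => v 0 = ZFSet.pair x y) := by
  refine (DP.ex (Q := fun a v => ∃ b, v 0 = ZFSet.pair a b ∧ a = x ∧ b = y) ?_).congr ?_
  · refine DP.ex (Q := fun b v => v 1 = ZFSet.pair (v 0) b ∧ v 0 = x ∧ b = y) ?_
    exact (DP.pair 2 1 0).and ((dp_at hx 1).and (dp_at hy 0))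
  · intro v
    constructor
    · intro h
      exact ⟨x, y, h, rfl, rfl⟩
    · rintro ⟨a, b, h, rfl, rfl⟩
      exact h

theorem dp_upair {x y : ZFSet.{0}} (hx : DP (fun v => v 0 = x)) (hy : DP (fun v => v 0 = y)) :
    DP (fun v => v 0 = ({x, y} : ZFSet.{0})) := by
  refine (DP.all (Q := fun z v => z ∈ v 0 ↔ (z = x ∨ z = y)) ?_).congr ?_
  · exact (DP.mem 0 1).iff ((dp_at hx 0).or (dp_at hy 0))
  · intro v
    rw [ZFSet.ext_iff]
    simp only [ZFSet.mem_pair]

theorem HOD_upair {x y : ZFSet.{0}} (hx : HOD x) (hy : HOD y) (dx : DP (fun v => v 0 = x))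
    (dy : DP (fun v => v 0 = y)) : HOD ({x, y} : ZFSet.{0}) := by
  refine HOD.intro _ (dp_upair dx dy).od ?_
  intro z hz
  rcases ZFSet.mem_pair.mp hz with rfl | rfl
  · exact hx
  · exact hy

theorem HOD_pair {x y : ZFSet.{0}} (hx : HOD x) (hy : HOD y) (dx : DP (fun v => v 0 = x))
    (dy : DP (fun v => v 0 = y)) : HOD (ZFSet.pair x y) := by
  have h1 : HOD ({x} : ZFSet.{0}) := by
    rw [← ZFSet.pair_eq_singleton]
    exact HOD_upair hx hx dx dx
  have h2 : DP (fun v => v 0 = ({x} : ZFSet.{0})) := by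
    rw [← ZFSet.pair_eq_singleton]
    exact dp_upair dx dx
  exact HOD_upair h1 (HOD_upair hx hy dx dy) h2 (dp_upair dx dy)

theorem HOD_toZFSet (a : Ordinal.{0}) : HOD a.toZFSet := by
  induction a using WellFoundedLT.induction with
  | ind a ih =>
    refine HOD.intro _ (DP.eq_ord 0 a).od ?_
    intro y hy
    obtain ⟨b, hb, rfl⟩ := mem_toZFSet_iff.mp hy
    exact ih b hb

theorem mem_graph (ρ : Ordinal.{0}) (f : Ordinal.{0} → Ordinal.{0}) (z : ZFSet.{0}) :
    z ∈ graph ρ f ↔ ∃ a < ρ, z = ZFSet.pair a.toZFSet (f a).toZFSet := by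
  rw [graph, ZFSet.mem_range]
  constructor
  · rintro ⟨⟨a, ha⟩, h⟩
    exact ⟨a, ha, h.symm⟩
  · rintro ⟨a, ha, h⟩
    exact ⟨⟨a, ha⟩, h.symm⟩

theorem HOD_graph (ρ : Ordinal.{0}) (f : Ordinal.{0} → Ordinal.{0})
    (h : ODRel (fun a b => a < ρ ∧ b = f a)) : HOD (graph ρ f) := by
  have hQ := (odRel_iff_DP _).mp h
  refine HOD.intro _ (DP.od ?_) ?_
  · refine (DP.all (Q := fun z v => z ∈ v 0 ↔ ∃ u : ZFSet.{0}, ∃ w : ZFSet.{0},
      (u = u.rank.toZFSet ∧ w = w.rank.toZFSet) ∧ z = ZFSet.pair u w ∧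
        (u.rank < ρ ∧ w.rank = f u.rank)) ?_).congr ?_
    · refine (DP.mem 0 1).iff ?_
      refine DP.ex (Q := fun u v => ∃ w : ZFSet.{0},
        (u = u.rank.toZFSet ∧ w = w.rank.toZFSet) ∧ v 0 = ZFSet.pair u w ∧
        (u.rank < ρ ∧ w.rank = f u.rank)) ?_
      refine DP.ex (Q := fun w v => (v 0 = (v 0).rank.toZFSet ∧ w = w.rank.toZFSet) ∧
        v 1 = ZFSet.pair (v 0) w ∧ ((v 0).rank < ρ ∧ w.rank = f (v 0).rank)) ?_
      refine ((DP.isOrd 1).and (DP.isOrd 0)).and ((DP.pair 2 1 0).and ?_)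
      exact hQ.rename (fun n => if n = 0 then 1 else 0)
    · intro v
      rw [ZFSet.ext_iff]
      refine forall_congr' fun z => iff_congr Iff.rfl ?_
      rw [mem_graph]
      constructor
      · rintro ⟨a, ha, rfl⟩
        exact ⟨_, _, ⟨by rw [rank_toZFSet], by rw [rank_toZFSet]⟩, rfl,
          by rwa [rank_toZFSet], by rw [rank_toZFSet, rank_toZFSet]⟩
      · rintro ⟨u, w, ⟨hu, hw⟩, hz, h1, h2⟩
        refine ⟨u.rank, h1, ?_⟩
        rw [← h2, ← hu, ← hw]
        exact hz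
  · intro z hz
    obtain ⟨a, ha, rfl⟩ := (mem_graph _ _ _).mp hz
    exact HOD_pair (HOD_toZFSet _) (HOD_toZFSet _) (DP.eq_ord 0 _) (DP.eq_ord 0 _)

theorem mem_ordSet (lam : Ordinal.{0}) (A : Set Ordinal.{0}) (z : ZFSet.{0}) :
    z ∈ ordSet lam A ↔ ∃ a < lam, a ∈ A ∧ z = a.toZFSet := by
  rw [ordSet, ZFSet.mem_sep]
  constructor
  · rintro ⟨h1, h2⟩
    obtain ⟨a, ha, rfl⟩ := mem_toZFSet_iff.mp h1
    rw [rank_toZFSet] at h2
    exact ⟨a, ha, h2, rfl⟩
  · rintro ⟨a, ha, h2, rfl⟩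
    rw [rank_toZFSet]
    exact ⟨mem_toZFSet_iff.mpr ⟨a, ha, rfl⟩, h2⟩

theorem mem_seqSet (κ lam : Ordinal.{0}) (S : Ordinal.{0} → Set Ordinal.{0}) (z : ZFSet.{0}) :
    z ∈ seqSet κ lam S ↔ ∃ ξ < κ, z = ZFSet.pair ξ.toZFSet (ordSet lam (S ξ)) := by
  rw [seqSet, ZFSet.mem_range]
  constructor
  · rintro ⟨⟨a, ha⟩, h⟩
    exact ⟨a, ha, h.symm⟩
  · rintro ⟨a, ha, h⟩
    exact ⟨⟨a, ha⟩, h.symm⟩

/-- substitution of an ordinal for the first variable -/
theorem DP.subst_ord {Q : Ordinal.{0} → Ordinal.{0} → Prop}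
    (h : DP (fun v => Q (v 0).rank (v 1).rank)) (ξ : Ordinal.{0}) (i : ℕ) :
    DP (fun v => Q ξ (v i).rank) := by
  refine (DP.ex (Q := fun x v => x = ξ.toZFSet ∧ Q x.rank (v i).rank) ?_).congr ?_
  · exact (DP.eq_ord 0 ξ).and (h.rename (fun n => if n = 0 then 0 else i + 1))
  · intro v
    constructor
    · intro h
      exact ⟨_, rfl, by rwa [rank_toZFSet]⟩
    · rintro ⟨x, rfl, h⟩
      rwa [rank_toZFSet] at h

theorem HOD_seqSet (κ lam : Ordinal.{0}) (S : Ordinal.{0} → Set Ordinal.{0})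
    (h : ODRel (fun ξ a => ξ < κ ∧ a < lam ∧ a ∈ S ξ)) : HOD (seqSet κ lam S) := by
  have hQ := (odRel_iff_DP _).mp h
  refine HOD.intro _ (DP.od ?_) ?_
  · refine (DP.all (Q := fun z v => z ∈ v 0 ↔ ∃ u : ZFSet.{0}, ∃ w : ZFSet.{0},
      (u = u.rank.toZFSet ∧ u.rank < κ) ∧ z = ZFSet.pair u w ∧
        ∀ t : ZFSet.{0}, t ∈ w ↔ (t = t.rank.toZFSet ∧ (u.rank < κ ∧ t.rank < lam ∧
          t.rank ∈ S u.rank))) ?_).congr ?_
    · refine (DP.mem 0 1).iff ?_
      refine DP.ex (Q := fun u v => ∃ w : ZFSet.{0},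
        (u = u.rank.toZFSet ∧ u.rank < κ) ∧ v 0 = ZFSet.pair u w ∧
        ∀ t : ZFSet.{0}, t ∈ w ↔ (t = t.rank.toZFSet ∧ (u.rank < κ ∧ t.rank < lam ∧
          t.rank ∈ S u.rank))) ?_
      refine DP.ex (Q := fun w v => (v 0 = (v 0).rank.toZFSet ∧ (v 0).rank < κ) ∧
        v 1 = ZFSet.pair (v 0) w ∧
        ∀ t : ZFSet.{0}, t ∈ w ↔ (t = t.rank.toZFSet ∧ ((v 0).rank < κ ∧ t.rank < lam ∧
          t.rank ∈ S (v 0).rank))) ?_
      refine ((DP.isOrd 1).and (DP.rank_lt_ord 1 κ)).and ((DP.pair 2 1 0).and ?_)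
      refine DP.all (Q := fun t v => t ∈ v 0 ↔ (t = t.rank.toZFSet ∧ ((v 1).rank < κ ∧
        t.rank < lam ∧ t.rank ∈ S (v 1).rank))) ?_
      refine (DP.mem 0 1).iff ((DP.isOrd 0).and ?_)
      exact hQ.rename (fun n => if n = 0 then 2 else 0)
    · intro v
      rw [ZFSet.ext_iff]
      refine forall_congr' fun z => iff_congr Iff.rfl ?_
      rw [mem_seqSet]
      constructor
      · rintro ⟨a, ha, rfl⟩
        refine ⟨_, _, ⟨by rw [rank_toZFSet], by rwa [rank_toZFSet]⟩, rfl, ?_⟩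
        intro t
        rw [mem_ordSet, rank_toZFSet]
        constructor
        · rintro ⟨b, hb, hb', rfl⟩
          rw [rank_toZFSet]
          exact ⟨rfl, ha, hb, hb'⟩
        · rintro ⟨h1, -, h2, h3⟩
          exact ⟨t.rank, h2, h3, h1⟩
      · rintro ⟨u, w, ⟨hu, hu'⟩, hz, h1⟩
        refine ⟨u.rank, hu', ?_⟩
        rw [hz, ← hu]
        congr 1
        rw [ZFSet.ext_iff]
        intro t
        rw [h1, mem_ordSet]
        constructor
        · rintro ⟨h1, -, h2, h3⟩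
          exact ⟨t.rank, h2, h3, h1⟩
        · rintro ⟨b, hb, hb', rfl⟩
          rw [rank_toZFSet]
          exact ⟨rfl, hu', hb, hb'⟩
  · intro z hz
    obtain ⟨a, ha, rfl⟩ := (mem_seqSet _ _ _ _).mp hz
    have hd : DP (fun v => v 0 = ordSet lam (S a)) := by
      refine (DP.all (Q := fun t v => t ∈ v 0 ↔ (t = t.rank.toZFSet ∧ (a < κ ∧
        t.rank < lam ∧ t.rank ∈ S a))) ?_).congr ?_
      · exact (DP.mem 0 1).iff ((DP.isOrd 0).and
          (DP.subst_ord (Q := fun ξ b => ξ < κ ∧ b < lam ∧ b ∈ S ξ) hQ a 0))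
      · intro v
        rw [ZFSet.ext_iff]
        refine forall_congr' fun t => iff_congr Iff.rfl ?_
        rw [mem_ordSet]
        constructor
        · rintro ⟨b, hb, hb', rfl⟩
          rw [rank_toZFSet]
          exact ⟨rfl, ha, hb, hb'⟩
        · rintro ⟨h1, -, h2, h3⟩
          exact ⟨t.rank, h2, h3, h1⟩
    refine HOD_pair (HOD_toZFSet _) (HOD.intro _ hd.od ?_) (DP.eq_ord 0 _) hd
    intro t ht
    obtain ⟨b, hb, hb', rfl⟩ := (mem_ordSet _ _ _).mp ht
    exact HOD_toZFSet _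

/-! ### Enumerations and singularity -/

/-- enumerations with coded functions -/
theorem enum_iff_code (Γ : Set Ordinal.{0}) (a b : Ordinal.{0}) :
    Enum Γ a b ↔ b ∈ Γ ∧ ∃ G : ZFSet.{0},
      (∀ x : Ordinal.{0}, x < a → ∃ y : Ordinal.{0}, fn G x = y ∧ y ∈ Γ ∧ y < b) ∧
      (∀ x : Ordinal.{0}, ∀ y : Ordinal.{0}, x < a → y < a → x < y →
        ∃ s : Ordinal.{0}, ∃ t : Ordinal.{0}, fn G x = s ∧ fn G y = t ∧ s < t) ∧
      (∀ z : Ordinal.{0}, z ∈ Γ → z < b → ∃ x : Ordinal.{0}, x < a ∧ fn G x = z) := by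
  constructor
  · rintro ⟨hb, g, h1, h2, h3⟩
    obtain ⟨G, hG, -⟩ := exists_fn g a
    refine ⟨hb, G, ?_, ?_, ?_⟩
    · intro x hx
      exact ⟨g x, hG x hx, h1 x hx⟩
    · intro x y hx hy hxy
      exact ⟨g x, g y, hG x hx, hG y hy, h2 x hx y hy hxy⟩
    · intro z hz hzb
      obtain ⟨x, hx, hxz⟩ := h3 z hz hzb
      exact ⟨x, hx, by rw [hG x hx, hxz]⟩
  · rintro ⟨hb, G, h1, h2, h3⟩
    refine ⟨hb, fn G, ?_, ?_, ?_⟩
    · intro x hx
      obtain ⟨y, rfl, hy⟩ := h1 x hx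
      exact hy
    · intro x hx y hy hxy
      obtain ⟨s, t, rfl, rfl, hst⟩ := h2 x y hx hy hxy
      exact hst
    · intro z hz hzb
      exact h3 z hz hzb

theorem DP.enum {Γ : Set Ordinal.{0}} (h : DP (fun v => (v 0).rank ∈ Γ)) :
    DP (fun v => Enum Γ (v 0).rank (v 1).rank) := by
  have hΓ : ∀ i, DP (fun v => (v i).rank ∈ Γ) := fun i => h.rename (fun _ => i)
  refine DP.congr ?_ (fun v => enum_iff_code Γ (v 0).rank (v 1).rank)
  refine (hΓ 1).and ?_
  refine DP.ex (Q := fun G v =>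
      (∀ x : Ordinal.{0}, x < (v 0).rank → ∃ y : Ordinal.{0}, HODC.fn G x = y ∧ y ∈ Γ ∧
        y < (v 1).rank) ∧
      (∀ x : Ordinal.{0}, ∀ y : Ordinal.{0}, x < (v 0).rank → y < (v 0).rank → x < y →
        ∃ s : Ordinal.{0}, ∃ t : Ordinal.{0}, HODC.fn G x = s ∧ HODC.fn G y = t ∧ s < t) ∧
      (∀ z : Ordinal.{0}, z ∈ Γ → z < (v 1).rank → ∃ x : Ordinal.{0}, x < (v 0).rank ∧
        HODC.fn G x = z)) ?_
  refine DP.and ?_ (DP.and ?_ ?_)
  · refine DP.allO (Q := fun x v => x < (v 1).rank → ∃ y : Ordinal.{0},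
      HODC.fn (v 0) x = y ∧ y ∈ Γ ∧ y < (v 2).rank) ?_
    refine (DP.rank_lt 0 2).imp ?_
    refine DP.exO (Q := fun y v => HODC.fn (v 1) (v 0).rank = y ∧ y ∈ Γ ∧ y < (v 3).rank) ?_
    exact (DP.fn 2 1 0).and ((hΓ 0).and (DP.rank_lt 0 4))
  · refine DP.allO (Q := fun x v => ∀ y : Ordinal.{0}, x < (v 1).rank → y < (v 1).rank → x < y →
        ∃ s : Ordinal.{0}, ∃ t : Ordinal.{0}, HODC.fn (v 0) x = s ∧ HODC.fn (v 0) y = t ∧
        s < t) ?_
    refine DP.allO (Q := fun y v => (v 0).rank < (v 2).rank → y < (v 2).rank → (v 0).rank < y →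
        ∃ s : Ordinal.{0}, ∃ t : Ordinal.{0}, HODC.fn (v 1) (v 0).rank = s ∧
        HODC.fn (v 1) y = t ∧ s < t) ?_
    refine (DP.rank_lt 1 3).imp ((DP.rank_lt 0 3).imp ((DP.rank_lt 1 0).imp ?_))
    refine DP.exO (Q := fun s v => ∃ t : Ordinal.{0}, HODC.fn (v 2) (v 1).rank = s ∧
        HODC.fn (v 2) (v 0).rank = t ∧ s < t) ?_
    refine DP.exO (Q := fun t v => HODC.fn (v 3) (v 2).rank = (v 0).rank ∧
        HODC.fn (v 3) (v 1).rank = t ∧ (v 0).rank < t) ?_
    exact (DP.fn 4 3 1).and ((DP.fn 4 2 0).and (DP.rank_lt 1 0))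
  · refine DP.allO (Q := fun z v => z ∈ Γ → z < (v 2).rank → ∃ x : Ordinal.{0},
      x < (v 1).rank ∧ HODC.fn (v 0) x = z) ?_
    refine (hΓ 0).imp ((DP.rank_lt 0 3).imp ?_)
    refine DP.exO (Q := fun x v => x < (v 2).rank ∧ HODC.fn (v 1) x = (v 0).rank) ?_
    exact (DP.rank_lt 0 3).and (DP.fn 2 0 1)

theorem ODRel.enum {Q : Ordinal.{0} → Ordinal.{0} → Prop} (h : ODRel Q) (ξ : Ordinal.{0}) :
    ODRel (Enum {b | Q ξ b}) := by
  rw [odRel_iff_DP] at h ⊢
  exact DP.enum (Γ := {b | Q ξ b}) (DP.subst_ord h ξ 0)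

theorem hodSing_of_rel {α ρ : Ordinal.{0}} {κ : Cardinal.{0}}
    {E : Ordinal.{0} → Ordinal.{0} → Prop} (hα : IsSuccLimit α) (hE : ODRel E) (hρ : ρ < α)
    (hκ : κ.ord ≤ α)
    (hb : ∀ ξ < ρ, Cardinal.mk {η : Ordinal.{0} // E ξ η} < Cardinal.lift.{1} κ)
    (hc : ∀ β < α, ∃ ξ < ρ, ∃ η < α, β < η ∧ E ξ η) : HODSing α := by
  have hE' := (odRel_iff_DP _).mp hE
  by_cases hcase : ∃ ξ < ρ, ∀ β < α, ∃ η < α, β < η ∧ E ξ η
  · -- one of the sections is unbounded: its enumeration is short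
    obtain ⟨ξ, hξ, hun⟩ := hcase
    let Γ : Set Ordinal.{0} := {η | η < α ∧ E ξ η}
    have hcard : Cardinal.mk Γ < Cardinal.lift.{1} κ := by
      refine lt_of_le_of_lt ?_ (hb ξ hξ)
      exact Cardinal.mk_le_of_injective
        (f := fun x : Γ => (⟨x.1, x.2.2⟩ : {η : Ordinal.{0} // E ξ η}))
        (fun x y hxy => by
          have h3 := congrArg (fun z : {η : Ordinal.{0} // E ξ η} => z.1) hxy
          exact Subtype.ext h3)
    obtain ⟨τ, hτ, h1, h2⟩ := enum_small (α := α) (Γ := Γ) (fun b hb => hb.1)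
      (fun β hβ => by
        obtain ⟨η, hη, h1, h2⟩ := hun β hβ
        exact ⟨η, ⟨hη, h2⟩, h1⟩) hcard
    choose! f hf using h1
    refine ⟨hα, τ, hτ.trans_le hκ, f, ?_, ?_, HOD_graph _ _ ?_⟩
    · intro ζ hζ
      exact (hf ζ hζ).1.1
    · intro β hβ
      obtain ⟨ζ, hζ, b, hb1, hb2⟩ := h2 β hβ
      exact ⟨ζ, hζ, by rw [enum_unique (hf ζ hζ) hb2]; exact hb1.le⟩
    · rw [odRel_iff_DP]
      have hΓ : DP (fun v => (v 0).rank ∈ Γ) :=
        (DP.rank_lt_ord 0 α).and (DP.subst_ord hE' ξ 0)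
      refine ((DP.rank_lt_ord 0 τ).and (DP.enum hΓ)).congr ?_
      intro v
      constructor
      · rintro ⟨h3, h4⟩
        exact ⟨h3, h4 ▸ hf _ h3⟩
      · rintro ⟨h3, h4⟩
        exact ⟨h3, enum_unique h4 (hf _ h3)⟩
  · -- all sections are bounded: take suprema
    push Not at hcase
    have hbd : ∀ ξ < ρ, {σ : Ordinal.{0} | ∀ η < α, E ξ η → η ≤ σ}.Nonempty := by
      intro ξ hξ
      obtain ⟨β, -, hβ⟩ := hcase ξ hξ
      exact ⟨β, fun η hη hE => by
        by_contra hcon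
        exact hβ η hη (not_le.mp hcon) hE⟩
    let f : Ordinal.{0} → Ordinal.{0} := fun ξ => sInf {σ : Ordinal.{0} | ∀ η < α, E ξ η → η ≤ σ}
    refine ⟨hα, ρ, hρ, f, ?_, ?_, HOD_graph _ _ ?_⟩
    · intro ξ hξ
      obtain ⟨β, hβα, hβ⟩ := hcase ξ hξ
      refine lt_of_le_of_lt (csInf_le' ?_) hβα
      intro η hη hE
      by_contra hcon
      exact hβ η hη (not_le.mp hcon) hE
    · intro β hβ
      obtain ⟨ξ, hξ, η, hη, hβη, hE⟩ := hc β hβ
      exact ⟨ξ, hξ, hβη.le.trans ((csInf_mem (hbd ξ hξ)) η hη hE)⟩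
    · rw [odRel_iff_DP]
      refine DP.congr (Q := fun v => (v 0).rank < ρ ∧
        ((∀ η : Ordinal.{0}, η < α → E (v 0).rank η → η ≤ (v 1).rank) ∧
        ∀ c : Ordinal.{0}, c < (v 1).rank →
          ¬ ∀ η : Ordinal.{0}, η < α → E (v 0).rank η → η ≤ c)) ?_ ?_
      · refine (DP.rank_lt_ord 0 ρ).and (DP.and ?_ ?_)
        · refine DP.allO (Q := fun η v => η < α → E (v 0).rank η → η ≤ (v 1).rank) ?_
          refine (DP.rank_lt_ord 0 α).imp (DP.imp ?_ (DP.rank_le 0 2))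
          exact hE'.rename (fun n => if n = 0 then 1 else 0)
        · refine DP.allO (Q := fun c v => c < (v 1).rank →
            ¬ ∀ η : Ordinal.{0}, η < α → E (v 0).rank η → η ≤ c) ?_
          refine (DP.rank_lt 0 2).imp (DP.not ?_)
          refine DP.allO (Q := fun η v => η < α → E (v 1).rank η → η ≤ (v 0).rank) ?_
          refine (DP.rank_lt_ord 0 α).imp (DP.imp ?_ (DP.rank_le 0 1))
          exact hE'.rename (fun n => if n = 0 then 2 else 0)
      · intro v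
        constructor
        · rintro ⟨h3, h4⟩
          refine ⟨h3, ?_, ?_⟩
          · rw [h4]
            exact csInf_mem (hbd _ h3)
          · intro c hc hc'
            rw [h4] at hc
            exact absurd (csInf_le' (show c ∈ {σ : Ordinal.{0} | ∀ η < α, E (v 0).rank η → η ≤ σ}
              from hc')) (not_le.mpr hc)
        · rintro ⟨h3, h4, h5⟩
          refine ⟨h3, le_antisymm ?_ (csInf_le' h4)⟩
          by_contra hcon
          exact h5 _ (not_le.mp hcon) (csInf_mem (hbd _ h3))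

end Pool.Agent.Helper73.HODC
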